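import Pool.Agent.Work.MP_594704_gt.Global

set_option autoImplicit false

open Set Filter Topology

namespace Pool.Agent.Work.MP_594704_gt

/-- `(1 - ⟨X,Y⟩) / (s t)` in Poincare coordinates. -/
lemma klein_to_poincare {n : ℕ} (X Y : EuclideanSpace ℝ (Fin n)) {s t : ℝ} (hs : 0 < s) (ht : 0 < t)
    (hX : ‖X‖ ^ 2 = 1 - s ^ 2) (hY : ‖Y‖ ^ 2 = 1 - t ^ 2) :
    1 + 2 * ‖(1 / (1 + s)) • X - (1 / (1 + t)) • Y‖ ^ 2 /
      ((1 - ‖(1 / (1 + s)) • X‖ ^ 2) * (1 - ‖(1 / (1 + t)) • Y‖ ^ 2)) =
      (1 - inner ℝ X Y) / (s * t) := by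
  have e1 : ‖(1 / (1 + s)) • X‖ ^ 2 = (1 - s) / (1 + s) := by
    rw [norm_smul, mul_pow, hX, Real.norm_eq_abs, sq_abs]
    field_simp
    ring
  have e2 : ‖(1 / (1 + t)) • Y‖ ^ 2 = (1 - t) / (1 + t) := by
    rw [norm_smul, mul_pow, hY, Real.norm_eq_abs, sq_abs]
    field_simp
    ring
  rw [norm_sub_sq_real, e1, e2, real_inner_smul_left, real_inner_smul_right]
  have e3 : 1 - (1 - s) / (1 + s) = 2 * s / (1 + s) := by field_simp; ring
  have e4 : 1 - (1 - t) / (1 + t) = 2 * t / (1 + t) := by field_simp; ring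
  rw [e3, e4]
  field_simp
  ring

lemma norm_poincare {n : ℕ} (X : EuclideanSpace ℝ (Fin n)) {s : ℝ} (hs : 0 < s)
    (hX : ‖X‖ ^ 2 = 1 - s ^ 2) : ‖(1 / (1 + s)) • X‖ < 1 := by
  have e1 : ‖(1 / (1 + s)) • X‖ ^ 2 = (1 - s) / (1 + s) := by
    rw [norm_smul, mul_pow, hX, Real.norm_eq_abs, sq_abs]
    field_simp
    ring
  have e2 : (1 - s) / (1 + s) < 1 := by
    rw [div_lt_one (by positivity)]; linarith
  have h0 := norm_nonneg ((1 / (1 + s)) • X)
  nlinarith

theorem affine_case {n : ℕ} (hn : 2 ≤ n) {M : Set (EuclideanSpace ℝ (Fin n))}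
    {d : EuclideanSpace ℝ (Fin n) → EuclideanSpace ℝ (Fin n) → ℝ} (hM : M.Nonempty)
    (h : PMS M d) :
    (∃ φ : EuclideanSpace ℝ (Fin n) → EuclideanSpace ℝ (Fin n),
            Set.BijOn φ M Set.univ ∧ ∀ x ∈ M, ∀ y ∈ M, dist (φ x) (φ y) = d x y) ∨
        (∃ k : ℝ, 0 < k ∧ ∃ φ : EuclideanSpace ℝ (Fin n) → EuclideanSpace ℝ (Fin n),
            Set.BijOn φ M (Metric.ball 0 1) ∧ ∀ x ∈ M, ∀ y ∈ M,
              d x y = (1 / Real.sqrt k) * Real.log
                ((1 + 2 * ‖φ x - φ y‖ ^ 2 / ((1 - ‖φ x‖ ^ 2) * (1 - ‖φ y‖ ^ 2))) +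
                  Real.sqrt ((1 + 2 * ‖φ x - φ y‖ ^ 2 /
                    ((1 - ‖φ x‖ ^ 2) * (1 - ‖φ y‖ ^ 2))) ^ 2 - 1))) := by
  obtain ⟨o, ho⟩ := hM
  have hfr : Module.finrank ℝ (EuclideanSpace ℝ (Fin n)) = n := finrank_euclideanSpace_fin
  obtain ⟨T, l, k, hk0, hl, hw, hhyp, hflat⟩ := global_formula hfr hn h ho
  rcases hk0.eq_or_lt with hk | hk
  · left
    have hf := hflat hk.symm
    set φ : EuclideanSpace ℝ (Fin n) → EuclideanSpace ℝ (Fin n) :=
      fun x => (1 + l (x - o))⁻¹ • T (x - o) with hφ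
    have hiso : ∀ x ∈ M, ∀ y ∈ M, dist (φ x) (φ y) = d x y := by
      intro x hx y hy
      rw [hf x hx y hy, dist_comm, dist_eq_norm]
    refine ⟨φ, ⟨fun x _ => mem_univ _, ?_, ?_⟩, hiso⟩
    · intro x hx y hy e
      apply h.eq x hx y hy
      rw [← hiso x hx y hy, e, dist_self]
    · intro P _
      rcases eq_or_ne P 0 with hP | hP
      · refine ⟨o, ho, ?_⟩
        simp [hφ, hP]
      · set u := T.symm P with hu
        have hu0 : u ≠ 0 := by
          intro e
          apply hP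
          have : T u = P := T.apply_symm_apply P
          rw [← this, e, map_zero]
        have hτ := h.prm_spec ho hu0
        set τ := prm M d o u
        have hs : 0 < ‖P‖ := norm_pos_iff.mpr hP
        have ht : 0 < τ ‖P‖ := hτ.pos_iff.mpr hs
        have hxM := hτ.mem ‖P‖
        refine ⟨o + τ ‖P‖ • u, hxM, ?_⟩
        have e1 : o + τ ‖P‖ • u - o = τ ‖P‖ • u := by abel
        have e2 : φ (o + τ ‖P‖ • u) = ((1 + l (τ ‖P‖ • u))⁻¹ * τ ‖P‖) • P := by
          simp only [hφ, e1]
          rw [map_smul T, smul_smul]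
          congr 1
          exact T.apply_symm_apply P
        have hpos : 0 < (1 + l (τ ‖P‖ • u))⁻¹ * τ ‖P‖ := by
          have := hl _ hxM
          rw [e1] at this
          positivity
        have e3 : φ o = 0 := by simp [hφ]
        have e4 := hiso o ho _ hxM
        rw [e3, dist_zero_left, hτ.dist0, abs_of_pos hs, e2, norm_smul, Real.norm_eq_abs,
          abs_of_pos hpos] at e4
        have e5 : (1 + l (τ ‖P‖ • u))⁻¹ * τ ‖P‖ = 1 := by
          have : ((1 + l (τ ‖P‖ • u))⁻¹ * τ ‖P‖) * ‖P‖ = 1 * ‖P‖ := by rw [e4, one_mul]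
          exact mul_right_cancel₀ hs.ne' this
        rw [e2, e5, one_smul]
  · right
    have hf := hhyp hk
    have hsk : 0 < Real.sqrt k := Real.sqrt_pos.mpr hk
    set X : EuclideanSpace ℝ (Fin n) → EuclideanSpace ℝ (Fin n) :=
      fun x => (Real.sqrt k / (1 + l (x - o))) • T (x - o) with hX
    set sg : EuclideanSpace ℝ (Fin n) → ℝ := fun x => Real.sqrt (1 - ‖X x‖ ^ 2) with hsg
    set φ : EuclideanSpace ℝ (Fin n) → EuclideanSpace ℝ (Fin n) :=
      fun x => (1 / (1 + sg x)) • X x with hφ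
    have hXn : ∀ x ∈ M, (1 + l (x - o)) ^ 2 - k * ‖T (x - o)‖ ^ 2 =
        (1 + l (x - o)) ^ 2 * (1 - ‖X x‖ ^ 2) := by
      intro x hx
      have hlx := hl x hx
      simp only [hX]
      rw [norm_smul, mul_pow, Real.norm_eq_abs, sq_abs, div_pow, Real.sq_sqrt hk.le]
      field_simp
    have hXlt : ∀ x ∈ M, 0 < 1 - ‖X x‖ ^ 2 := by
      intro x hx
      have hlx := hl x hx
      have h1 := hw x hx
      rw [hXn x hx] at h1
      exact (mul_pos_iff_of_pos_left (by positivity)).mp h1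
    have hsgpos : ∀ x ∈ M, 0 < sg x := fun x hx => Real.sqrt_pos.mpr (hXlt x hx)
    have hsgsq : ∀ x ∈ M, ‖X x‖ ^ 2 = 1 - sg x ^ 2 := by
      intro x hx
      simp only [hsg]
      rw [Real.sq_sqrt (hXlt x hx).le]; ring
    have hinner : ∀ x ∈ M, ∀ y ∈ M,
        (1 + l (x - o)) * (1 + l (y - o)) - k * inner ℝ (T (x - o)) (T (y - o)) =
        (1 + l (x - o)) * (1 + l (y - o)) * (1 - inner ℝ (X x) (X y)) := by
      intro x hx y hy
      have hlx := hl x hx
      have hly := hl y hy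
      simp only [hX]
      rw [real_inner_smul_left, real_inner_smul_right]
      have : Real.sqrt k / (1 + l (x - o)) * (Real.sqrt k / (1 + l (y - o)) *
          inner ℝ (T (x - o)) (T (y - o))) =
          (Real.sqrt k * Real.sqrt k) / ((1 + l (x - o)) * (1 + l (y - o))) *
          inner ℝ (T (x - o)) (T (y - o)) := by
        field_simp
      rw [this, Real.mul_self_sqrt hk.le]
      field_simp
    have hform : ∀ x ∈ M, ∀ y ∈ M,
              d x y = (1 / Real.sqrt k) * Real.log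
                ((1 + 2 * ‖φ x - φ y‖ ^ 2 / ((1 - ‖φ x‖ ^ 2) * (1 - ‖φ y‖ ^ 2))) +
                  Real.sqrt ((1 + 2 * ‖φ x - φ y‖ ^ 2 /
                    ((1 - ‖φ x‖ ^ 2) * (1 - ‖φ y‖ ^ 2))) ^ 2 - 1)) := by
      intro x hx y hy
      have hlx := hl x hx
      have hly := hl y hy
      have hsx := hsgpos x hx
      have hsy := hsgpos y hy
      rw [hf x hx y hy, hXn x hx, hXn y hy, hinner x hx y hy]
      have kp := klein_to_poincare (X x) (X y) hsx hsy (hsgsq x hx) (hsgsq y hy)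
      change 1 + 2 * ‖φ x - φ y‖ ^ 2 / ((1 - ‖φ x‖ ^ 2) * (1 - ‖φ y‖ ^ 2)) = _ at kp
      rw [kp, hsgsq x hx, hsgsq y hy]
      set a := 1 + l (x - o)
      set b := 1 + l (y - o)
      set s := sg x
      set t := sg y
      set c := inner ℝ (X x) (X y)
      have e1 : a ^ 2 * (1 - (1 - s ^ 2)) * (b ^ 2 * (1 - (1 - t ^ 2))) = (a * b * (s * t)) ^ 2 := by
        ring
      have hp : 0 < a * b * (s * t) := by positivity
      have e2 : (a * b * (1 - c)) ^ 2 - (a * b * (s * t)) ^ 2 =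
          (a * b * (s * t)) ^ 2 * (((1 - c) / (s * t)) ^ 2 - 1) := by
        field_simp
      rw [e1, e2, Real.sqrt_mul (by positivity), Real.sqrt_sq hp.le]
      congr 2
      field_simp
    have hinj : InjOn φ M := by
      intro x hx y hy e
      apply h.eq x hx y hy
      rw [hform x hx y hy, e, sub_self, norm_zero]
      simp
    refine ⟨k, hk, φ, ⟨?_, hinj, ?_⟩, hform⟩
    · intro x hx
      rw [Metric.mem_ball, dist_zero_right]
      exact norm_poincare (X x) (hsgpos x hx) (hsgsq x hx)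
    · intro P hPb
      rw [Metric.mem_ball, dist_zero_right] at hPb
      rcases eq_or_ne P 0 with hP | hP
      · refine ⟨o, ho, ?_⟩
        simp [hφ, hX, hP]
      · set u := T.symm P with hu
        have hu0 : u ≠ 0 := by
          intro e
          apply hP
          have : T u = P := T.apply_symm_apply P
          rw [← this, e, map_zero]
        have hτ := h.prm_spec ho hu0
        set τ := prm M d o u
        have hp : 0 < ‖P‖ := norm_pos_iff.mpr hP
        set s0 := (1 / Real.sqrt k) * Real.log ((1 + ‖P‖) / (1 - ‖P‖)) with hs0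
        have hs : 0 < s0 := by
          apply mul_pos (by positivity)
          apply Real.log_pos
          rw [lt_div_iff₀ (by linarith)]
          linarith
        have ht : 0 < τ s0 := hτ.pos_iff.mpr hs
        have hxM := hτ.mem s0
        refine ⟨o + τ s0 • u, hxM, ?_⟩
        have e1 : o + τ s0 • u - o = τ s0 • u := by abel
        set x := o + τ s0 • u with hx
        have hlx := hl x hxM
        have e2 : φ x = (1 / (1 + sg x) * (Real.sqrt k / (1 + l (x - o)) * τ s0)) • P := by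
          simp only [hφ, hX]
          rw [e1, map_smul T, smul_smul, smul_smul]
          congr 1
          · ring
          · exact T.apply_symm_apply P
        have hsx := hsgpos x hxM
        have hpos : 0 < 1 / (1 + sg x) * (Real.sqrt k / (1 + l (x - o)) * τ s0) := by positivity
        set c := 1 / (1 + sg x) * (Real.sqrt k / (1 + l (x - o)) * τ s0) with hc
        have e3 : φ o = 0 := by simp [hφ, hX]
        have hr1 : ‖φ x‖ < 1 := norm_poincare (X x) hsx (hsgsq x hxM)
        set r := ‖φ x‖ with hr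
        have hr0 : 0 ≤ r := norm_nonneg _
        have e4 := hform o ho x hxM
        rw [hτ.dist0, abs_of_pos hs, e3, zero_sub, norm_neg, norm_zero, ← hr] at e4
        have h1r : 0 < 1 - r ^ 2 := by nlinarith
        have h1r' : 0 < 1 - r := by linarith
        have e5 : 1 + 2 * r ^ 2 / ((1 - 0 ^ 2) * (1 - r ^ 2)) = (1 + r ^ 2) / (1 - r ^ 2) := by
          have : (1 - (0 : ℝ) ^ 2) * (1 - r ^ 2) = 1 - r ^ 2 := by ring
          rw [this]
          field_simp
          ring
        have e6 : ((1 + r ^ 2) / (1 - r ^ 2)) ^ 2 - 1 = (2 * r / (1 - r ^ 2)) ^ 2 := by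
          field_simp
          ring
        have e7 : (1 + r ^ 2) / (1 - r ^ 2) + 2 * r / (1 - r ^ 2) = (1 + r) / (1 - r) := by
          rw [← add_div, div_eq_div_iff h1r.ne' h1r'.ne']
          ring
        rw [e5, e6, Real.sqrt_sq (by positivity), e7, hs0] at e4
        have e8 := mul_left_cancel₀ (by positivity) e4
        have hP1 : 0 < 1 - ‖P‖ := by linarith
        have e9 := Real.log_injOn_pos (mem_Ioi.mpr (by positivity : 0 < (1 + ‖P‖) / (1 - ‖P‖)))
          (mem_Ioi.mpr (by positivity : 0 < (1 + r) / (1 - r))) e8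
        rw [div_eq_div_iff hP1.ne' h1r'.ne'] at e9
        have e10 : r = ‖P‖ := by linarith
        have e11 : r = c * ‖P‖ := by
          rw [hr, e2, norm_smul, Real.norm_eq_abs, abs_of_pos hpos]
        have e12 : c = 1 := by
          have : c * ‖P‖ = 1 * ‖P‖ := by rw [← e11, e10, one_mul]
          exact mul_right_cancel₀ hp.ne' this
        rw [e2, e12, one_smul]

/-- The elliptic case violates the Ptolemaic inequality. -/
theorem proj_case {V : Type*} [AddCommGroup V] [Module ℝ V] [FiniteDimensional ℝ V]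
    (hV : 2 ≤ Module.finrank ℝ V)
    {d : Projectivization ℝ V → Projectivization ℝ V → ℝ}
    (hL : ∃ L : ℝ, 0 < L ∧ ∀ W : Submodule ℝ V, Module.finrank ℝ W = 2 →
          ∃ f : AddCircle L → Projectivization ℝ V,
            (∀ a b : AddCircle L, d (f a) (f b) = dist a b) ∧
            Set.range f = {p | p.submodule ≤ W})
    (hpt : ∀ x y z w, d x z * d y w ≤ d x y * d z w + d y z * d w x) : False := by
  obtain ⟨L, hL0, hW⟩ := hL
  obtain ⟨W, hWr⟩ : ∃ W : Submodule ℝ V, Module.finrank ℝ W = 2 := by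
    have hnt : Nontrivial V := Module.nontrivial_of_finrank_pos (R := ℝ) (by linarith)
    obtain ⟨e, he⟩ := exists_ne (0 : V)
    obtain ⟨f, hf⟩ := exists_linearIndependent_pair_of_one_lt_finrank
      (show 1 < Module.finrank ℝ V by omega) he
    refine ⟨Submodule.span ℝ (Set.range ![e, f]), ?_⟩
    rw [finrank_span_eq_card hf]
    simp
  obtain ⟨f, hf, -⟩ := hW W hWr
  have hp := hpt (f (0 : ℝ)) (f ((L / 4 : ℝ))) (f ((L / 2 : ℝ))) (f ((-(L / 4) : ℝ)))
  simp only [hf] at hp
  have nrm : ∀ x : ℝ, |x| ≤ L / 2 → ‖(x : AddCircle L)‖ = |x| := by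
    intro x hx
    rw [AddCircle.norm_coe_eq_abs_iff L hL0.ne', abs_of_pos hL0]
    exact hx
  have a1 : dist ((0 : ℝ) : AddCircle L) ((L / 2 : ℝ) : AddCircle L) = L / 2 := by
    rw [dist_eq_norm, ← AddCircle.coe_sub, nrm, zero_sub, abs_neg, abs_of_pos (by positivity)]
    rw [zero_sub, abs_neg, abs_of_pos (by positivity)]
  have a2 : dist ((L / 4 : ℝ) : AddCircle L) ((-(L / 4) : ℝ) : AddCircle L) = L / 2 := by
    have e : L / 4 - -(L / 4) = L / 2 := by ring
    rw [dist_eq_norm, ← AddCircle.coe_sub, e, nrm, abs_of_pos (by positivity)]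
    rw [abs_of_pos (by positivity)]
  have a3 : dist ((0 : ℝ) : AddCircle L) ((L / 4 : ℝ) : AddCircle L) = L / 4 := by
    rw [dist_eq_norm, ← AddCircle.coe_sub, nrm, zero_sub, abs_neg, abs_of_pos (by positivity)]
    rw [zero_sub, abs_neg, abs_of_pos (by positivity)]; linarith
  have a4 : dist ((L / 2 : ℝ) : AddCircle L) ((-(L / 4) : ℝ) : AddCircle L) = L / 4 := by
    have e : L / 2 - -(L / 4) = -(L / 4) + L := by ring
    rw [dist_eq_norm, ← AddCircle.coe_sub, e, AddCircle.coe_add_period, nrm, abs_neg,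
      abs_of_pos (by positivity)]
    rw [abs_neg, abs_of_pos (by positivity)]; linarith
  have a5 : dist ((L / 4 : ℝ) : AddCircle L) ((L / 2 : ℝ) : AddCircle L) = L / 4 := by
    have e : L / 4 - L / 2 = -(L / 4) := by ring
    rw [dist_eq_norm, ← AddCircle.coe_sub, e, nrm, abs_neg, abs_of_pos (by positivity)]
    rw [abs_neg, abs_of_pos (by positivity)]; linarith
  have a6 : dist ((-(L / 4) : ℝ) : AddCircle L) ((0 : ℝ) : AddCircle L) = L / 4 := by
    rw [dist_eq_norm, ← AddCircle.coe_sub, sub_zero, nrm, abs_neg, abs_of_pos (by positivity)]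
    rw [abs_neg, abs_of_pos (by positivity)]; linarith
  rw [a1, a2, a3, a4, a5, a6] at hp
  nlinarith

end Pool.Agent.Work.MP_594704_gt
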