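import Pool.Agent.Work.MP_594704_gt.Cont

set_option autoImplicit false

open Set Filter Topology

namespace Pool.Agent.Work.MP_594704_gt

/-- Lagrange interpolation for binary quadratic forms. -/
lemma Bf_interp (E : ℝ × ℝ × ℝ) (u v1 v2 v3 : ℝ × ℝ) :
    Bf E u u * (wd v1 v2 * wd v1 v3 * wd v2 v3) =
      Bf E v1 v1 * (wd u v2 * wd u v3 * wd v2 v3) - Bf E v2 v2 * (wd u v1 * wd u v3 * wd v1 v3) +
      Bf E v3 v3 * (wd u v1 * wd u v2 * wd v1 v2) := by
  simp only [Bf, wd]; ring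

lemma three_zero {E : ℝ × ℝ × ℝ} {v1 v2 v3 : ℝ × ℝ} (h1 : Bf E v1 v1 = 0) (h2 : Bf E v2 v2 = 0)
    (h3 : Bf E v3 v3 = 0) (h12 : wd v1 v2 ≠ 0) (h13 : wd v1 v3 ≠ 0) (h23 : wd v2 v3 ≠ 0)
    (u : ℝ × ℝ) : Bf E u u = 0 := by
  have := Bf_interp E u v1 v2 v3
  rw [h1, h2, h3] at this
  have h4 : wd v1 v2 * wd v1 v3 * wd v2 v3 ≠ 0 := mul_ne_zero (mul_ne_zero h12 h13) h23
  have h5 : Bf E u u * (wd v1 v2 * wd v1 v3 * wd v2 v3) = 0 := by rw [this]; ring
  rcases mul_eq_zero.mp h5 with h6 | h6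
  · exact h6
  · exact absurd h6 h4

/-- Solution of the functional equation `C x (y - x) = C y (y - x)`. -/
theorem forms_solve {M : Set (ℝ × ℝ)} (hM : IsOpen M) (h0 : (0 : ℝ × ℝ) ∈ M)
    {C : ℝ × ℝ → ℝ × ℝ × ℝ}
    (hC : ∀ x ∈ M, ∀ y ∈ M, Bf (C x) (y - x) (y - x) = Bf (C y) (y - x) (y - x)) :
    ∃ l1 l2 κ : ℝ, ∀ x ∈ M, C x = ((C 0).1 - x.2 * l1 + κ * x.2 ^ 2,
      (C 0).2.1 + (x.1 * l1 - x.2 * l2) / 2 - κ * (x.1 * x.2),
      (C 0).2.2 + x.1 * l2 + κ * x.1 ^ 2) := by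
  obtain ⟨ε, hε, hball⟩ := Metric.isOpen_iff.mp hM 0 h0
  set δ := ε / 2 with hδ_def
  have hδ : 0 < δ := by positivity
  have hbox : ∀ a b : ℝ, |a| ≤ δ → |b| ≤ δ → (a, b) ∈ M := by
    intro a b ha hb
    apply hball
    rw [Metric.mem_ball, dist_zero_right, Prod.norm_def, max_lt_iff]
    simp only [Real.norm_eq_abs]
    constructor <;> linarith
  have hp : (δ, δ) ∈ M := hbox _ _ (abs_of_pos hδ).le (abs_of_pos hδ).le
  have hq : (δ, -δ) ∈ M := hbox _ _ (abs_of_pos hδ).le (by rw [abs_neg]; exact (abs_of_pos hδ).le)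
  have hp' : (-δ, -δ) ∈ M :=
    hbox _ _ (by rw [abs_neg]; exact (abs_of_pos hδ).le) (by rw [abs_neg]; exact (abs_of_pos hδ).le)
  have hq' : (-δ, δ) ∈ M := hbox _ _ (by rw [abs_neg]; exact (abs_of_pos hδ).le) (abs_of_pos hδ).le
  have hx0 : (-(δ / 2), 0) ∈ M := hbox _ _
    (by rw [abs_neg, abs_of_pos (by positivity)]; linarith) (by rw [abs_zero]; exact hδ.le)
  -- the coefficients
  set A := C 0 with hA
  set P := C (δ, δ) with hP
  set R := C (δ, -δ) with hR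
  have e1 : (P.1 - A.1) + 2 * (P.2.1 - A.2.1) + (P.2.2 - A.2.2) = 0 := by
    have := hC 0 h0 _ hp
    simp only [Bf, sub_zero] at this
    have h2 : δ ^ 2 * ((P.1 - A.1) + 2 * (P.2.1 - A.2.1) + (P.2.2 - A.2.2)) = 0 := by
      linear_combination -this
    rcases mul_eq_zero.mp h2 with h3 | h3
    · exact absurd h3 (by positivity)
    · exact h3
  have e2 : (R.1 - A.1) - 2 * (R.2.1 - A.2.1) + (R.2.2 - A.2.2) = 0 := by
    have := hC 0 h0 _ hq
    simp only [Bf, sub_zero] at this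
    have h2 : δ ^ 2 * ((R.1 - A.1) - 2 * (R.2.1 - A.2.1) + (R.2.2 - A.2.2)) = 0 := by
      linear_combination -this
    rcases mul_eq_zero.mp h2 with h3 | h3
    · exact absurd h3 (by positivity)
    · exact h3
  have e3 : P.2.2 = R.2.2 := by
    have := hC _ hp _ hq
    simp only [Bf, Prod.fst_sub, Prod.snd_sub, sub_self] at this
    have h2 : (4 * δ ^ 2) * (P.2.2 - R.2.2) = 0 := by
      linear_combination this
    rcases mul_eq_zero.mp h2 with h3 | h3
    · exact absurd h3 (by positivity)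
    · linarith
  set κ := ((P.1 - A.1) + (R.1 - A.1)) / (2 * δ ^ 2) with hκ
  set l1 := (R.1 - P.1) / (2 * δ) with hl1
  set l2 := ((P.2.2 - A.2.2) - ((P.1 - A.1) + (R.1 - A.1)) / 2) / δ with hl2
  refine ⟨l1, l2, κ, ?_⟩
  -- the error forms
  set T : ℝ × ℝ → ℝ × ℝ × ℝ := fun x => ((C x).1 - (A.1 - x.2 * l1 + κ * x.2 ^ 2),
      (C x).2.1 - (A.2.1 + (x.1 * l1 - x.2 * l2) / 2 - κ * (x.1 * x.2)),
      (C x).2.2 - (A.2.2 + x.1 * l2 + κ * x.1 ^ 2)) with hT
  have hTrel : ∀ x ∈ M, ∀ y ∈ M, Bf (T x) (y - x) (y - x) = Bf (T y) (y - x) (y - x) := by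
    intro x hx y hy
    have h1 := hC x hx y hy
    have h2 : Bf (T x) (y - x) (y - x) - Bf (T y) (y - x) (y - x) =
        Bf (C x) (y - x) (y - x) - Bf (C y) (y - x) (y - x) := by
      simp only [hT, Bf, Prod.fst_sub, Prod.snd_sub]; ring
    linarith
  have hvan : ∀ x ∈ M, ∀ y ∈ M, (∀ u, Bf (T y) u u = 0) → Bf (T x) (y - x) (y - x) = 0 := by
    intro x hx y hy hz
    rw [hTrel x hx y hy]; exact hz _
  have T0 : ∀ u, Bf (T 0) u u = 0 := by
    intro u
    simp only [hT, ← hA, Bf, Prod.fst_zero, Prod.snd_zero]; ring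
  have κδ : κ * δ ^ 2 = ((P.1 - A.1) + (R.1 - A.1)) / 2 := by rw [hκ]; field_simp
  have l1δ : δ * l1 = (R.1 - P.1) / 2 := by rw [hl1]; field_simp
  have l2δ : δ * l2 = (P.2.2 - A.2.2) - ((P.1 - A.1) + (R.1 - A.1)) / 2 := by
    rw [hl2]; field_simp
  have Tp : ∀ u, Bf (T (δ, δ)) u u = 0 := by
    intro u
    have t1 : (T (δ, δ)).1 = 0 := by
      simp only [hT, ← hP]
      linear_combination l1δ - κδ
    have t2 : (T (δ, δ)).2.1 = 0 := by
      simp only [hT, ← hP]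
      linear_combination (1 / 2) * e1 - (1 / 2) * l1δ + (1 / 2) * l2δ + κδ
    have t3 : (T (δ, δ)).2.2 = 0 := by
      simp only [hT, ← hP]
      linear_combination -l2δ - κδ
    simp only [Bf, t1, t2, t3]; ring
  have Tq : ∀ u, Bf (T (δ, -δ)) u u = 0 := by
    intro u
    have t1 : (T (δ, -δ)).1 = 0 := by
      simp only [hT, ← hR]
      linear_combination -l1δ - κδ
    have t2 : (T (δ, -δ)).2.1 = 0 := by
      simp only [hT, ← hR]
      linear_combination -(1 / 2) * e2 - (1 / 2) * l1δ - (1 / 2) * l2δ - κδ - (1 / 2) * e3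
    have t3 : (T (δ, -δ)).2.2 = 0 := by
      simp only [hT, ← hR]
      linear_combination -l2δ - κδ - e3
    simp only [Bf, t1, t2, t3]; ring
  have Tx0 : ∀ u, Bf (T (-(δ / 2), 0)) u u = 0 := by
    refine three_zero (hvan _ hx0 _ h0 T0) (hvan _ hx0 _ hp Tp) (hvan _ hx0 _ hq Tq) ?_ ?_ ?_
    · have : wd ((0 : ℝ × ℝ) - (-(δ / 2), 0)) ((δ, δ) - (-(δ / 2), 0)) = δ ^ 2 / 2 := by
        simp [wd]; ring
      rw [this]; positivity
    · have : wd ((0 : ℝ × ℝ) - (-(δ / 2), 0)) ((δ, -δ) - (-(δ / 2), 0)) = -(δ ^ 2 / 2) := by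
        simp [wd]; ring
      rw [this]; exact neg_ne_zero.mpr (by positivity)
    · have : wd (((δ, δ) : ℝ × ℝ) - (-(δ / 2), 0)) ((δ, -δ) - (-(δ / 2), 0)) = -(3 * δ ^ 2) := by
        simp [wd]; ring
      rw [this]; exact neg_ne_zero.mpr (by positivity)
  have Tp' : ∀ u, Bf (T (-δ, -δ)) u u = 0 := by
    refine three_zero (hvan _ hp' _ h0 T0) (hvan _ hp' _ hx0 Tx0) (hvan _ hp' _ hq Tq) ?_ ?_ ?_
    · have : wd ((0 : ℝ × ℝ) - (-δ, -δ)) ((-(δ / 2), 0) - (-δ, -δ)) = δ ^ 2 / 2 := by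
        simp [wd]; ring
      rw [this]; positivity
    · have : wd ((0 : ℝ × ℝ) - (-δ, -δ)) ((δ, -δ) - (-δ, -δ)) = -(2 * δ ^ 2) := by
        simp [wd]; ring
      rw [this]; exact neg_ne_zero.mpr (by positivity)
    · have : wd (((-(δ / 2), 0) : ℝ × ℝ) - (-δ, -δ)) ((δ, -δ) - (-δ, -δ)) = -(2 * δ ^ 2) := by
        simp [wd]; ring
      rw [this]; exact neg_ne_zero.mpr (by positivity)
  have Tq' : ∀ u, Bf (T (-δ, δ)) u u = 0 := by
    refine three_zero (hvan _ hq' _ h0 T0) (hvan _ hq' _ hx0 Tx0) (hvan _ hq' _ hp Tp) ?_ ?_ ?_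
    · have : wd ((0 : ℝ × ℝ) - (-δ, δ)) ((-(δ / 2), 0) - (-δ, δ)) = -(δ ^ 2 / 2) := by
        simp [wd]; ring
      rw [this]; exact neg_ne_zero.mpr (by positivity)
    · have : wd ((0 : ℝ × ℝ) - (-δ, δ)) ((δ, δ) - (-δ, δ)) = 2 * δ ^ 2 := by
        simp [wd]; ring
      rw [this]; positivity
    · have : wd (((-(δ / 2), 0) : ℝ × ℝ) - (-δ, δ)) ((δ, δ) - (-δ, δ)) = 2 * δ ^ 2 := by
        simp [wd]; ring
      rw [this]; positivity
  have Tall : ∀ x ∈ M, ∀ u, Bf (T x) u u = 0 := by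
    intro x hx
    rcases eq_or_ne x 0 with hx00 | hx00
    · rw [hx00]; exact T0
    have main : ∀ p ∈ M, -p ∈ M → (∀ u, Bf (T p) u u = 0) → (∀ u, Bf (T (-p)) u u = 0) →
        wd x p ≠ 0 → ∀ u, Bf (T x) u u = 0 := by
      intro p hp hp' Tp Tp' hw
      refine three_zero (hvan x hx _ h0 T0) (hvan x hx p hp Tp) (hvan x hx _ hp' Tp') ?_ ?_ ?_
      · have : wd (0 - x) (p - x) = - wd x p := by
          simp only [wd, Prod.fst_sub, Prod.snd_sub, Prod.fst_zero, Prod.snd_zero]; ring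
        rw [this]; exact neg_ne_zero.mpr hw
      · have : wd (0 - x) (-p - x) = wd x p := by
          simp only [wd, Prod.fst_sub, Prod.snd_sub, Prod.fst_zero, Prod.snd_zero, Prod.fst_neg,
            Prod.snd_neg]
          ring
        rw [this]; exact hw
      · have : wd (p - x) (-p - x) = 2 * wd x p := by
          simp only [wd, Prod.fst_sub, Prod.snd_sub, Prod.fst_neg, Prod.snd_neg]
          ring
        rw [this]; exact mul_ne_zero two_ne_zero hw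
    by_cases hw : wd x (δ, δ) = 0
    · have hw2 : wd x (δ, -δ) ≠ 0 := by
        intro hw2
        simp only [wd] at hw hw2
        have a1 : δ * (x.1 - x.2) = 0 := by linarith
        have a2 : δ * (x.1 + x.2) = 0 := by linarith
        have b1 : x.1 - x.2 = 0 := (mul_eq_zero.mp a1).resolve_left hδ.ne'
        have b2 : x.1 + x.2 = 0 := (mul_eq_zero.mp a2).resolve_left hδ.ne'
        exact hx00 (Prod.ext (by simp; linarith) (by simp; linarith))
      have en : -((δ, -δ) : ℝ × ℝ) = (-δ, δ) := by ext <;> simp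
      exact main (δ, -δ) hq (by rw [en]; exact hq') Tq (by rw [en]; exact Tq') hw2
    · have en : -((δ, δ) : ℝ × ℝ) = (-δ, -δ) := by ext <;> simp
      exact main (δ, δ) hp (by rw [en]; exact hp') Tp (by rw [en]; exact Tp') hw
  intro x hx
  have z := Tall x hx
  have z1 := z (1, 0)
  have z2 := z (0, 1)
  have z3 := z (1, 1)
  simp only [Bf, mul_one, mul_zero, add_zero, zero_add] at z1 z2 z3
  have y1 : (T x).1 = 0 := by linarith
  have y3 : (T x).2.2 = 0 := by linarith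
  have y2 : (T x).2.1 = 0 := by linarith
  simp only [hT] at y1 y2 y3
  ext
  · simp only; linarith
  · simp only; linarith
  · simp only; linarith

end Pool.Agent.Work.MP_594704_gt
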