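import Pool.Agent.Work.MP_594704_gt.Lines

set_option autoImplicit false

open Set Filter Topology

namespace Pool.Agent.Work.MP_594704_gt

variable {E : Type*} [NormedAddCommGroup E] [NormedSpace ℝ E]

namespace IsParam

variable {M : Set E} {d : E → E → ℝ} {x w : E} {τ τ' : ℝ → ℝ}

lemma mem0 (hτ : IsParam M d x w τ) : x ∈ M := by simpa [hτ.zero] using hτ.mem 0

lemma dist0 (hτ : IsParam M d x w τ) (s : ℝ) : d x (x + τ s • w) = |s| := by
  have := hτ.dist 0 s
  simpa [hτ.zero] using this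

lemma pos_iff (hτ : IsParam M d x w τ) {s : ℝ} : 0 < τ s ↔ 0 < s := by
  have := hτ.mono.lt_iff_lt (a := 0) (b := s)
  rwa [hτ.zero] at this

lemma neg_iff (hτ : IsParam M d x w τ) {s : ℝ} : τ s < 0 ↔ s < 0 := by
  have := hτ.mono.lt_iff_lt (a := s) (b := 0)
  rwa [hτ.zero] at this

lemma dir_ne (hτ : IsParam M d x w τ) : w ≠ 0 := by
  rintro rfl
  have h1 := hτ.dist 0 1
  have h2 := hτ.dist 0 0
  simp only [smul_zero, add_zero] at h1 h2
  rw [h2] at h1
  norm_num at h1

lemma unique (hτ : IsParam M d x w τ) (hτ' : IsParam M d x w τ') : τ = τ' := by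
  funext s
  obtain ⟨s', hs'⟩ := hτ'.surj (τ s) (hτ.mem s)
  have h1 := hτ.dist0 s
  have h2 := hτ'.dist0 s'
  rw [hs', h1] at h2
  have h3 : 0 < s ↔ 0 < s' := by rw [← hτ.pos_iff (s := s), ← hτ'.pos_iff (s := s'), hs']
  have h4 : s < 0 ↔ s' < 0 := by rw [← hτ.neg_iff (s := s), ← hτ'.neg_iff (s := s'), hs']
  have : s = s' := by
    rcases lt_trichotomy s 0 with h | h | h
    · have := h4.mp h
      rw [abs_of_neg h, abs_of_neg this] at h2
      linarith
    · subst h
      rw [abs_zero] at h2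
      exact (abs_eq_zero.mp h2.symm).symm
    · have := h3.mp h
      rw [abs_of_pos h, abs_of_pos this] at h2
      exact h2
  rw [← hs', this]

lemma smul_dir (hτ : IsParam M d x w τ) {r : ℝ} (hr : 0 < r) :
    IsParam M d x (r • w) (fun s => τ s / r) := by
  have e : ∀ s, x + (τ s / r) • (r • w) = x + τ s • w := by
    intro s; rw [smul_smul, div_mul_cancel₀ _ hr.ne']
  refine ⟨?_, ?_, ?_, ?_, ?_, ?_⟩
  · intro a b hab
    exact div_lt_div_of_pos_right (hτ.mono hab) hr
  · exact hτ.cont.div_const _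
  · simp [hτ.zero]
  · intro s; rw [e]; exact hτ.mem s
  · intro s t; rw [e, e]; exact hτ.dist s t
  · intro t ht
    rw [smul_smul] at ht
    obtain ⟨s, hs⟩ := hτ.surj _ ht
    exact ⟨s, by simp only [hs]; field_simp⟩

end IsParam

open Classical in
/-- The arclength parametrisation of the line through `x` in direction `w`. -/
noncomputable def prm (M : Set E) (d : E → E → ℝ) (x w : E) : ℝ → ℝ :=
  if hex : ∃ τ, IsParam M d x w τ then hex.choose else 0

/-- The cosine of the angle at `x` between the direction `w` and the point `y`. -/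
noncomputable def cs (M : Set E) (d : E → E → ℝ) (x w y : E) : ℝ :=
  - deriv (fun s => d y (x + prm M d x w s • w)) 0

namespace PMS

variable {M : Set E} {d : E → E → ℝ} (h : PMS M d)
include h

lemma prm_spec {x w : E} (hx : x ∈ M) (hw : w ≠ 0) : IsParam M d x w (prm M d x w) := by
  unfold prm
  rw [dif_pos (h.exists_param hx hw)]
  exact (h.exists_param hx hw).choose_spec

lemma hasDerivAt_cs {x w y : E} {τ : ℝ → ℝ} (hτ : IsParam M d x w τ) (hy : y ∈ M) (hyx : y ≠ x) :
    HasDerivAt (fun s => d y (x + τ s • w)) (-(cs M d x w y)) 0 := by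
  have e : τ = prm M d x w := hτ.unique (h.prm_spec hτ.mem0 hτ.dir_ne)
  have h1 := (h.differentiableAt_param hτ hy hyx).hasDerivAt
  unfold cs
  rw [neg_neg, ← e]
  exact h1

lemma hasDerivAt_cs' {x w y : E} {τ : ℝ → ℝ} (hτ : IsParam M d x w τ) (s : ℝ) (hy : y ∈ M)
    (hyx : y ≠ x + τ s • w) :
    HasDerivAt (fun r => d y (x + τ r • w)) (-(cs M d (x + τ s • w) w y)) s := by
  have h1 := h.hasDerivAt_cs (hτ.shift s) hy hyx
  have e : (fun r => d y (x + τ s • w + (τ (s + r) - τ s) • w)) =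
      fun r => d y (x + τ (s + r) • w) := by
    funext r
    congr 1
    rw [sub_smul]; abel
  rw [e] at h1
  have h3 : HasDerivAt (fun r => d y (x + τ (s + r) • w)) (-(cs M d (x + τ s • w) w y)) (s - s) := by
    rwa [sub_self]
  have h4 := h3.comp_sub_const s s
  refine h4.congr_of_eventuallyEq (Eventually.of_forall fun r => ?_)
  simp only [add_sub_cancel]

lemma cs_neg_dir {x w y : E} (hx : x ∈ M) (hw : w ≠ 0) (hy : y ∈ M) (hyx : y ≠ x) :
    cs M d x (-w) y = - cs M d x w y := by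
  have hτ := h.prm_spec hx hw
  have h1 := h.hasDerivAt_cs hτ hy hyx
  have h2 := h.hasDerivAt_cs hτ.neg hy hyx
  have e : (fun s => d y (x + (-prm M d x w (-s)) • (-w))) =
      fun s => d y (x + prm M d x w (-s) • w) := by
    funext s; rw [neg_smul_neg]
  rw [e] at h2
  have h3 : HasDerivAt (fun s : ℝ => -s) (-1) 0 := hasDerivAt_neg 0
  have h4 : HasDerivAt (fun s => d y (x + prm M d x w s • w)) (-(cs M d x w y)) (-0) := by
    rwa [neg_zero]
  have h5 := HasDerivAt.comp (0 : ℝ) h4 h3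
  have h6 := h2.unique h5
  linarith

lemma cs_smul_dir {x w y : E} {r : ℝ} (hr : 0 < r) (hx : x ∈ M) (hw : w ≠ 0) (hy : y ∈ M)
    (hyx : y ≠ x) : cs M d x (r • w) y = cs M d x w y := by
  have hτ := h.prm_spec hx hw
  have h1 := h.hasDerivAt_cs hτ hy hyx
  have h2 := h.hasDerivAt_cs (hτ.smul_dir hr) hy hyx
  have e : (fun s => d y (x + (prm M d x w s / r) • (r • w))) =
      fun s => d y (x + prm M d x w s • w) := by
    funext s; rw [smul_smul, div_mul_cancel₀ _ hr.ne']
  rw [e] at h2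
  have h6 := h2.unique h1
  linarith

/-- The key lemma, differentiated: `cs` is odd under passing to the opposite point. -/
lemma cs_opp {x w y : E} {ρ : ℝ} (hρ : 0 < ρ) (hx : x ∈ M) (hw : w ≠ 0) (hy : y ∈ M)
    (hyx : y ≠ x) (hys : x + ρ • (x - y) ∈ M) :
    cs M d x w (x + ρ • (x - y)) = - cs M d x w y := by
  have hτ := h.prm_spec hx hw
  have hysx : x + ρ • (x - y) ≠ x := by
    intro e
    have : ρ • (x - y) = 0 := by
      have h2 : x + ρ • (x - y) = x + 0 := by rw [e, add_zero]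
      exact add_left_cancel h2
    rcases smul_eq_zero.mp this with h0 | h0
    · exact hρ.ne' h0
    · exact hyx (sub_eq_zero.mp h0).symm
  have h1 := h.hasDerivAt_cs hτ hy hyx
  have h2 := h.hasDerivAt_cs hτ hys hysx
  have h3 := h1.add h2
  -- the sum has a minimum at `0`
  have hmin : IsLocalMin ((fun s => d y (x + prm M d x w s • w)) +
      fun s => d (x + ρ • (x - y)) (x + prm M d x w s • w)) 0 := by
    refine Eventually.of_forall fun s => ?_
    have hseg := h.seg hy hx (mem_segment_opp x y hρ.le) hys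
    have htri := h.tri y hy (x + prm M d x w s • w) (hτ.mem s) _ hys
    rw [h.symm _ (hτ.mem s) _ hys] at htri
    rw [h.symm x hx _ hys] at hseg
    have e0 : x + prm M d x w 0 • w = x := by simp [hτ.zero]
    simp only [Pi.add_apply, e0]
    linarith
  have h4 := hmin.hasDerivAt_eq_zero h3
  linarith

lemma exists_opp {x : E} (hx : x ∈ M) (y : E) (δ : ℝ) (hδ : 0 < δ) :
    ∃ ρ : ℝ, 0 < ρ ∧ ρ < δ ∧ x + ρ • (x - y) ∈ M := by
  have hc : Tendsto (fun ρ : ℝ => x + ρ • (x - y)) (𝓝 0) (𝓝 (x + (0 : ℝ) • (x - y))) :=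
    (continuous_const.add (continuous_id.smul continuous_const)).tendsto 0
  rw [zero_smul, add_zero] at hc
  have h1 := (h.eventually_mem hx hc).filter_mono (nhdsWithin_le_nhds (s := Ioi 0))
  have h2 : ∀ᶠ ρ in 𝓝[>] (0 : ℝ), ρ < δ :=
    (eventually_lt_nhds hδ).filter_mono nhdsWithin_le_nhds
  obtain ⟨ρ, ⟨h3, h4⟩, h5⟩ := ((h1.and h2).and self_mem_nhdsWithin).exists
  exact ⟨ρ, h5, h4, h3⟩

/-- `cs x w ·` is constant on rays. -/
lemma cs_ray {x w y : E} {t : ℝ} (ht : 0 < t) (hx : x ∈ M) (hw : w ≠ 0) (hy : y ∈ M)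
    (hyx : y ≠ x) (hys : x + t • (y - x) ∈ M) :
    cs M d x w (x + t • (y - x)) = cs M d x w y := by
  obtain ⟨ρ, hρ, -, hρM⟩ := h.exists_opp hx y 1 one_pos
  have h1 := h.cs_opp hρ hx hw hy hyx hρM
  have hne : x + ρ • (x - y) ≠ x := by
    intro e
    have : ρ • (x - y) = 0 := by
      have h2 : x + ρ • (x - y) = x + 0 := by rw [e, add_zero]
      exact add_left_cancel h2
    rcases smul_eq_zero.mp this with h0 | h0
    · exact hρ.ne' h0
    · exact hyx (sub_eq_zero.mp h0).symm
  have e : x + (t / ρ) • (x - (x + ρ • (x - y))) = x + t • (y - x) := by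
    have : x - (x + ρ • (x - y)) = ρ • (y - x) := by
      rw [sub_add_cancel_left, ← smul_neg, neg_sub]
    rw [this, smul_smul, div_mul_cancel₀ _ hρ.ne']
  have h2 := h.cs_opp (ρ := t / ρ) (by positivity) hx hw hρM hne (by rw [e]; exact hys)
  rw [e, h1, neg_neg] at h2
  exact h2

/-- Convexity: the tangent line bound. -/
lemma le_param {x w y : E} {τ : ℝ → ℝ} (hτ : IsParam M d x w τ) (hy : y ∈ M) (hyx : y ≠ x)
    (s : ℝ) : d y x - cs M d x w y * s ≤ d y (x + τ s • w) := by
  have hc := h.convexOn_param hτ hy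
  have hd := h.hasDerivAt_cs hτ hy hyx
  have e0 : x + τ 0 • w = x := by simp [hτ.zero]
  rcases lt_trichotomy s 0 with hs | hs | hs
  · have h1 := hc.slope_le_of_hasDerivAt (mem_univ s) (mem_univ 0) hs hd
    rw [slope_def_field, e0, div_le_iff₀ (by linarith)] at h1
    nlinarith
  · subst hs
    rw [e0]; linarith
  · have h1 := hc.le_slope_of_hasDerivAt (mem_univ 0) (mem_univ s) hs hd
    rw [slope_def_field, e0, le_div_iff₀ (by linarith)] at h1
    nlinarith

lemma cs_le_one {x w y : E} (hx : x ∈ M) (hw : w ≠ 0) (hy : y ∈ M) (hyx : y ≠ x) :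
    cs M d x w y ≤ 1 := by
  have hτ := h.prm_spec hx hw
  have h1 := h.le_param hτ hy hyx (-1)
  have h2 := h.abs_sub_le hy hx (hτ.mem (-1))
  rw [hτ.dist0] at h2
  have h3 := (abs_le.mp h2).1
  simp at h3
  linarith

lemma neg_one_le_cs {x w y : E} (hx : x ∈ M) (hw : w ≠ 0) (hy : y ∈ M) (hyx : y ≠ x) :
    -1 ≤ cs M d x w y := by
  have h1 := h.cs_le_one hx (neg_ne_zero.mpr hw) hy hyx
  rw [h.cs_neg_dir hx hw hy hyx] at h1
  linarith

/-- If the cosine is one then the point lies on the ray. -/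
lemma cs_lt_one {x w y : E} (hx : x ∈ M) (hw : w ≠ 0) (hy : y ∈ M)
    (hyx : ∀ t : ℝ, y ≠ x + t • w) : cs M d x w y < 1 := by
  have hyx' : y ≠ x := by simpa using hyx 0
  rcases (h.cs_le_one hx hw hy hyx').lt_or_eq with h0 | h0
  · exact h0
  exfalso
  have hτ := h.prm_spec hx hw
  have h1 := h.le_param hτ hy hyx' (-1)
  have h2 := h.abs_sub_le hy hx (hτ.mem (-1))
  rw [hτ.dist0] at h2
  have h3 := (abs_le.mp h2).1
  simp only [abs_neg, abs_one] at h3
  rw [h0] at h1
  have h4 : d y x + d x (x + prm M d x w (-1) • w) = d y (x + prm M d x w (-1) • w) := by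
    rw [hτ.dist0, abs_neg, abs_one]; linarith
  have h5 := (h.btw y hy x hx _ (hτ.mem (-1))).mp h4
  obtain ⟨a, b, ha, hb, hab, he⟩ := h5
  have hne : prm M d x w (-1) < 0 := hτ.neg_iff.mpr (by norm_num)
  rcases ha.eq_or_lt with h6 | h6
  · subst h6
    have hb1 : b = 1 := by linarith
    rw [hb1, zero_smul, one_smul, zero_add] at he
    have : prm M d x w (-1) • w = 0 := by
      have h2 : x + prm M d x w (-1) • w = x + 0 := by rw [he, add_zero]
      exact add_left_cancel h2
    rcases smul_eq_zero.mp this with h7 | h7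
    · exact hne.ne h7
    · exact hw h7
  · refine hyx (-(b * prm M d x w (-1)) / a) ?_
    have e1 : a • y = a • x + (-(b * prm M d x w (-1))) • w := by
      have : a • y = x - b • (x + prm M d x w (-1) • w) := eq_sub_of_add_eq he
      rw [this]
      have ha1 : a = 1 - b := by linarith
      rw [ha1]
      module
    have e2 : y = a⁻¹ • (a • y) := by rw [smul_smul, inv_mul_cancel₀ h6.ne', one_smul]
    rw [e2, e1, smul_add, smul_smul, smul_smul, inv_mul_cancel₀ h6.ne', one_smul]
    congr 2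
    field_simp

lemma neg_one_lt_cs {x w y : E} (hx : x ∈ M) (hw : w ≠ 0) (hy : y ∈ M)
    (hyx : ∀ t : ℝ, y ≠ x + t • w) : -1 < cs M d x w y := by
  have hyx' : y ≠ x := by simpa using hyx 0
  have h1 := h.cs_lt_one hx (neg_ne_zero.mpr hw) hy (fun t e => hyx (-t) (by
    rw [e]; simp))
  rw [h.cs_neg_dir hx hw hy hyx'] at h1
  linarith

/-- On the ray itself the cosine is one. -/
lemma cs_self {x w : E} {t : ℝ} (ht : 0 < t) (hx : x ∈ M) (hw : w ≠ 0) (hy : x + t • w ∈ M) :
    cs M d x w (x + t • w) = 1 := by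
  have hτ := h.prm_spec hx hw
  obtain ⟨s, hs⟩ := hτ.surj t hy
  have hspos : 0 < s := hτ.pos_iff.mp (by rw [hs]; exact ht)
  have hne : x + t • w ≠ x := by
    intro e
    have : t • w = 0 := by
      have h2 : x + t • w = x + 0 := by rw [e, add_zero]
      exact add_left_cancel h2
    rcases smul_eq_zero.mp this with h7 | h7
    · exact ht.ne' h7
    · exact hw h7
  have h1 := h.hasDerivAt_cs hτ hy hne
  have h2 : HasDerivAt (fun r : ℝ => s - r) (-1) 0 := by
    simpa using (hasDerivAt_id (0 : ℝ)).const_sub s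
  have h3 : (fun r => d (x + t • w) (x + prm M d x w r • w)) =ᶠ[𝓝 0] fun r => s - r := by
    filter_upwards [eventually_lt_nhds hspos] with r hr
    rw [← hs, hτ.dist, abs_of_pos (by linarith)]
  have h4 := h2.congr_of_eventuallyEq h3
  have h5 := h1.unique h4
  linarith

end PMS

end Pool.Agent.Work.MP_594704_gt
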