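import Mathlib

set_option autoImplicit false

open Set Filter Topology

namespace Pool.Agent.Work.MP_594704_gt

variable {E : Type*} [NormedAddCommGroup E] [NormedSpace ℝ E]

/-- A Ptolemaic projective-metric space of affine kind (without finite dimensionality). -/
structure PMS (M : Set E) (d : E → E → ℝ) : Prop where
  isOpen : IsOpen M
  convex : Convex ℝ M
  self : ∀ x ∈ M, d x x = 0
  symm : ∀ x ∈ M, ∀ y ∈ M, d x y = d y x
  eq : ∀ x ∈ M, ∀ y ∈ M, d x y = 0 → x = y
  tri : ∀ x ∈ M, ∀ y ∈ M, ∀ z ∈ M, d x z ≤ d x y + d y z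
  top : ∀ x ∈ M, ∀ V : Set E, (V ∈ nhds x ↔ ∃ r : ℝ, 0 < r ∧ ∀ y ∈ M, d x y < r → y ∈ V)
  btw : ∀ x ∈ M, ∀ y ∈ M, ∀ z ∈ M, (d x y + d y z = d x z ↔ y ∈ segment ℝ x z)
  line : ∀ p ∈ M, ∀ v : E, v ≠ 0 → ∃ f : ℝ → E, (∀ s t : ℝ, d (f s) (f t) = |s - t|) ∧
    Set.range f = {x | x ∈ M ∧ ∃ t : ℝ, x = p + t • v}
  ptol : ∀ x ∈ M, ∀ y ∈ M, ∀ z ∈ M, ∀ w ∈ M, d x z * d y w ≤ d x y * d z w + d y z * d w x

/-- Arclength parametrization of the line through `x` in direction `w`. -/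
structure IsParam (M : Set E) (d : E → E → ℝ) (x w : E) (τ : ℝ → ℝ) : Prop where
  mono : StrictMono τ
  cont : Continuous τ
  zero : τ 0 = 0
  mem : ∀ s, x + τ s • w ∈ M
  dist : ∀ s t, d (x + τ s • w) (x + τ t • w) = |s - t|
  surj : ∀ t, x + t • w ∈ M → ∃ s, τ s = t

namespace PMS

variable {M : Set E} {d : E → E → ℝ} (h : PMS M d)
include h

lemma nonneg {x y : E} (hx : x ∈ M) (hy : y ∈ M) : 0 ≤ d x y := by
  have h1 := h.tri x hx y hy x hx
  rw [h.self x hx, h.symm y hy x hx] at h1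
  linarith

lemma pos {x y : E} (hx : x ∈ M) (hy : y ∈ M) (hne : x ≠ y) : 0 < d x y :=
  lt_of_le_of_ne (h.nonneg hx hy) (fun h0 => hne (h.eq x hx y hy h0.symm))

lemma abs_sub_le {x y z : E} (hx : x ∈ M) (hy : y ∈ M) (hz : z ∈ M) :
    |d x y - d x z| ≤ d y z := by
  have h1 := h.tri x hx y hy z hz
  have h2 := h.tri x hx z hz y hy
  rw [h.symm z hz y hy] at h2
  rw [abs_le]; constructor <;> linarith

/-- The metric is continuous for the topology of `E`. -/
lemma tendsto_dist_zero {α : Type*} {l : Filter α} {z : α → E} {x : E} (hx : x ∈ M)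
    (hz : Tendsto z l (𝓝 x)) : Tendsto (fun a => d x (z a)) l (𝓝 0) := by
  rw [Metric.tendsto_nhds]
  intro ε hε
  have hV : {y | y ∈ M ∧ d x y < ε} ∈ 𝓝 x :=
    (h.top x hx _).mpr ⟨ε, hε, fun y hy hd => ⟨hy, hd⟩⟩
  filter_upwards [hz hV] with a ha
  rw [Real.dist_eq, sub_zero, abs_of_nonneg (h.nonneg hx ha.1)]
  exact ha.2

lemma tendsto_of_dist_zero {α : Type*} {l : Filter α} {z : α → E} {x : E} (hx : x ∈ M)
    (hzM : ∀ᶠ a in l, z a ∈ M) (hz : Tendsto (fun a => d x (z a)) l (𝓝 0)) :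
    Tendsto z l (𝓝 x) := by
  intro V hV
  obtain ⟨r, hr, hV'⟩ := (h.top x hx V).mp hV
  have h1 : ∀ᶠ a in l, d x (z a) < r := hz.eventually (eventually_lt_nhds hr)
  change ∀ᶠ a in l, z a ∈ V
  filter_upwards [h1, hzM] with a ha hza
  exact hV' _ hza ha

lemma eventually_mem {α : Type*} {l : Filter α} {z : α → E} {x : E} (hx : x ∈ M)
    (hz : Tendsto z l (𝓝 x)) : ∀ᶠ a in l, z a ∈ M :=
  hz (h.isOpen.mem_nhds hx)

lemma tendsto_dist {α : Type*} {l : Filter α} {z w : α → E} {x y : E} (hx : x ∈ M) (hy : y ∈ M)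
    (hz : Tendsto z l (𝓝 x)) (hw : Tendsto w l (𝓝 y)) :
    Tendsto (fun a => d (z a) (w a)) l (𝓝 (d x y)) := by
  have h1 := h.tendsto_dist_zero hx hz
  have h2 := h.tendsto_dist_zero hy hw
  have h3 : Tendsto (fun a => d x (z a) + d y (w a)) l (𝓝 0) := by simpa using h1.add h2
  rw [tendsto_iff_dist_tendsto_zero]
  refine squeeze_zero' (Eventually.of_forall fun a => dist_nonneg) ?_ h3
  filter_upwards [h.eventually_mem hx hz, h.eventually_mem hy hw] with a hza hwa
  rw [Real.dist_eq, abs_le]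
  have e1 := h.tri (z a) hza x hx (w a) hwa
  have e2 := h.tri x hx y hy (w a) hwa
  have e3 := h.tri x hx (z a) hza y hy
  have e4 := h.tri (z a) hza (w a) hwa y hy
  rw [h.symm (z a) hza x hx] at e1
  rw [h.symm (w a) hwa y hy] at e4
  constructor <;> linarith

/-- Ptolemy's inequality as a mixed second difference estimate. -/
lemma mixed {y y' z z' : E} (hy : y ∈ M) (hy' : y' ∈ M) (hz : z ∈ M) (hz' : z' ∈ M) :
    |(d y z - d y z') - (d y' z - d y' z')| * d y' z' ≤ 2 * d y y' * d z z' := by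
  have p1 := h.ptol y hy y' hy' z hz z' hz'
  have p2 := h.ptol y hy y' hy' z' hz' z hz
  have s1 := h.symm z' hz' y hy
  have s2 := h.symm z' hz' z hz
  have s3 := h.symm z hz y hy
  have b1 := h.abs_sub_le hy' hz hz'
  have b2 := h.abs_sub_le hz' hy hy'
  rw [h.symm z' hz' y hy, h.symm z' hz' y' hy'] at b2
  have n1 := h.nonneg hy hy'
  have n2 := h.nonneg hz hz'
  have n3 := h.nonneg hy' hz'
  -- (a - b) * d y' z' = (d y z * d y' z' - d y z' * d y' z) - b * (d y' z' - d y z')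
  have e : ((d y z - d y z') - (d y' z - d y' z')) * d y' z' =
      (d y z * d y' z' - d y z' * d y' z) - (d y' z - d y' z') * (d y' z' - d y z') := by ring
  have e' : |(d y z - d y z') - (d y' z - d y' z')| * d y' z' =
      |((d y z - d y z') - (d y' z - d y' z')) * d y' z'| := by rw [abs_mul, abs_of_nonneg n3]
  rw [e', e]
  have t1 : |d y z * d y' z' - d y z' * d y' z| ≤ d y y' * d z z' := by
    rw [abs_le]
    constructor
    · rw [s2, s3] at p2; nlinarith
    · rw [s1] at p1; nlinarith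
  have t2 : |(d y' z - d y' z') * (d y' z' - d y z')| ≤ d z z' * d y y' := by
    rw [abs_mul]
    have : |d y' z' - d y z'| ≤ d y y' := by rw [abs_sub_comm]; exact b2
    exact mul_le_mul b1 this (abs_nonneg _) n2
  calc |(d y z * d y' z' - d y z' * d y' z) - (d y' z - d y' z') * (d y' z' - d y z')|
      ≤ |d y z * d y' z' - d y z' * d y' z| + |(d y' z - d y' z') * (d y' z' - d y z')| :=
        abs_sub _ _
    _ ≤ 2 * d y y' * d z z' := by linarith

/-- Distances to a fixed point are convex along segments. -/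
lemma convex_dist {p x y z : E} (hp : p ∈ M) (hx : x ∈ M) (hy : y ∈ M) (hz : z ∈ M) :
    d p z * d x y ≤ d p x * d z y + d p y * d x z := by
  have := h.ptol p hp x hx z hz y hy
  rw [h.symm y hy p hp] at this
  nlinarith

end PMS

end Pool.Agent.Work.MP_594704_gt
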