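import Pool.Agent.Work.MP_594704_gt.Form

set_option autoImplicit false

open Set Filter Topology

namespace Pool.Agent.Work.MP_594704_gt

/-- The derivative of a differentiable convex function is continuous. -/
lemma continuous_deriv_of_convex {F G : ℝ → ℝ} (hF : ConvexOn ℝ univ F)
    (hG : ∀ s, HasDerivAt F (G s) s) : Continuous G := by
  have hFc : Continuous F := continuous_iff_continuousAt.mpr fun s => (hG s).continuousAt
  rw [continuous_iff_continuousAt]
  intro s0
  rw [ContinuousAt, tendsto_order]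
  have hsl := hasDerivAt_iff_tendsto_slope.mp (hG s0)
  constructor
  · intro a ha
    have h1 : Tendsto (slope F s0) (𝓝[<] s0) (𝓝 (G s0)) :=
      hsl.mono_left (nhdsWithin_mono _ fun y hy => ne_of_lt hy)
    obtain ⟨p, hp1, hp2⟩ := ((h1.eventually (eventually_gt_nhds ha)).and self_mem_nhdsWithin).exists
    have hp2' : p < s0 := hp2
    have h2 : Tendsto (fun s => slope F p s) (𝓝 s0) (𝓝 (slope F p s0)) := by
      simp only [slope_def_field]
      exact (((hFc.tendsto s0).sub_const _).div ((continuous_id.tendsto s0).sub_const _)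
        (by change s0 - p ≠ 0; linarith))
    rw [slope_comm] at hp1
    filter_upwards [h2.eventually (eventually_gt_nhds hp1), eventually_gt_nhds hp2'] with s h3 h4
    exact h3.trans_le (hF.slope_le_of_hasDerivAt (mem_univ _) (mem_univ _) h4 (hG s))
  · intro b hb
    have h1 : Tendsto (slope F s0) (𝓝[>] s0) (𝓝 (G s0)) :=
      hsl.mono_left (nhdsWithin_mono _ fun y hy => ne_of_gt hy)
    obtain ⟨p, hp1, hp2⟩ := ((h1.eventually (eventually_lt_nhds hb)).and self_mem_nhdsWithin).exists
    have hp2' : s0 < p := hp2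
    have h2 : Tendsto (fun s => slope F s p) (𝓝 s0) (𝓝 (slope F s0 p)) := by
      simp only [slope_def_field]
      exact ((tendsto_const_nhds.sub (hFc.tendsto s0)).div
        (tendsto_const_nhds.sub (continuous_id.tendsto s0)) (by change p - s0 ≠ 0; linarith))
    filter_upwards [h2.eventually (eventually_lt_nhds hp1), eventually_lt_nhds hp2'] with s h3 h4
    exact (hF.le_slope_of_hasDerivAt (mem_univ _) (mem_univ _) h4 (hG s)).trans_lt h3

/-- wedge product -/
def wd (u v : ℝ × ℝ) : ℝ := u.1 * v.2 - u.2 * v.1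

lemma Bf_lagrange (A : ℝ × ℝ × ℝ) (w w' u : ℝ × ℝ) :
    Bf A w w' * Bf A u u - Bf A w u * Bf A u w' =
      (A.1 * A.2.2 - A.2.1 ^ 2) * (wd w u * wd w' u) := by
  simp only [Bf, wd]; ring

open Classical in
/-- The normalised form at `x`. -/
noncomputable def FA (M : Set (ℝ × ℝ)) (d : ℝ × ℝ → ℝ × ℝ → ℝ) (x : ℝ × ℝ) : ℝ × ℝ × ℝ :=
  if hex : ∃ A, FormAt M d x A then hex.choose else (1, 0, 1)

namespace PMS

variable {M : Set (ℝ × ℝ)} {d : ℝ × ℝ → ℝ × ℝ → ℝ} (h : PMS M d)
include h

lemma FA_spec {x : ℝ × ℝ} (hx : x ∈ M) : FormAt M d x (FA M d x) := by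
  unfold FA
  rw [dif_pos (h.exists_formAt hx)]
  exact (h.exists_formAt hx).choose_spec

lemma FA_pos {x u : ℝ × ℝ} (hx : x ∈ M) (hu : u ≠ 0) : 0 < Bf (FA M d x) u u := by
  have := h.FA_spec hx
  exact Bf_pos this.pos (by rw [this.det]; exact one_pos) hu

/-- continuity of `Bf (FA ·) w u` along lines of direction `w` -/
lemma continuous_Bf_aux {x w y : ℝ × ℝ} {τ : ℝ → ℝ} (hτ : IsParam M d x w τ) (hy : y ∈ M)
    (hoff : wd w (y - x) ≠ 0) :
    Continuous (fun s => Bf (FA M d (x + τ s • w)) w (y - (x + τ s • w))) := by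
  have hw := hτ.dir_ne
  have hwd : ∀ s, wd w (y - (x + τ s • w)) = wd w (y - x) := by
    intro s
    simp only [wd, Prod.fst_sub, Prod.snd_sub, Prod.fst_add, Prod.snd_add, Prod.smul_fst,
      Prod.smul_snd, smul_eq_mul]
    ring
  have hne : ∀ s, y - (x + τ s • w) ≠ 0 := by
    intro s e
    apply hoff
    rw [← hwd s, e]
    simp [wd]
  have hne' : ∀ s, y ≠ x + τ s • w := fun s => sub_ne_zero.mp (hne s)
  have hG : Continuous (fun s => -(cs M d (x + τ s • w) w y)) :=
    continuous_deriv_of_convex (h.convexOn_param hτ hy)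
      (fun s => h.hasDerivAt_cs' hτ s hy (hne' s))
  have hc : Continuous (fun s => cs M d (x + τ s • w) w y) := by
    refine hG.neg.congr fun s => ?_
    simp
  set c : ℝ → ℝ := fun s => cs M d (x + τ s • w) w y with hc_def
  -- relation between `c` and the form
  have key : ∀ s, 0 < 1 - c s ^ 2 ∧ Bf (FA M d (x + τ s • w)) w (y - (x + τ s • w)) =
      |wd w (y - x)| * (c s / Real.sqrt (1 - c s ^ 2)) := by
    intro s
    have hxs := hτ.mem s
    have hF := h.FA_spec hxs
    set A := FA M d (x + τ s • w)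
    set u := y - (x + τ s • w) with hu
    have e1 : x + τ s • w + u = y := by rw [hu]; abel
    have h1 := hF.cs_eq w u hw (hne s) (by rw [e1]; exact hy)
    rw [e1] at h1
    have pw : 0 < Bf A w w := h.FA_pos hxs hw
    have pu : 0 < Bf A u u := h.FA_pos hxs (hne s)
    have lag := Bf_lagrange A w w u
    rw [hF.det, one_mul] at lag
    have lag' : Bf A w w * Bf A u u - Bf A w u ^ 2 = wd w u ^ 2 := by
      have : Bf A u w = Bf A w u := by simp only [Bf]; ring
      rw [this] at lag
      nlinarith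
    have hcs : c s ^ 2 = Bf A w u ^ 2 / (Bf A w w * Bf A u u) := by
      simp only [hc_def, h1, div_pow, mul_pow, Real.sq_sqrt pw.le, Real.sq_sqrt pu.le]
    have h1c : 1 - c s ^ 2 = wd w u ^ 2 / (Bf A w w * Bf A u u) := by
      rw [hcs, ← lag']
      field_simp
    have hwdu : wd w u ≠ 0 := by rw [hu, hwd s]; exact hoff
    refine ⟨by rw [h1c]; positivity, ?_⟩
    rw [h1c, Real.sqrt_div (sq_nonneg _), Real.sqrt_sq_eq_abs, Real.sqrt_mul pw.le]
    have e2 : wd w (y - x) = wd w u := (hwd s).symm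
    rw [e2]
    have e3 : c s = Bf A w u / (Real.sqrt (Bf A w w) * Real.sqrt (Bf A u u)) := h1
    rw [e3]
    have p1 : 0 < Real.sqrt (Bf A w w) := Real.sqrt_pos.mpr pw
    have p2 : 0 < Real.sqrt (Bf A u u) := Real.sqrt_pos.mpr pu
    have p3 : 0 < |wd w u| := abs_pos.mpr hwdu
    field_simp
  have : (fun s => Bf (FA M d (x + τ s • w)) w (y - (x + τ s • w))) =
      fun s => |wd w (y - x)| * (c s / Real.sqrt (1 - c s ^ 2)) := by
    funext s; exact (key s).2
  rw [this]
  refine continuous_const.mul (hc.div ?_ ?_)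
  · exact (continuous_const.sub (hc.pow 2)).sqrt
  · intro s
    exact (Real.sqrt_pos.mpr (key s).1).ne'

/-- The normalised form is continuous along lines. -/
lemma continuous_FA {x w : ℝ × ℝ} {τ : ℝ → ℝ} (hτ : IsParam M d x w τ) :
    Continuous (fun s => FA M d (x + τ s • w)) := by
  have hw := hτ.dir_ne
  have hx := hτ.mem0
  have hw2 : 0 < w.1 ^ 2 + w.2 ^ 2 := by
    rcases eq_or_ne w.1 0 with h1 | h1
    · rcases eq_or_ne w.2 0 with h2 | h2
      · exact absurd (Prod.ext h1 h2) hw
      · positivity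
    · positivity
  -- an orthogonal vector
  set w' : ℝ × ℝ := (-w.2, w.1) with hw'
  obtain ⟨t, ht, hy1⟩ := h.exists_on_ray hx w'
  obtain ⟨r, hr, hy2⟩ := h.exists_on_ray hy1 w
  have hwd1 : wd w (x + t • w' - x) = t * (w.1 ^ 2 + w.2 ^ 2) := by
    simp [wd, hw']; ring
  have hwd2 : wd w (x + t • w' + r • w - x) = t * (w.1 ^ 2 + w.2 ^ 2) := by
    simp [wd, hw']; ring
  have K1 := h.continuous_Bf_aux hτ hy1 (by rw [hwd1]; positivity)
  have K2 := h.continuous_Bf_aux hτ hy2 (by rw [hwd2]; positivity)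
  have hww : Continuous (fun s => Bf (FA M d (x + τ s • w)) w w) := by
    have : (fun s => Bf (FA M d (x + τ s • w)) w w) = fun s =>
        (Bf (FA M d (x + τ s • w)) w (x + t • w' + r • w - (x + τ s • w)) -
          Bf (FA M d (x + τ s • w)) w (x + t • w' - (x + τ s • w))) / r := by
      funext s
      rw [eq_div_iff hr.ne']
      simp only [Bf, Prod.fst_sub, Prod.snd_sub, Prod.fst_add, Prod.snd_add, Prod.smul_fst,
        Prod.smul_snd, smul_eq_mul]
      ring
    rw [this]
    exact (K2.sub K1).div_const _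
  have hww' : Continuous (fun s => Bf (FA M d (x + τ s • w)) w w') := by
    have : (fun s => Bf (FA M d (x + τ s • w)) w w') = fun s =>
        (Bf (FA M d (x + τ s • w)) w (x + t • w' - (x + τ s • w)) +
          τ s * Bf (FA M d (x + τ s • w)) w w) / t := by
      funext s
      rw [eq_div_iff ht.ne']
      simp only [Bf, Prod.fst_sub, Prod.snd_sub, Prod.fst_add, Prod.snd_add, Prod.smul_fst,
        Prod.smul_snd, smul_eq_mul]
      ring
    rw [this]
    exact (K1.add (hτ.cont.mul hww)).div_const _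
  have hw'w' : Continuous (fun s => Bf (FA M d (x + τ s • w)) w' w') := by
    have : (fun s => Bf (FA M d (x + τ s • w)) w' w') = fun s =>
        ((w.1 ^ 2 + w.2 ^ 2) ^ 2 + Bf (FA M d (x + τ s • w)) w w' ^ 2) /
          Bf (FA M d (x + τ s • w)) w w := by
      funext s
      have hF := h.FA_spec (hτ.mem s)
      rw [eq_div_iff (h.FA_pos (hτ.mem s) hw).ne']
      have lag := Bf_lagrange (FA M d (x + τ s • w)) w' w' w
      rw [hF.det, one_mul] at lag
      have e1 : wd w' w = -(w.1 ^ 2 + w.2 ^ 2) := by simp only [wd, hw']; ring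
      have e2 : Bf (FA M d (x + τ s • w)) w' w = Bf (FA M d (x + τ s • w)) w w' := by
        simp only [Bf]; ring
      rw [e1, e2] at lag
      nlinarith
    rw [this]
    exact (continuous_const.add (hww'.pow 2)).div hww (fun s => (h.FA_pos (hτ.mem s) hw).ne')
  -- components
  have c1 : (fun s => (FA M d (x + τ s • w)).1) = fun s =>
      (w.1 ^ 2 * Bf (FA M d (x + τ s • w)) w w - 2 * w.1 * w.2 * Bf (FA M d (x + τ s • w)) w w' +
        w.2 ^ 2 * Bf (FA M d (x + τ s • w)) w' w') / (w.1 ^ 2 + w.2 ^ 2) ^ 2 := by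
    funext s
    rw [eq_div_iff (by positivity)]
    simp only [Bf, hw']; ring
  have c2 : (fun s => (FA M d (x + τ s • w)).2.1) = fun s =>
      (w.1 * w.2 * Bf (FA M d (x + τ s • w)) w w +
        (w.1 ^ 2 - w.2 ^ 2) * Bf (FA M d (x + τ s • w)) w w' -
        w.1 * w.2 * Bf (FA M d (x + τ s • w)) w' w') / (w.1 ^ 2 + w.2 ^ 2) ^ 2 := by
    funext s
    rw [eq_div_iff (by positivity)]
    simp only [Bf, hw']; ring
  have c3 : (fun s => (FA M d (x + τ s • w)).2.2) = fun s =>
      (w.2 ^ 2 * Bf (FA M d (x + τ s • w)) w w + 2 * w.1 * w.2 * Bf (FA M d (x + τ s • w)) w w' +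
        w.1 ^ 2 * Bf (FA M d (x + τ s • w)) w' w') / (w.1 ^ 2 + w.2 ^ 2) ^ 2 := by
    funext s
    rw [eq_div_iff (by positivity)]
    simp only [Bf, hw']; ring
  have C1 : Continuous (fun s => (FA M d (x + τ s • w)).1) := by
    rw [c1]
    exact (((continuous_const.mul hww).sub (continuous_const.mul hww')).add
      (continuous_const.mul hw'w')).div_const _
  have C2 : Continuous (fun s => (FA M d (x + τ s • w)).2.1) := by
    rw [c2]
    exact (((continuous_const.mul hww).add (continuous_const.mul hww')).sub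
      (continuous_const.mul hw'w')).div_const _
  have C3 : Continuous (fun s => (FA M d (x + τ s • w)).2.2) := by
    rw [c3]
    exact (((continuous_const.mul hww).add (continuous_const.mul hww')).add
      (continuous_const.mul hw'w')).div_const _
  exact C1.prodMk (C2.prodMk C3)

end PMS

end Pool.Agent.Work.MP_594704_gt
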