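import Mathlib

set_option autoImplicit false

open Set Filter Topology

namespace Pool.Agent.Work.MP_594704_gt.Day

/-- A closed set of reals which is closed under midpoints in `[a,b]` contains `[a,b]`. -/
lemma icc_subset_of_midpoint {A : Set ℝ} (hA : IsClosed A) {a b : ℝ} (ha : a ∈ A) (hb : b ∈ A)
    (hmid : ∀ s ∈ A, ∀ t ∈ A, a ≤ s → s ≤ t → t ≤ b → (s + t) / 2 ∈ A) : Icc a b ⊆ A := by
  rintro t ⟨hat, htb⟩
  have hc1 : IsCompact (A ∩ Icc a t) := isCompact_Icc.inter_left hA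
  have hc2 : IsCompact (A ∩ Icc t b) := isCompact_Icc.inter_left hA
  have hn1 : (A ∩ Icc a t).Nonempty := ⟨a, ha, le_rfl, hat⟩
  have hn2 : (A ∩ Icc t b).Nonempty := ⟨b, hb, htb, le_rfl⟩
  obtain ⟨α, ⟨hα, hαt⟩, hαm⟩ := hc1.exists_isGreatest hn1
  obtain ⟨β, ⟨hβ, hβt⟩, hβm⟩ := hc2.exists_isLeast hn2
  rcases hαt.2.eq_or_lt with h1 | h1
  · rw [← h1]; exact hα
  rcases hβt.1.eq_or_lt with h2 | h2
  · rw [h2]; exact hβ
  exfalso
  have hm := hmid α hα β hβ hαt.1 (by linarith) hβt.2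
  rcases le_total ((α + β) / 2) t with h3 | h3
  · have := hαm ⟨hm, ⟨by linarith [hαt.1], h3⟩⟩
    linarith
  · have := hβm ⟨hm, ⟨h3, by linarith [hβt.2]⟩⟩
    linarith

/-- Quadratic form with coefficients `a, b, c`. -/
def Q (a b c : ℝ) (p : ℝ × ℝ) : ℝ := a * p.1 ^ 2 + 2 * b * (p.1 * p.2) + c * p.2 ^ 2

lemma continuous_Q (a b c : ℝ) : Continuous (Q a b c) := by
  unfold Q; fun_prop

lemma Q_smul (a b c t : ℝ) (p : ℝ × ℝ) : Q a b c (t • p) = t ^ 2 * Q a b c p := by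
  simp only [Q, Prod.smul_fst, Prod.smul_snd, smul_eq_mul]; ring

lemma Q_add_sub (a b c : ℝ) (p q : ℝ × ℝ) :
    Q a b c (p + q) + Q a b c (p - q) = 2 * Q a b c p + 2 * Q a b c q := by
  simp only [Q, Prod.fst_add, Prod.snd_add, Prod.fst_sub, Prod.snd_sub]; ring

section
variable {N : ℝ × ℝ → ℝ} (hpos : ∀ p, p ≠ 0 → 0 < N p)
  (hh : ∀ (t : ℝ) (p : ℝ × ℝ), N (t • p) = |t| * N p)
  (hsub : ∀ p q, N (p + q) ≤ N p + N q)

include hh in
lemma N_zero : N 0 = 0 := by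
  have := hh 0 0
  simpa using this

include hh hpos in
lemma N_nonneg (p : ℝ × ℝ) : 0 ≤ N p := by
  rcases eq_or_ne p 0 with rfl | h
  · rw [N_zero hh]
  · exact (hpos p h).le

include hh in
lemma N_neg (p : ℝ × ℝ) : N (-p) = N p := by
  have := hh (-1) p
  simpa using this

include hh hsub in
lemma N_abs_sub (p q : ℝ × ℝ) : |N p - N q| ≤ N (p - q) := by
  have h1 := hsub (p - q) q
  have h2 := hsub (q - p) p
  rw [sub_add_cancel] at h1 h2
  have h3 : N (q - p) = N (p - q) := by rw [← N_neg hh, neg_sub]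
  rw [abs_le]; constructor <;> linarith

include hh hsub in
lemma N_le (p : ℝ × ℝ) : N p ≤ |p.1| * N (1, 0) + |p.2| * N (0, 1) := by
  have e : p = p.1 • ((1, 0) : ℝ × ℝ) + p.2 • ((0, 1) : ℝ × ℝ) := by
    ext <;> simp
  calc N p = N (p.1 • ((1, 0) : ℝ × ℝ) + p.2 • ((0, 1) : ℝ × ℝ)) := by rw [← e]
    _ ≤ _ := hsub _ _
    _ = _ := by rw [hh, hh]

include hh hsub in
lemma N_continuous : Continuous N := by
  rw [continuous_iff_continuousAt]
  intro p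
  rw [ContinuousAt, tendsto_iff_dist_tendsto_zero]
  have h1 : Tendsto (fun q : ℝ × ℝ => |(q - p).1| * N (1, 0) + |(q - p).2| * N (0, 1)) (𝓝 p)
      (𝓝 (|(p - p).1| * N (1, 0) + |(p - p).2| * N (0, 1))) := by
    apply Continuous.tendsto
    fun_prop
  simp only [sub_self, Prod.fst_zero, Prod.snd_zero, abs_zero, zero_mul, add_zero] at h1
  refine squeeze_zero (fun q => dist_nonneg) (fun q => ?_) h1
  rw [Real.dist_eq]
  exact (N_abs_sub hh hsub q p).trans (N_le hh hsub _)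

end

/-- The set of quadratic forms above `N ^ 2`. -/
def S (N : ℝ × ℝ → ℝ) : Set (ℝ × ℝ × ℝ) := {t | ∀ p, N p ^ 2 ≤ Q t.1 t.2.1 t.2.2 p}

lemma isClosed_S (N : ℝ × ℝ → ℝ) : IsClosed (S N) := by
  have : S N = ⋂ p, {t : ℝ × ℝ × ℝ | N p ^ 2 ≤ Q t.1 t.2.1 t.2.2 p} := by
    ext t; simp [S]
  rw [this]
  refine isClosed_iInter fun p => isClosed_le continuous_const ?_
  unfold Q; fun_prop

lemma exists_minimal {N : ℝ × ℝ → ℝ} (hh : ∀ (t : ℝ) (p : ℝ × ℝ), N (t • p) = |t| * N p)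
    (hsub : ∀ p q, N (p + q) ≤ N p + N q) (hpos : ∀ p, p ≠ 0 → 0 < N p) :
    ∃ t ∈ S N, ∀ t' ∈ S N, t.1 + t.2.2 ≤ t'.1 + t'.2.2 := by
  obtain ⟨t0, ht0⟩ : (S N).Nonempty := by
    refine ⟨(2 * N (1, 0) ^ 2, 0, 2 * N (0, 1) ^ 2), fun p => ?_⟩
    have h1 := N_le hh hsub p
    have h0 := N_nonneg hpos hh p
    have h2 : N p ^ 2 ≤ (|p.1| * N (1, 0) + |p.2| * N (0, 1)) ^ 2 := pow_le_pow_left₀ h0 h1 2
    simp only [Q]
    nlinarith [sq_nonneg (|p.1| * N (1, 0) - |p.2| * N (0, 1)), sq_abs p.1, sq_abs p.2]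
  set T := t0.1 + t0.2.2 with hT
  set K : Set (ℝ × ℝ × ℝ) := S N ∩ {t | t.1 + t.2.2 ≤ T} with hK
  have hKc : IsCompact K := by
    have hcl : IsClosed K := (isClosed_S N).inter (isClosed_le (by fun_prop) continuous_const)
    have hbox : IsCompact (Icc (0 : ℝ) T ×ˢ (Icc (-T) T ×ˢ Icc (0 : ℝ) T)) :=
      isCompact_Icc.prod (isCompact_Icc.prod isCompact_Icc)
    refine hbox.of_isClosed_subset hcl ?_
    rintro ⟨a, b, c⟩ ⟨h1, h2⟩
    change a + c ≤ T at h2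
    have e1 := h1 (1, 0)
    have e2 := h1 (0, 1)
    have e3 := h1 (1, 1)
    have e4 := h1 (1, -1)
    simp only [Q] at e1 e2 e3 e4
    have f1 := sq_nonneg (N (1, 0))
    have f2 := sq_nonneg (N (0, 1))
    have f3 := sq_nonneg (N (1, 1))
    have f4 := sq_nonneg (N (1, -1))
    refine ⟨⟨?_, ?_⟩, ⟨?_, ?_⟩, ⟨?_, ?_⟩⟩ <;> simp only <;> nlinarith
  have hKn : K.Nonempty := ⟨t0, ht0, le_of_eq hT.symm⟩
  obtain ⟨t, htK, htm⟩ := hKc.exists_isMinOn hKn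
    (f := fun t : ℝ × ℝ × ℝ => t.1 + t.2.2) (by fun_prop)
  refine ⟨t, htK.1, fun t' ht' => ?_⟩
  by_cases h : t'.1 + t'.2.2 ≤ T
  · exact htm ⟨ht', h⟩
  · have h1 : t.1 + t.2.2 ≤ T := htK.2
    linarith

lemma exists_contacts {N : ℝ × ℝ → ℝ} (hh : ∀ (t : ℝ) (p : ℝ × ℝ), N (t • p) = |t| * N p)
    (hsub : ∀ p q, N (p + q) ≤ N p + N q)
    {a b c : ℝ} (hS : ∀ p, N p ^ 2 ≤ Q a b c p)
    (hmin : ∀ t' ∈ S N, a + c ≤ t'.1 + t'.2.2) :
    ∃ p q : ℝ × ℝ, N p ^ 2 = Q a b c p ∧ N q ^ 2 = Q a b c q ∧ p.1 * q.2 - p.2 * q.1 ≠ 0 := by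
  by_contra hcon
  push Not at hcon
  -- all contact points lie on the line of `v`
  obtain ⟨v, hv, hcv⟩ : ∃ v : ℝ × ℝ, v ≠ 0 ∧ ∀ p, N p ^ 2 = Q a b c p →
      v.1 * p.2 - v.2 * p.1 = 0 := by
    by_cases h : ∃ v : ℝ × ℝ, v ≠ 0 ∧ N v ^ 2 = Q a b c v
    · obtain ⟨v, hv, hc⟩ := h
      exact ⟨v, hv, fun p hp => hcon v p hc hp⟩
    · push Not at h
      refine ⟨(1, 0), by simp, fun p hp => ?_⟩
      have : p = 0 := by
        by_contra hp0
        exact h p hp0 hp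
      subst this; simp
  have hv2 : 0 < v.1 ^ 2 + v.2 ^ 2 := by
    rcases eq_or_ne v.1 0 with h1 | h1
    · rcases eq_or_ne v.2 0 with h2 | h2
      · exact absurd (Prod.ext h1 h2) hv
      · positivity
    · positivity
  set r : ℝ × ℝ → ℝ := fun p =>
    (v.1 * p.2 - v.2 * p.1) ^ 2 - 1 / 2 * (v.1 * p.1 + v.2 * p.2) ^ 2 with hr
  have hrc : Continuous r := by rw [hr]; fun_prop
  have hNc := N_continuous hh hsub
  set G : ℝ × ℝ → ℝ := fun p => Q a b c p - N p ^ 2 with hG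
  have hGc : Continuous G := (continuous_Q a b c).sub (hNc.pow 2)
  set S1 : Set (ℝ × ℝ) := {p | p.1 ^ 2 + p.2 ^ 2 = 1} with hS1
  have hS1c : IsCompact S1 := by
    have hcl : IsClosed S1 := isClosed_eq (by fun_prop) continuous_const
    have hbox : IsCompact (Icc (-1 : ℝ) 1 ×ˢ Icc (-1 : ℝ) 1) := isCompact_Icc.prod isCompact_Icc
    refine hbox.of_isClosed_subset hcl ?_
    rintro ⟨x, y⟩ h1
    change x ^ 2 + y ^ 2 = 1 at h1
    refine ⟨⟨?_, ?_⟩, ⟨?_, ?_⟩⟩ <;> simp only <;> nlinarith [sq_nonneg x, sq_nonneg y]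
  set S2 : Set (ℝ × ℝ) := S1 ∩ {p | 0 ≤ r p} with hS2
  have hS2c : IsCompact S2 := hS1c.inter_right (isClosed_le continuous_const hrc)
  obtain ⟨η, hη, hηG⟩ : ∃ η : ℝ, 0 < η ∧ ∀ p ∈ S1, 0 ≤ G p - η * r p := by
    have hGpos : ∀ p ∈ S2, 0 < G p := by
      intro p hp
      have h0 : 0 ≤ G p := by have := hS p; simp only [hG]; linarith
      rcases h0.lt_or_eq with h1 | h1
      · exact h1
      exfalso
      have h2 := hcv p (by simp only [hG] at h1; linarith)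
      have h3 : 0 ≤ r p := hp.2
      have h4 : p.1 ^ 2 + p.2 ^ 2 = 1 := hp.1
      simp only [hr, h2] at h3
      have h5 : v.1 * p.1 + v.2 * p.2 = 0 := by nlinarith [sq_nonneg (v.1 * p.1 + v.2 * p.2)]
      have h6 : (v.1 ^ 2 + v.2 ^ 2) * (p.1 ^ 2 + p.2 ^ 2) = 0 := by
        have : (v.1 ^ 2 + v.2 ^ 2) * (p.1 ^ 2 + p.2 ^ 2) =
          (v.1 * p.2 - v.2 * p.1) ^ 2 + (v.1 * p.1 + v.2 * p.2) ^ 2 := by ring
        rw [this, h2, h5]; ring
      rw [h4, mul_one] at h6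
      exact hv2.ne' h6
    have hrle : ∀ p ∈ S1, r p ≤ v.1 ^ 2 + v.2 ^ 2 := by
      intro p hp
      have h4 : p.1 ^ 2 + p.2 ^ 2 = 1 := hp
      have : (v.1 ^ 2 + v.2 ^ 2) * (p.1 ^ 2 + p.2 ^ 2) =
          (v.1 * p.2 - v.2 * p.1) ^ 2 + (v.1 * p.1 + v.2 * p.2) ^ 2 := by ring
      rw [h4, mul_one] at this
      simp only [hr]
      nlinarith [sq_nonneg (v.1 * p.1 + v.2 * p.2)]
    rcases S2.eq_empty_or_nonempty with hE | hE
    · refine ⟨1, one_pos, fun p hp => ?_⟩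
      have h1 : ¬ 0 ≤ r p := by
        intro h2
        have : p ∈ S2 := ⟨hp, h2⟩
        rw [hE] at this
        exact this
      have h0 : 0 ≤ G p := by have := hS p; simp only [hG]; linarith
      linarith
    · obtain ⟨p0, hp0, hmin0⟩ := hS2c.exists_isMinOn hE hGc.continuousOn
      refine ⟨G p0 / (v.1 ^ 2 + v.2 ^ 2), div_pos (hGpos p0 hp0) hv2, fun p hp => ?_⟩
      have h0 : 0 ≤ G p := by have := hS p; simp only [hG]; linarith
      have hη0 : 0 < G p0 / (v.1 ^ 2 + v.2 ^ 2) := div_pos (hGpos p0 hp0) hv2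
      by_cases h2 : 0 ≤ r p
      · have h3 : G p0 ≤ G p := hmin0 ⟨hp, h2⟩
        have h4 : G p0 / (v.1 ^ 2 + v.2 ^ 2) * r p ≤ G p0 / (v.1 ^ 2 + v.2 ^ 2) * (v.1 ^ 2 + v.2 ^ 2) :=
          mul_le_mul_of_nonneg_left (hrle p hp) hη0.le
        rw [div_mul_cancel₀ _ hv2.ne'] at h4
        linarith
      · push Not at h2
        nlinarith
  -- the perturbed form
  have key : (a - η * (v.2 ^ 2 - 1 / 2 * v.1 ^ 2),
      b - η * (-(v.1 * v.2) - 1 / 2 * (v.1 * v.2)), c - η * (v.1 ^ 2 - 1 / 2 * v.2 ^ 2)) ∈ S N := by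
    intro p
    rcases eq_or_ne p 0 with rfl | hp
    · rw [N_zero hh]; simp [Q]
    have hp2 : 0 < p.1 ^ 2 + p.2 ^ 2 := by
      rcases eq_or_ne p.1 0 with h1 | h1
      · rcases eq_or_ne p.2 0 with h2 | h2
        · exact absurd (Prod.ext h1 h2) hp
        · positivity
      · positivity
    set R := Real.sqrt (p.1 ^ 2 + p.2 ^ 2) with hR
    have hRpos : 0 < R := Real.sqrt_pos.mpr hp2
    have hR2 : R ^ 2 = p.1 ^ 2 + p.2 ^ 2 := Real.sq_sqrt hp2.le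
    have hq : (R⁻¹ • p) ∈ S1 := by
      change (R⁻¹ * p.1) ^ 2 + (R⁻¹ * p.2) ^ 2 = 1
      have : (R⁻¹ * p.1) ^ 2 + (R⁻¹ * p.2) ^ 2 = (p.1 ^ 2 + p.2 ^ 2) / R ^ 2 := by
        field_simp
      rw [this, hR2, div_self hp2.ne']
    have h1 := hηG _ hq
    have h2 : G (R⁻¹ • p) - η * r (R⁻¹ • p) = (R⁻¹) ^ 2 * (G p - η * r p) := by
      simp only [hG, hr, Q_smul, hh, abs_of_pos (inv_pos.mpr hRpos), Prod.smul_fst, Prod.smul_snd,
        smul_eq_mul]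
      ring
    rw [h2] at h1
    have h3 : 0 ≤ G p - η * r p := by
      by_contra h4
      push Not at h4
      have : (R⁻¹) ^ 2 * (G p - η * r p) < 0 := mul_neg_of_pos_of_neg (by positivity) h4
      linarith
    have h4 : Q (a - η * (v.2 ^ 2 - 1 / 2 * v.1 ^ 2))
      (b - η * (-(v.1 * v.2) - 1 / 2 * (v.1 * v.2))) (c - η * (v.1 ^ 2 - 1 / 2 * v.2 ^ 2)) p
        = N p ^ 2 + (G p - η * r p) := by
      simp only [hG, hr, Q]; ring
    change N p ^ 2 ≤ Q (a - η * (v.2 ^ 2 - 1 / 2 * v.1 ^ 2))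
      (b - η * (-(v.1 * v.2) - 1 / 2 * (v.1 * v.2))) (c - η * (v.1 ^ 2 - 1 / 2 * v.2 ^ 2)) p
    rw [h4]; linarith
  have := hmin _ key
  simp only at this
  nlinarith [mul_pos hη hv2]

/-- Day's theorem in the plane. -/
theorem day {N : ℝ × ℝ → ℝ} (hh : ∀ (t : ℝ) (p : ℝ × ℝ), N (t • p) = |t| * N p)
    (hsub : ∀ p q, N (p + q) ≤ N p + N q) (hpos : ∀ p, p ≠ 0 → 0 < N p)
    (hP : ∀ p q, 4 * N p * N q ≤ N (p + q) ^ 2 + N (p - q) ^ 2) :
    ∃ a b c : ℝ, ∀ p : ℝ × ℝ, N p ^ 2 = a * p.1 ^ 2 + 2 * b * (p.1 * p.2) + c * p.2 ^ 2 := by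
  obtain ⟨⟨a, b, c⟩, hS, hmin⟩ := exists_minimal hh hsub hpos
  have hS' : ∀ p, N p ^ 2 ≤ Q a b c p := hS
  obtain ⟨p, q, hp, hq, hpq⟩ := exists_contacts hh hsub hS' hmin
  have hNc := N_continuous hh hsub
  have hQpos : ∀ p, p ≠ 0 → 0 < Q a b c p := fun p hp =>
    lt_of_lt_of_le (by have := hpos p hp; positivity) (hS' p)
  have hNn := N_nonneg hpos hh
  -- closure of the contact set
  have hcl : ∀ p q, N p ^ 2 = Q a b c p → N q ^ 2 = Q a b c q → Q a b c p = Q a b c q →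
      N (p + q) ^ 2 = Q a b c (p + q) ∧ N (p - q) ^ 2 = Q a b c (p - q) := by
    intro p q hp hq he
    have h1 := hP p q
    have h2 : N p = N q := by
      have : N p ^ 2 = N q ^ 2 := by rw [hp, hq, he]
      exact (pow_left_inj₀ (hNn p) (hNn q) two_ne_zero).mp this
    have h3 := Q_add_sub a b c p q
    have h4 := hS' (p + q)
    have h5 := hS' (p - q)
    have h6 : 4 * N p * N q = 4 * Q a b c p := by rw [← h2, ← hp]; ring
    constructor <;> nlinarith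
  have hsm : ∀ (t : ℝ) p, N p ^ 2 = Q a b c p → N (t • p) ^ 2 = Q a b c (t • p) := by
    intro t p hp
    rw [hh, Q_smul, mul_pow, sq_abs, hp]
  have hpne : p ≠ 0 := by rintro rfl; simp at hpq
  have hqne : q ≠ 0 := by rintro rfl; simp at hpq
  -- normalise
  have hunit : ∀ p, p ≠ 0 → Q a b c ((Real.sqrt (Q a b c p))⁻¹ • p) = 1 := by
    intro p hp
    have h1 := hQpos p hp
    rw [Q_smul, inv_pow, Real.sq_sqrt h1.le, inv_mul_cancel₀ h1.ne']
  set p1 := (Real.sqrt (Q a b c p))⁻¹ • p with hp1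
  set q1 := (Real.sqrt (Q a b c q))⁻¹ • q with hq1
  have hp1Q : Q a b c p1 = 1 := hunit p hpne
  have hq1Q : Q a b c q1 = 1 := hunit q hqne
  have hp1c : N p1 ^ 2 = Q a b c p1 := hsm _ _ hp
  have hq1c : N q1 ^ 2 = Q a b c q1 := hsm _ _ hq
  have hsp : (Real.sqrt (Q a b c p))⁻¹ ≠ 0 :=
    inv_ne_zero (Real.sqrt_pos.mpr (hQpos p hpne)).ne'
  have hsq : (Real.sqrt (Q a b c q))⁻¹ ≠ 0 :=
    inv_ne_zero (Real.sqrt_pos.mpr (hQpos q hqne)).ne'
  have hpq1 : p1.1 * q1.2 - p1.2 * q1.1 ≠ 0 := by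
    have : p1.1 * q1.2 - p1.2 * q1.1 =
        (Real.sqrt (Q a b c p))⁻¹ * (Real.sqrt (Q a b c q))⁻¹ * (p.1 * q.2 - p.2 * q.1) := by
      simp only [hp1, hq1, Prod.smul_fst, Prod.smul_snd, smul_eq_mul]; ring
    rw [this]
    exact mul_ne_zero (mul_ne_zero hsp hsq) hpq
  obtain ⟨hf1c, hf2c⟩ := hcl p1 q1 hp1c hq1c (by rw [hp1Q, hq1Q])
  set f1 := p1 + q1 with hf1
  set f2 := p1 - q1 with hf2
  have hf12 : f1.1 * f2.2 - f1.2 * f2.1 ≠ 0 := by
    have : f1.1 * f2.2 - f1.2 * f2.1 = -2 * (p1.1 * q1.2 - p1.2 * q1.1) := by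
      simp only [hf1, hf2, Prod.fst_add, Prod.snd_add, Prod.fst_sub, Prod.snd_sub]; ring
    rw [this]
    exact mul_ne_zero (by norm_num) hpq1
  have hf1ne : f1 ≠ 0 := by intro h0; rw [h0] at hf12; simp at hf12
  have hf2ne : f2 ≠ 0 := by intro h0; rw [h0] at hf12; simp at hf12
  have horth : a * (f1.1 * f2.1) + b * (f1.1 * f2.2 + f1.2 * f2.1) + c * (f1.2 * f2.2) = 0 := by
    have : a * (f1.1 * f2.1) + b * (f1.1 * f2.2 + f1.2 * f2.1) + c * (f1.2 * f2.2) =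
        Q a b c p1 - Q a b c q1 := by
      simp only [hf1, hf2, Prod.fst_add, Prod.snd_add, Prod.fst_sub, Prod.snd_sub, Q]; ring
    rw [this, hp1Q, hq1Q, sub_self]
  set e := (Real.sqrt (Q a b c f1))⁻¹ • f1 with he
  set f := (Real.sqrt (Q a b c f2))⁻¹ • f2 with hf
  have heQ : Q a b c e = 1 := hunit f1 hf1ne
  have hfQ : Q a b c f = 1 := hunit f2 hf2ne
  have hec : N e ^ 2 = Q a b c e := hsm _ _ hf1c
  have hfc : N f ^ 2 = Q a b c f := hsm _ _ hf2c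
  have hef : a * (e.1 * f.1) + b * (e.1 * f.2 + e.2 * f.1) + c * (e.2 * f.2) = 0 := by
    have : a * (e.1 * f.1) + b * (e.1 * f.2 + e.2 * f.1) + c * (e.2 * f.2) =
        (Real.sqrt (Q a b c f1))⁻¹ * (Real.sqrt (Q a b c f2))⁻¹ *
        (a * (f1.1 * f2.1) + b * (f1.1 * f2.2 + f1.2 * f2.1) + c * (f1.2 * f2.2)) := by
      simp only [he, hf, Prod.smul_fst, Prod.smul_snd, smul_eq_mul]; ring
    rw [this, horth, mul_zero]
  have hefw : e.1 * f.2 - e.2 * f.1 ≠ 0 := by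
    have : e.1 * f.2 - e.2 * f.1 =
        (Real.sqrt (Q a b c f1))⁻¹ * (Real.sqrt (Q a b c f2))⁻¹ * (f1.1 * f2.2 - f1.2 * f2.1) := by
      simp only [he, hf, Prod.smul_fst, Prod.smul_snd, smul_eq_mul]; ring
    rw [this]
    exact mul_ne_zero (mul_ne_zero (inv_ne_zero (Real.sqrt_pos.mpr (hQpos _ hf1ne)).ne')
      (inv_ne_zero (Real.sqrt_pos.mpr (hQpos _ hf2ne)).ne')) hf12
  -- the circle
  set g : ℝ → ℝ × ℝ := fun θ => Real.cos θ • e + Real.sin θ • f with hg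
  have hgQ : ∀ θ, Q a b c (g θ) = 1 := by
    intro θ
    have h1 : Q a b c (g θ) = Real.cos θ ^ 2 * Q a b c e + Real.sin θ ^ 2 * Q a b c f +
        2 * (Real.cos θ * Real.sin θ) *
          (a * (e.1 * f.1) + b * (e.1 * f.2 + e.2 * f.1) + c * (e.2 * f.2)) := by
      simp only [hg, Q, Prod.fst_add, Prod.snd_add, Prod.smul_fst, Prod.smul_snd, smul_eq_mul]
      ring
    rw [h1, heQ, hfQ, hef]
    have := Real.cos_sq_add_sin_sq θ
    linarith
  have hgc : Continuous g := by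
    simp only [hg]
    exact (Real.continuous_cos.smul continuous_const).add (Real.continuous_sin.smul continuous_const)
  set A : Set ℝ := {θ | N (g θ) ^ 2 = Q a b c (g θ)} with hA
  have hAc : IsClosed A :=
    isClosed_eq ((hNc.comp hgc).pow 2) ((continuous_Q a b c).comp hgc)
  have hmidA : ∀ s ∈ A, ∀ t ∈ A, Real.cos ((s - t) / 2) ≠ 0 → (s + t) / 2 ∈ A := by
    intro s hs t ht hcos
    have h1 := (hcl (g s) (g t) hs ht (by rw [hgQ, hgQ])).1
    have h2 : g s + g t = (2 * Real.cos ((s - t) / 2)) • g ((s + t) / 2) := by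
      have c1 := Real.cos_add_cos s t
      have c2 := Real.sin_add_sin s t
      have : g s + g t = (Real.cos s + Real.cos t) • e + (Real.sin s + Real.sin t) • f := by
        simp only [hg]; module
      rw [this, c1, c2]
      simp only [hg]
      module
    rw [h2] at h1
    have h3 := hsm (2 * Real.cos ((s - t) / 2))⁻¹ _ h1
    rw [smul_smul, inv_mul_cancel₀ (mul_ne_zero two_ne_zero hcos), one_smul] at h3
    exact h3
  have h0A : (0 : ℝ) ∈ A := by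
    change N (g 0) ^ 2 = Q a b c (g 0)
    have : g 0 = e := by simp [hg]
    rw [this]; exact hec
  have h1A : Real.pi / 2 ∈ A := by
    change N (g (Real.pi / 2)) ^ 2 = Q a b c (g (Real.pi / 2))
    have : g (Real.pi / 2) = f := by simp [hg]
    rw [this]; exact hfc
  have hgpi : ∀ θ, g (θ + Real.pi) = (-1 : ℝ) • g θ := by
    intro θ
    simp only [hg, Real.cos_add_pi, Real.sin_add_pi]
    module
  have hpiA : ∀ θ, θ ∈ A → θ + Real.pi ∈ A := by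
    intro θ hθ
    change N (g (θ + Real.pi)) ^ 2 = Q a b c (g (θ + Real.pi))
    rw [hgpi]
    exact hsm _ _ hθ
  have hpiA' : ∀ θ, θ + Real.pi ∈ A → θ ∈ A := by
    intro θ hθ
    have h1 : N (g (θ + Real.pi)) ^ 2 = Q a b c (g (θ + Real.pi)) := hθ
    have h2 := hsm (-1) _ h1
    rw [hgpi, smul_smul] at h2
    norm_num at h2
    exact h2
  have hcospos : ∀ s t : ℝ, s ≤ t → t - s ≤ Real.pi / 2 → Real.cos ((s - t) / 2) ≠ 0 := by
    intro s t hst hts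
    have hpi := Real.pi_pos
    exact (Real.cos_pos_of_mem_Ioo ⟨by linarith, by linarith⟩).ne'
  have hI1 : Icc 0 (Real.pi / 2) ⊆ A := icc_subset_of_midpoint hAc h0A h1A
    (fun s hs t ht h1 h2 h3 => hmidA s hs t ht (hcospos s t h2 (by linarith)))
  have h2A : Real.pi ∈ A := by have := hpiA 0 h0A; rwa [zero_add] at this
  have hI2 : Icc (Real.pi / 2) Real.pi ⊆ A := icc_subset_of_midpoint hAc h1A h2A
    (fun s hs t ht h1 h2 h3 => hmidA s hs t ht (hcospos s t h2 (by linarith)))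
  have hI : ∀ θ ∈ Icc 0 Real.pi, θ ∈ A := by
    rintro θ ⟨h1, h2⟩
    rcases le_total θ (Real.pi / 2) with h3 | h3
    · exact hI1 ⟨h1, h3⟩
    · exact hI2 ⟨h3, h2⟩
  refine ⟨a, b, c, fun u => ?_⟩
  change N u ^ 2 = Q a b c u
  -- coordinates of `u`
  obtain ⟨x, y, hxy⟩ : ∃ x y : ℝ, u = x • e + y • f := by
    refine ⟨(u.1 * f.2 - u.2 * f.1) / (e.1 * f.2 - e.2 * f.1),
      (e.1 * u.2 - e.2 * u.1) / (e.1 * f.2 - e.2 * f.1), ?_⟩
    ext
    · simp only [Prod.fst_add, Prod.smul_fst, smul_eq_mul]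
      rw [div_mul_eq_mul_div, div_mul_eq_mul_div, ← add_div, eq_div_iff hefw]
      ring
    · simp only [Prod.snd_add, Prod.smul_snd, smul_eq_mul]
      rw [div_mul_eq_mul_div, div_mul_eq_mul_div, ← add_div, eq_div_iff hefw]
      ring
  set z : ℂ := ⟨x, y⟩ with hz
  have hu : u = ‖z‖ • g (Complex.arg z) := by
    rw [hxy]
    simp only [hg, smul_add, smul_smul]
    rw [Complex.norm_mul_cos_arg, Complex.norm_mul_sin_arg]
  rw [hu]
  apply hsm
  have hθ1 := Complex.neg_pi_lt_arg z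
  have hθ2 := Complex.arg_le_pi z
  rcases le_total 0 (Complex.arg z) with h1 | h1
  · exact hI _ ⟨h1, hθ2⟩
  · exact hpiA' _ (hI _ ⟨by linarith, by linarith⟩)

end Pool.Agent.Work.MP_594704_gt.Day
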