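import Pool.Agent.Work.MP_594704_gt.Proj

set_option autoImplicit false

open Set Filter Topology

namespace Pool.Agent.Work.MP_594704_gt

/-- The symmetric bilinear form with coefficients `A`. -/
def Bf (A : ℝ × ℝ × ℝ) (u v : ℝ × ℝ) : ℝ :=
  A.1 * (u.1 * v.1) + A.2.1 * (u.1 * v.2 + u.2 * v.1) + A.2.2 * (u.2 * v.2)

lemma Bf_pos {A : ℝ × ℝ × ℝ} (hA : 0 < A.1) (hD : 0 < A.1 * A.2.2 - A.2.1 ^ 2) {u : ℝ × ℝ}
    (hu : u ≠ 0) : 0 < Bf A u u := by
  have e : A.1 * Bf A u u = (A.1 * u.1 + A.2.1 * u.2) ^ 2 + (A.1 * A.2.2 - A.2.1 ^ 2) * u.2 ^ 2 := by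
    simp only [Bf]; ring
  have h1 : 0 < A.1 * Bf A u u := by
    rw [e]
    rcases eq_or_ne u.2 0 with h2 | h2
    · have h3 : u.1 ≠ 0 := fun h3 => hu (Prod.ext h3 h2)
      rw [h2]
      have : 0 < (A.1 * u.1) ^ 2 := by positivity
      nlinarith
    · have : 0 < (A.1 * A.2.2 - A.2.1 ^ 2) * u.2 ^ 2 := by positivity
      nlinarith [sq_nonneg (A.1 * u.1 + A.2.1 * u.2)]
  exact (mul_pos_iff_of_pos_left hA).mp h1

/-- The cosines at `x` are given by the form `A` of determinant one. -/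
structure FormAt (M : Set (ℝ × ℝ)) (d : ℝ × ℝ → ℝ × ℝ → ℝ) (x : ℝ × ℝ) (A : ℝ × ℝ × ℝ) :
    Prop where
  pos : 0 < A.1
  det : A.1 * A.2.2 - A.2.1 ^ 2 = 1
  cs_eq : ∀ w u : ℝ × ℝ, w ≠ 0 → u ≠ 0 → x + u ∈ M →
    cs M d x w (x + u) = Bf A w u / (Real.sqrt (Bf A w w) * Real.sqrt (Bf A u u))

namespace PMS

variable {M : Set (ℝ × ℝ)} {d : ℝ × ℝ → ℝ × ℝ → ℝ} (h : PMS M d)
include h

lemma hasC_neg {x v p : ℝ × ℝ} (hx : x ∈ M) (hv : v ≠ 0) (hp : HasC M d x v p) :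
    HasC M d x (-v) (-p) := by
  intro y hy hyx
  rw [h.cs_neg_dir hx hv hy hyx, hp y hy hyx, LL_neg]

lemma hasC_smul {x v p : ℝ × ℝ} {r : ℝ} (hr : 0 < r) (hx : x ∈ M) (hv : v ≠ 0)
    (hp : HasC M d x v p) : HasC M d x (r • v) p := by
  intro y hy hyx
  rw [h.cs_smul_dir hr hx hv hy hyx, hp y hy hyx]

/-- The slopes of the unit tangent vectors are an increasing affine function of the slope. -/
lemma exists_slopes {x : ℝ × ℝ} (hx : x ∈ M) : ∃ κ η : ℝ, 0 < κ ∧ ∀ m : ℝ, ∃ c : ℝ, 0 < c ∧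
    HasC M d x (1, m) (c, c * (κ * m + η)) := by
  choose p hp hp0 using fun m : ℝ => h.exists_hasC_pos hx (v := (1, m)) one_pos
  set ψ : ℝ → ℝ := fun m => (p m).2 / (p m).1 with hψ
  have hmono : StrictMono ψ := by
    intro m m' hmm
    obtain ⟨A, B, hA, hB, hAB⟩ := h.wedge (v1 := (1, m)) (v2 := (0, 1)) hx (fun s t e => by
      have h1 := congrArg Prod.fst e
      have h2 := congrArg Prod.snd e
      simp at h1 h2
      subst h1
      simp at h2
      exact ⟨rfl, h2⟩) (a := 1) (b := m' - m) one_pos (by linarith)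
    have e : (1 : ℝ) • ((1, m) : ℝ × ℝ) + (m' - m) • ((0, 1) : ℝ × ℝ) = (1, m') := by
      ext <;> simp
    rw [e] at hAB
    have e2 : p m' = A • p m + B • ((0, 1) : ℝ × ℝ) := by
      apply h.LL_inj hx
      intro y hy hyx
      rw [← hp m' y hy hyx, hAB y hy hyx, hp m y hy hyx, LL_add, LL_smul, LL_smul]
      congr 1
      simp [LL]
    simp only [hψ]
    rw [e2]
    have h0 := hp0 m
    simp only [Prod.fst_add, Prod.snd_add, Prod.smul_fst, Prod.smul_snd, smul_eq_mul, mul_zero,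
      mul_one, add_zero]
    rw [div_lt_div_iff₀ h0 (by positivity)]
    nlinarith [mul_pos hB h0]
  obtain ⟨κ, η, hκη⟩ := affine_of_midpoint hmono.monotone (fun a b hab =>
    h.slope_mid hx hab (hp a) (hp b) (hp _) (hp0 a) (hp0 b) (hp0 _))
  have hκ : 0 < κ := by
    have := hmono (zero_lt_one' ℝ)
    rw [hκη, hκη] at this
    linarith
  refine ⟨κ, η, hκ, fun m => ⟨(p m).1, hp0 m, ?_⟩⟩
  have : ((p m).1, (p m).1 * (κ * m + η)) = p m := by
    rw [← hκη m]
    ext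
    · rfl
    · simp only [hψ]
      have := hp0 m
      field_simp
  rw [this]
  exact hp m

lemma exists_formAt {x : ℝ × ℝ} (hx : x ∈ M) : ∃ A : ℝ × ℝ × ℝ, FormAt M d x A := by
  obtain ⟨b, hb1, hb⟩ := h.exists_form hx
  obtain ⟨κ, η, hκ, hsl⟩ := h.exists_slopes hx
  set S : ℝ × ℝ → ℝ × ℝ := fun v => (v.1, κ * v.2 + η * v.1) with hS
  have hSne : ∀ v, v ≠ 0 → S v ≠ 0 := by
    intro v hv e
    have h1 := congrArg Prod.fst e
    have h2 := congrArg Prod.snd e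
    simp only [hS, Prod.fst_zero, Prod.snd_zero] at h1 h2
    rw [h1, mul_zero, add_zero] at h2
    rcases mul_eq_zero.mp h2 with h3 | h3
    · exact hκ.ne' h3
    · exact hv (Prod.ext h1 h3)
  have hpos : ∀ v : ℝ × ℝ, 0 < v.1 → ∃ c : ℝ, 0 < c ∧ HasC M d x v (c • S v) := by
    intro v hv
    obtain ⟨c, hc, hcc⟩ := hsl (v.2 / v.1)
    have := h.hasC_smul hv hx (slope_ne _) hcc
    refine ⟨c / v.1, by positivity, ?_⟩
    have e1 : v.1 • ((1, v.2 / v.1) : ℝ × ℝ) = v := by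
      ext
      · simp
      · simp; field_simp
    have e2 : (c / v.1) • S v = (c, c * (κ * (v.2 / v.1) + η)) := by
      ext
      · simp only [hS, Prod.smul_mk, smul_eq_mul]; field_simp
      · simp only [hS, Prod.smul_mk, smul_eq_mul]; field_simp
    rw [e1] at this
    rw [e2]; exact this
  have hpos2 : ∀ v : ℝ × ℝ, v.1 = 0 → 0 < v.2 → ∃ c : ℝ, 0 < c ∧ HasC M d x v (c • S v) := by
    intro v hv1 hv2
    have := h.hasC_smul hv2 hx e2_ne (hasC_e2)
    refine ⟨1 / (κ * v.2), by positivity, ?_⟩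
    have e1 : v.2 • ((0, 1) : ℝ × ℝ) = v := by
      ext
      · simp [hv1]
      · simp
    have e2 : (1 / (κ * v.2)) • S v = (0, 1) := by
      ext
      · simp [hS, hv1]
      · simp only [hS, hv1, Prod.smul_mk, smul_eq_mul]; field_simp; ring
    rw [e1] at this
    rw [e2]; exact this
  have hneg : ∀ v : ℝ × ℝ, v ≠ 0 → (∃ c : ℝ, 0 < c ∧ HasC M d x v (c • S v)) →
      ∃ c : ℝ, 0 < c ∧ HasC M d x (-v) (c • S (-v)) := by
    rintro v hv ⟨c, hc, hcc⟩
    refine ⟨c, hc, ?_⟩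
    have e : c • S (-v) = -(c • S v) := by
      ext
      · simp [hS]
      · simp only [hS, Prod.smul_mk, Prod.fst_neg, Prod.snd_neg, smul_eq_mul, Prod.neg_mk]; ring
    rw [e]
    exact h.hasC_neg hx hv hcc
  have hall : ∀ v : ℝ × ℝ, v ≠ 0 → ∃ c : ℝ, 0 < c ∧ HasC M d x v (c • S v) := by
    intro v hv
    rcases lt_trichotomy v.1 0 with h1 | h1 | h1
    · have := hneg (-v) (neg_ne_zero.mpr hv) (hpos (-v) (by simpa using h1))
      rwa [neg_neg] at this
    · rcases lt_trichotomy v.2 0 with h2 | h2 | h2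
      · have := hneg (-v) (neg_ne_zero.mpr hv) (hpos2 (-v) (by simpa using h1) (by simpa using h2))
        rwa [neg_neg] at this
      · exact absurd (Prod.ext h1 h2) hv
      · exact hpos2 v h1 h2
    · exact hpos v h1
  -- the normalised form
  have hb' : 0 < 1 - b ^ 2 := by linarith
  have hD0 : 0 < κ * Real.sqrt (1 - b ^ 2) := mul_pos hκ (Real.sqrt_pos.mpr hb')
  set D := κ * Real.sqrt (1 - b ^ 2) with hD
  have hD2 : D ^ 2 = κ ^ 2 * (1 - b ^ 2) := by
    rw [hD, mul_pow, Real.sq_sqrt hb'.le]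
  set A : ℝ × ℝ × ℝ := ((1 + 2 * b * η + η ^ 2) / D, (b * κ + κ * η) / D, κ ^ 2 / D) with hA
  have hBf : ∀ u v : ℝ × ℝ, Bf A u v =
      ((S u).1 * (S v).1 + b * ((S u).1 * (S v).2 + (S u).2 * (S v).1) + (S u).2 * (S v).2) / D := by
    intro u v
    simp only [Bf, hA, hS]
    field_simp
    ring
  have hA1 : 0 < A.1 := by
    simp only [hA]
    apply div_pos _ hD0
    nlinarith [sq_nonneg (b + η)]
  have hdet : A.1 * A.2.2 - A.2.1 ^ 2 = 1 := by
    simp only [hA]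
    have : (1 + 2 * b * η + η ^ 2) / D * (κ ^ 2 / D) - ((b * κ + κ * η) / D) ^ 2 =
        (κ ^ 2 * (1 - b ^ 2)) / D ^ 2 := by
      field_simp
      ring
    rw [this, ← hD2, div_self (by positivity)]
  refine ⟨A, hA1, hdet, fun w u hw hu hxu => ?_⟩
  obtain ⟨cw, hcw, Hw⟩ := hall w hw
  obtain ⟨cu, hcu, Hu⟩ := hall u hu
  have norm : ∀ v : ℝ × ℝ, v ≠ 0 → ∀ c : ℝ, 0 < c → HasC M d x v (c • S v) →
      c * (Real.sqrt (Bf A v v) * Real.sqrt D) = 1 := by
    intro v hv c hc Hv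
    have h1 := h.NN_hasC hx hv Hv
    have h2 := hb (c • S v)
    rw [h1] at h2
    have h3 : Bf A v v * D = (S v).1 ^ 2 + 2 * b * ((S v).1 * (S v).2) + (S v).2 ^ 2 := by
      rw [hBf, div_mul_cancel₀ _ hD0.ne']; ring
    have h4 : c ^ 2 * (Bf A v v * D) = 1 := by
      rw [h3]
      simp only [Prod.smul_fst, Prod.smul_snd, smul_eq_mul] at h2
      nlinarith
    have h5 : 0 ≤ Bf A v v := by
      by_contra h6
      push Not at h6
      have : c ^ 2 * (Bf A v v * D) < 0 :=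
        mul_neg_of_pos_of_neg (by positivity) (mul_neg_of_neg_of_pos h6 hD0)
      linarith
    have h6 : (c * (Real.sqrt (Bf A v v) * Real.sqrt D)) ^ 2 = 1 := by
      rw [mul_pow, mul_pow, Real.sq_sqrt h5, Real.sq_sqrt hD0.le]
      exact h4
    have h7 : 0 ≤ c * (Real.sqrt (Bf A v v) * Real.sqrt D) := by positivity
    nlinarith
  have nw := norm w hw cw hcw Hw
  have nu := norm u hu cu hcu Hu
  have hxu' : x + (1 : ℝ) • u ∈ M := by rwa [one_smul]
  have h1 := h.LL_ray hx hu Hu hb one_pos hxu' (cw • S w)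
  have hne : x + (1 : ℝ) • u ≠ x := ne_of_smul one_ne_zero hu
  rw [← Hw _ hxu' hne, one_smul] at h1
  rw [h1]
  have h2 : (cw • S w).1 * (cu • S u).1 + b * ((cw • S w).1 * (cu • S u).2 +
      (cw • S w).2 * (cu • S u).1) + (cw • S w).2 * (cu • S u).2 = cw * cu * (Bf A w u * D) := by
    rw [hBf, div_mul_cancel₀ _ hD0.ne']
    simp only [Prod.smul_fst, Prod.smul_snd, smul_eq_mul]; ring
  rw [h2]
  have hw0 : 0 < Real.sqrt (Bf A w w) := by
    apply Real.sqrt_pos.mpr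
    exact Bf_pos hA1 (by rw [hdet]; exact one_pos) hw
  have hu0 : 0 < Real.sqrt (Bf A u u) := by
    apply Real.sqrt_pos.mpr
    exact Bf_pos hA1 (by rw [hdet]; exact one_pos) hu
  have hsD : 0 < Real.sqrt D := Real.sqrt_pos.mpr hD0
  rw [eq_div_iff (by positivity)]
  have h3 : Real.sqrt D * Real.sqrt D = D := Real.mul_self_sqrt hD0.le
  calc cw * cu * (Bf A w u * D) * (Real.sqrt (Bf A w w) * Real.sqrt (Bf A u u))
      = Bf A w u * (cw * (Real.sqrt (Bf A w w) * Real.sqrt D)) *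
          (cu * (Real.sqrt (Bf A u u) * Real.sqrt D)) * (D / (Real.sqrt D * Real.sqrt D)) := by
        field_simp
    _ = Bf A w u := by rw [nw, nu, h3, div_self hD0.ne']; ring

end PMS

end Pool.Agent.Work.MP_594704_gt
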