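import Pool.Agent.Work.MP_594704_gt.Plane

set_option autoImplicit false

open Set Filter Topology

namespace Pool.Agent.Work.MP_594704_gt

/-- A monotone solution of Jensen's equation is affine. -/
lemma affine_of_midpoint {ψ : ℝ → ℝ} (hmono : Monotone ψ)
    (hmid : ∀ a b, a < b → ψ ((a + b) / 2) = (ψ a + ψ b) / 2) :
    ∃ κ η : ℝ, ∀ m, ψ m = κ * m + η := by
  have hmid' : ∀ a b, ψ ((a + b) / 2) = (ψ a + ψ b) / 2 := by
    intro a b
    rcases lt_trichotomy a b with h | h | h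
    · exact hmid a b h
    · subst h
      rw [add_self_div_two, add_self_div_two]
    · rw [add_comm a b, hmid b a h, add_comm]
  have hadd : ∀ a b, (ψ (a + b) - ψ 0) = (ψ a - ψ 0) + (ψ b - ψ 0) := by
    intro a b
    have h1 := hmid' (a + b) 0
    have h2 := hmid' a b
    rw [add_zero] at h1
    rw [h1] at h2
    linarith
  set g : ℝ →+ ℝ := AddMonoidHom.mk' (fun m => ψ m - ψ 0) hadd with hg
  have hgm : Measurable g := by
    have : Monotone (fun m => ψ m - ψ 0) := fun a b hab => by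
      have := hmono hab
      simpa using this
    exact this.measurable
  have hgc : Continuous g := MeasureTheory.Measure.AddMonoidHom.continuous_of_measurable g hgm
  refine ⟨g 1, ψ 0, fun m => ?_⟩
  have h1 := map_real_smul g hgc m 1
  rw [smul_eq_mul, mul_one, smul_eq_mul] at h1
  have h2 : g m = ψ m - ψ 0 := rfl
  linarith

namespace Tan

variable {M : Set (ℝ × ℝ)} {d : ℝ × ℝ → ℝ × ℝ → ℝ} {U : Ultrafilter ℝ} {x : ℝ × ℝ}

lemma on_ray (h : PMS M d) (hU : (U : Filter ℝ) ≤ 𝓝[>] 0) {z : ℝ → ℝ × ℝ} {g : ℝ × ℝ → ℝ}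
    (hz : Tan U M d x z g) {w : ℝ × ℝ} {τ : ℝ → ℝ} (hτ : IsParam M d x w τ) {s : ℝ → ℝ}
    (hs : ∀ᶠ r in (U : Filter ℝ), z r = x + τ (s r) • w ∧ 0 ≤ s r) :
    ∃ ρ : ℝ, 0 ≤ ρ ∧ ∀ y ∈ M, y ≠ x → g y = ρ * cs M d x w y := by
  obtain ⟨C, hC⟩ := hz.bdd
  have hpos := pos_of_le hU
  obtain ⟨ρ, hρ0, -, hρ⟩ := ultra_lim (U := U) (f := fun r => s r / r) (a := 0) (b := C) (by
    filter_upwards [hpos, hC, hs] with r hr hc h1
    refine ⟨div_nonneg h1.2 hr.le, ?_⟩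
    rw [div_le_iff₀ hr]
    have := hc.2
    rw [h1.1, hτ.dist0, abs_of_nonneg h1.2] at this
    exact this)
  refine ⟨ρ, hρ0, fun y hy hyx => ?_⟩
  have T := (ray h hU hτ hρ).congr_fam (z' := z) (by
    filter_upwards [hs] with r h1 using h1.1.symm)
  exact hz.unique T hy hyx

end Tan

/-- `p` are the coordinates of the unit tangent vector in direction `v` at `x`. -/
def HasC (M : Set (ℝ × ℝ)) (d : ℝ × ℝ → ℝ × ℝ → ℝ) (x v p : ℝ × ℝ) : Prop :=
  ∀ y ∈ M, y ≠ x → cs M d x v y = LL M d x p y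

namespace PMS

variable {M : Set (ℝ × ℝ)} {d : ℝ × ℝ → ℝ × ℝ → ℝ} (h : PMS M d)
include h

lemma LL_inj {x p q : ℝ × ℝ} (hx : x ∈ M) (he : ∀ y ∈ M, y ≠ x → LL M d x p y = LL M d x q y) :
    p = q := by
  by_contra hne
  have h1 := h.NN_pos hx (p - q) (sub_ne_zero.mpr hne)
  obtain ⟨y0, hy0, hy0x, e0, -⟩ := h.NN_spec hx (p - q)
  rw [e0, LL_sub, he y0 hy0 hy0x, sub_self] at h1
  exact lt_irrefl _ h1

omit h in
lemma hasC_e2 {x : ℝ × ℝ} : HasC M d x (0, 1) (0, 1) := by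
  intro y _ _
  simp [LL]

lemma exists_hasC_pos {x v : ℝ × ℝ} (hx : x ∈ M) (hv : 0 < v.1) :
    ∃ p : ℝ × ℝ, HasC M d x v p ∧ 0 < p.1 := by
  rcases lt_trichotomy v.2 0 with h2 | h2 | h2
  · obtain ⟨A, B, hA, hB, hAB⟩ := h.wedge (v1 := (1, 0)) (v2 := -(0, 1)) hx (fun s t e => by
      have := lin12 s (-t) (by rw [← e]; module)
      exact ⟨this.1, by linarith [this.2]⟩) hv (neg_pos.mpr h2)
    refine ⟨(A, -B), fun y hy hyx => ?_, hA⟩
    have e : v = v.1 • ((1, 0) : ℝ × ℝ) + (-v.2) • (-(0, 1) : ℝ × ℝ) := by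
      ext <;> simp
    rw [e, hAB y hy hyx, h.cs_neg_dir hx e2_ne hy hyx]
    simp only [LL]; ring
  · refine ⟨(1, 0), fun y hy hyx => ?_, one_pos⟩
    have e : v = v.1 • ((1, 0) : ℝ × ℝ) := by
      ext <;> simp [h2]
    rw [e, h.cs_smul_dir hv hx e1_ne hy hyx]
    simp [LL]
  · obtain ⟨A, B, hA, hB, hAB⟩ := h.wedge (v1 := (1, 0)) (v2 := (0, 1)) hx lin12 hv h2
    refine ⟨(A, B), fun y hy hyx => ?_, hA⟩
    have e : v = v.1 • ((1, 0) : ℝ × ℝ) + v.2 • ((0, 1) : ℝ × ℝ) := by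
      ext <;> simp
    rw [e, hAB y hy hyx]
    simp only [LL]

lemma NN_hasC {x v p : ℝ × ℝ} (hx : x ∈ M) (hv : v ≠ 0) (hp : HasC M d x v p) :
    NN M d x p = 1 := by
  obtain ⟨y0, hy0, hy0x, e0, h0⟩ := h.NN_spec hx p
  obtain ⟨t1, ht1, hy1⟩ := h.exists_on_ray hx v
  apply le_antisymm
  · rw [e0, ← hp y0 hy0 hy0x]
    exact h.cs_le_one hx hv hy0 hy0x
  · have := h0 _ hy1 (ne_of_smul ht1.ne' hv)
    rw [← hp _ hy1 (ne_of_smul ht1.ne' hv), h.cs_self ht1 hx hv hy1, abs_one] at this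
    exact this

/-- The functional given by a point on the ray of `v` is the scalar product with the unit vector
of `v`. -/
lemma LL_ray {x v p : ℝ × ℝ} {b : ℝ} (hx : x ∈ M) (hv : v ≠ 0) (hp : HasC M d x v p)
    (hb : ∀ p : ℝ × ℝ, NN M d x p ^ 2 = p.1 ^ 2 + 2 * b * (p.1 * p.2) + p.2 ^ 2)
    {t : ℝ} (ht : 0 < t) (hy : x + t • v ∈ M) (q : ℝ × ℝ) :
    LL M d x q (x + t • v) = q.1 * p.1 + b * (q.1 * p.2 + q.2 * p.1) + q.2 * p.2 := by
  have hne := ne_of_smul (x := x) ht.ne' hv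
  have h1 : LL M d x p (x + t • v) = 1 := by
    rw [← hp _ hy hne, h.cs_self ht hx hv hy]
  have hsq : ∀ u, LL M d x u (x + t • v) ^ 2 ≤ NN M d x u ^ 2 := by
    intro u
    obtain ⟨_, _, _, _, h0⟩ := h.NN_spec hx u
    exact sq_le_sq' (by linarith [(abs_le.mp (h0 _ hy hne)).1]) (abs_le.mp (h0 _ hy hne)).2
  have hN1 := h.NN_hasC hx hv hp
  have hp1 : p.1 ^ 2 + 2 * b * (p.1 * p.2) + p.2 ^ 2 = 1 := by rw [← hb, hN1]; norm_num
  set f := LL M d x q (x + t • v) with hf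
  set B := q.1 * p.1 + b * (q.1 * p.2 + q.2 * p.1) + q.2 * p.2 with hB
  set k := NN M d x q ^ 2 - f ^ 2 with hk
  have hk0 : 0 ≤ k := by have := hsq q; simp only [hk]; linarith
  have hpoly : ∀ s : ℝ, 2 * s * (f - B) ≤ s ^ 2 * k := by
    intro s
    have h2 := hsq (p + s • q)
    rw [LL_add, LL_smul, h1, hb] at h2
    have h3 := hb q
    simp only [Prod.fst_add, Prod.snd_add, Prod.smul_fst, Prod.smul_snd, smul_eq_mul] at h2
    simp only [hk, h3, hB]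
    nlinarith
  have h4 := hpoly ((f - B) / (k + 1))
  have h5 : 0 < k + 1 := by linarith
  have h6 : 2 * ((f - B) / (k + 1)) * (f - B) = 2 * (f - B) ^ 2 * (k + 1) / (k + 1) ^ 2 := by
    field_simp
  have h7 : ((f - B) / (k + 1)) ^ 2 * k = (f - B) ^ 2 * k / (k + 1) ^ 2 := by
    rw [div_pow]; ring
  rw [h6, h7, div_le_div_iff_of_pos_right (by positivity)] at h4
  have h8 : (f - B) ^ 2 * (k + 2) ≤ 0 := by nlinarith
  have h9 : (f - B) ^ 2 = 0 := by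
    by_contra h10
    have : 0 < (f - B) ^ 2 := lt_of_le_of_ne (sq_nonneg _) (Ne.symm h10)
    nlinarith
  have := pow_eq_zero_iff (two_ne_zero) |>.mp h9
  linarith

end PMS

end Pool.Agent.Work.MP_594704_gt
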