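import Pool.Agent.Work.MP_594704_gt.Glue

set_option autoImplicit false

open Set Filter Topology

namespace Pool.Agent.Work.MP_594704_gt

variable {E : Type*} [NormedAddCommGroup E] [NormedSpace ℝ E]

/-- The distance formula in all dimensions. -/
theorem global_formula [FiniteDimensional ℝ E] {n : ℕ} (hn : Module.finrank ℝ E = n) (hn2 : 2 ≤ n)
    {M : Set E} {d : E → E → ℝ} (h : PMS M d) {o : E} (ho : o ∈ M) :
    ∃ (T : E ≃ₗ[ℝ] EuclideanSpace ℝ (Fin n)) (l : E →ₗ[ℝ] ℝ) (k : ℝ), 0 ≤ k ∧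
      (∀ x ∈ M, 0 < 1 + l (x - o)) ∧
      (∀ x ∈ M, 0 < (1 + l (x - o)) ^ 2 - k * ‖T (x - o)‖ ^ 2) ∧
      (0 < k → ∀ x ∈ M, ∀ y ∈ M, d x y = (1 / Real.sqrt k) * Real.log
        ((((1 + l (x - o)) * (1 + l (y - o)) - k * inner ℝ (T (x - o)) (T (y - o))) +
          Real.sqrt (((1 + l (x - o)) * (1 + l (y - o)) - k * inner ℝ (T (x - o)) (T (y - o))) ^ 2 -
            ((1 + l (x - o)) ^ 2 - k * ‖T (x - o)‖ ^ 2) *
            ((1 + l (y - o)) ^ 2 - k * ‖T (y - o)‖ ^ 2))) /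
          Real.sqrt (((1 + l (x - o)) ^ 2 - k * ‖T (x - o)‖ ^ 2) *
            ((1 + l (y - o)) ^ 2 - k * ‖T (y - o)‖ ^ 2)))) ∧
      (k = 0 → ∀ x ∈ M, ∀ y ∈ M, d x y =
        ‖(1 + l (y - o))⁻¹ • T (y - o) - (1 + l (x - o))⁻¹ • T (x - o)‖) := by
  have hE : 1 < Module.finrank ℝ E := by omega
  obtain ⟨q, l, k, hglob⟩ := global_data hE h ho
  -- two vectors at a time
  have two : ∀ u v : E, ∃ (L : ℝ × ℝ →ₗ[ℝ] E) (a b : ℝ × ℝ) (Q : ℝ × ℝ × ℝ) (ll : ℝ × ℝ),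
      Function.Injective L ∧ L a = u ∧ L b = v ∧
      Data ((fun p => o + L p) ⁻¹' M) (fun p q => d (o + L p) (o + L q)) Q ll k ∧
      ∀ w, q (L w) = Bf Q w w ∧ l (L w) = lam ll w := by
    intro u v
    obtain ⟨L, a, b, hL, ha, hb⟩ := exists_plane hE u v
    obtain ⟨Q, ll, hdata, hw⟩ := hglob L hL
    exact ⟨L, a, b, Q, ll, hL, ha, hb, hdata, hw⟩
  -- linearity of `l`
  have ladd : ∀ u v, l (u + v) = l u + l v := by
    intro u v
    obtain ⟨L, a, b, Q, ll, hL, ha, hb, -, hw⟩ := two u v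
    rw [← ha, ← hb, ← map_add, (hw _).2, (hw _).2, (hw _).2]
    simp only [lam, Prod.fst_add, Prod.snd_add]; ring
  have lsmul : ∀ (c : ℝ) u, l (c • u) = c * l u := by
    intro c u
    obtain ⟨L, a, b, Q, ll, hL, ha, hb, -, hw⟩ := two u 0
    rw [← ha, ← map_smul, (hw _).2, (hw _).2]
    simp only [lam, Prod.smul_fst, Prod.smul_snd, smul_eq_mul]; ring
  set l' : E →ₗ[ℝ] ℝ :=
    { toFun := l
      map_add' := ladd
      map_smul' := fun c u => by rw [lsmul]; rfl } with hl'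
  have hl'l : ∀ u, l' u = l u := fun u => rfl
  -- the bilinear form
  have qpar : ∀ u v, q (u + v) + q (u - v) = 2 * q u + 2 * q v := by
    intro u v
    obtain ⟨L, a, b, Q, ll, hL, ha, hb, -, hw⟩ := two u v
    rw [← ha, ← hb, ← map_add, ← map_sub, (hw _).1, (hw _).1, (hw _).1, (hw _).1]
    simp only [Bf, Prod.fst_add, Prod.snd_add, Prod.fst_sub, Prod.snd_sub]; ring
  set B : E → E → ℝ := fun u v => (q (u + v) - q u - q v) / 2 with hB
  have hBsymm : ∀ u v, B u v = B v u := by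
    intro u v
    simp only [hB]
    rw [add_comm v u]; ring
  have hBL : ∀ (L : ℝ × ℝ →ₗ[ℝ] E) (Q : ℝ × ℝ × ℝ), (∀ w, q (L w) = Bf Q w w) → ∀ a b,
      B (L a) (L b) = Bf Q a b := by
    intro L Q hw a b
    simp only [hB]
    rw [← map_add, hw, hw, hw]
    simp only [Bf, Prod.fst_add, Prod.snd_add]; ring
  have hBsmul : ∀ (c : ℝ) u v, B (c • u) v = c * B u v := by
    intro c u v
    obtain ⟨L, a, b, Q, ll, hL, ha, hb, -, hw⟩ := two u v
    rw [← ha, ← hb, ← map_smul, hBL L Q (fun w => (hw w).1), hBL L Q (fun w => (hw w).1)]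
    simp only [Bf, Prod.smul_fst, Prod.smul_snd, smul_eq_mul]; ring
  have hBadd : ∀ u v w, B (u + v) w = B u w + B v w := by
    intro u v w
    have p1 := qpar (u + v) w
    have p2 := qpar (u + w) v
    have p3 := qpar u (v - w)
    have p4 := qpar v w
    have e1 : u + w + v = u + v + w := by abel
    have e2 : u + w - v = u - (v - w) := by abel
    have e3 : u + (v - w) = u + v - w := by abel
    rw [e1, e2] at p2
    rw [e3] at p3
    simp only [hB]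
    linarith
  have hBq : ∀ u, B u u = q u := by
    intro u
    obtain ⟨L, a, b, Q, ll, hL, ha, hb, -, hw⟩ := two u 0
    rw [← ha, hBL L Q (fun w => (hw w).1), (hw _).1]
  have hBpos : ∀ u, u ≠ 0 → 0 < B u u := by
    intro u hu
    obtain ⟨L, a, b, Q, ll, hL, ha, hb, hdata, hw⟩ := two u 0
    rw [← ha, hBL L Q (fun w => (hw w).1)]
    apply Bf_pos hdata.qpos hdata.qdet
    rintro rfl
    rw [map_zero] at ha
    exact hu ha.symm
  obtain ⟨T, hT⟩ := exists_iso hn B hBsymm hBadd hBsmul hBpos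
  have hTn : ∀ u, ‖T u‖ ^ 2 = B u u := by
    intro u
    rw [← hT, real_inner_self_eq_norm_sq]
  -- specialise to a point and a pair of points
  have pair : ∀ x ∈ M, ∀ y ∈ M, ∃ (Md : Set (ℝ × ℝ)) (dd : ℝ × ℝ → ℝ × ℝ → ℝ) (a b : ℝ × ℝ)
      (Q : ℝ × ℝ × ℝ) (ll : ℝ × ℝ), PMS Md dd ∧ (0 : ℝ × ℝ) ∈ Md ∧ a ∈ Md ∧ b ∈ Md ∧
      Data Md dd Q ll k ∧ dd a b = d x y ∧ l (x - o) = lam ll a ∧ l (y - o) = lam ll b ∧
      B (x - o) (x - o) = Bf Q a a ∧ B (x - o) (y - o) = Bf Q a b ∧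
      B (y - o) (y - o) = Bf Q b b := by
    intro x hx y hy
    obtain ⟨L, a, b, Q, ll, hL, ha, hb, hdata, hw⟩ := two (x - o) (y - o)
    have hxa : o + L a = x := by rw [ha]; abel
    have hyb : o + L b = y := by rw [hb]; abel
    refine ⟨_, _, a, b, Q, ll, h.pull o L hL, ?_, ?_, ?_, hdata, ?_, ?_, ?_, ?_, ?_, ?_⟩
    · change o + L 0 ∈ M
      rw [map_zero, add_zero]; exact ho
    · change o + L a ∈ M
      rw [hxa]; exact hx
    · change o + L b ∈ M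
      rw [hyb]; exact hy
    · rw [hxa, hyb]
    · rw [← ha, (hw _).2]
    · rw [← hb, (hw _).2]
    · rw [← ha, hBL L Q (fun w => (hw w).1)]
    · rw [← ha, ← hb, hBL L Q (fun w => (hw w).1)]
    · rw [← hb, hBL L Q (fun w => (hw w).1)]
  have hlpos : ∀ x ∈ M, 0 < 1 + l' (x - o) := by
    intro x hx
    obtain ⟨Md, dd, a, b, Q, ll, hP, h0, ha, hb, hdata, -, e1, -, -, -, -⟩ := pair x hx x hx
    rw [hl'l, e1]
    exact hdata.lam_pos hP h0 ha
  refine ⟨T, l', k, ?_, hlpos, ?_, ?_, ?_⟩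
  · obtain ⟨Md, dd, a, b, Q, ll, hP, h0, ha, hb, hdata, -⟩ := pair o ho o ho
    exact hdata.k_nonneg hP h0
  · intro x hx
    obtain ⟨Md, dd, a, b, Q, ll, hP, h0, ha, hb, hdata, -, e1, -, e3, -, -⟩ := pair x hx x hx
    have := hdata.wpos a ha
    rw [hTn, hl'l, e1, e3]
    simp only [Wb] at this
    nlinarith
  · intro hk x hx y hy
    obtain ⟨Md, dd, a, b, Q, ll, hP, h0, ha, hb, hdata, e0, e1, e2, e3, e4, e5⟩ := pair x hx y hy
    rw [hTn, hTn, hT, hl'l, hl'l, e1, e2, e3, e4, e5]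
    have := hdata.dist_hyp hP h0 hk ha hb
    rw [← Db_disc, e0] at this
    rw [this]
    have w1 : Wb Q ll k a b = (1 + lam ll a) * (1 + lam ll b) - k * Bf Q a b := rfl
    have w2 : Wb Q ll k a a = (1 + lam ll a) ^ 2 - k * Bf Q a a := by simp only [Wb]; ring
    have w3 : Wb Q ll k b b = (1 + lam ll b) ^ 2 - k * Bf Q b b := by simp only [Wb]; ring
    rw [w1, w2, w3]
  · intro hk x hx y hy
    obtain ⟨Md, dd, a, b, Q, ll, hP, h0, ha, hb, hdata, e0, e1, e2, e3, e4, e5⟩ := pair x hx y hy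
    have := hdata.dist_flat hP h0 hk ha hb
    rw [e0] at this
    have px := hlpos x hx
    have py := hlpos y hy
    have pos : 0 < (1 + l' (x - o)) * (1 + l' (y - o)) := mul_pos px py
    rw [this, div_eq_iff (hdata.wb_pos hP h0 ha hb).ne']
    have hW : Wb Q ll k a b = (1 + l' (x - o)) * (1 + l' (y - o)) := by
      rw [hl'l, hl'l, e1, e2]
      simp only [Wb, hk]; ring
    rw [hW, Real.sqrt_eq_iff_mul_self_eq (hdata.db_nonneg ha) (by positivity)]
    have hn2 : ‖(1 + l' (y - o))⁻¹ • T (y - o) - (1 + l' (x - o))⁻¹ • T (x - o)‖ ^ 2 =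
        (1 + l' (y - o))⁻¹ ^ 2 * Bf Q b b - 2 * ((1 + l' (y - o))⁻¹ * ((1 + l' (x - o))⁻¹ * Bf Q a b)) +
        (1 + l' (x - o))⁻¹ ^ 2 * Bf Q a a := by
      rw [norm_sub_sq_real, norm_smul, norm_smul, mul_pow, mul_pow, hTn, hTn, e3, e5,
        real_inner_smul_left, real_inner_smul_right, hT, hBsymm, e4, Real.norm_eq_abs,
        Real.norm_eq_abs, sq_abs, sq_abs]
    have hD : Db Q ll k a b = (1 + l' (x - o)) ^ 2 * Bf Q b b -
        2 * (1 + l' (x - o)) * (1 + l' (y - o)) * Bf Q a b + (1 + l' (y - o)) ^ 2 * Bf Q a a := by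
      rw [hl'l, hl'l, e1, e2]
      simp only [Db, hk]; ring
    have : ‖(1 + l' (y - o))⁻¹ • T (y - o) - (1 + l' (x - o))⁻¹ • T (x - o)‖ *
        ((1 + l' (x - o)) * (1 + l' (y - o))) *
        (‖(1 + l' (y - o))⁻¹ • T (y - o) - (1 + l' (x - o))⁻¹ • T (x - o)‖ *
        ((1 + l' (x - o)) * (1 + l' (y - o)))) =
        ‖(1 + l' (y - o))⁻¹ • T (y - o) - (1 + l' (x - o))⁻¹ • T (x - o)‖ ^ 2 *
        ((1 + l' (x - o)) * (1 + l' (y - o))) ^ 2 := by ring
    rw [this, hn2, hD]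
    field_simp

end Pool.Agent.Work.MP_594704_gt
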