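import Pool.Agent.Work.MP_594704_gt.Pull

set_option autoImplicit false

open Set Filter Topology

namespace Pool.Agent.Work.MP_594704_gt

variable {E : Type*} [NormedAddCommGroup E] [NormedSpace ℝ E]

/-- Speed data along the line through `o` in direction `u`. -/
structure DirData (M : Set E) (d : E → E → ℝ) (o u : E) (q l k : ℝ) : Prop where
  qpos : 0 < q
  wpos : ∀ t : ℝ, o + t • u ∈ M → 0 < (1 + t * l) ^ 2 - k * (t ^ 2 * q)
  speed : ∀ (t : ℝ) (τ : ℝ → ℝ), IsParam M d (o + t • u) u τ →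
    Tendsto (fun s => s / τ s) (𝓝[>] 0) (𝓝 (Real.sqrt q / ((1 + t * l) ^ 2 - k * (t ^ 2 * q))))

lemma DirData.unique {M : Set E} {d : E → E → ℝ} (h : PMS M d) {o u : E} (ho : o ∈ M)
    (hu : u ≠ 0) {q l k q' l' k' : ℝ} (D : DirData M d o u q l k)
    (D' : DirData M d o u q' l' k') : q = q' ∧ l = l' ∧ k = k' := by
  have eqs : ∀ t : ℝ, o + t • u ∈ M → Real.sqrt q / ((1 + t * l) ^ 2 - k * (t ^ 2 * q)) =
      Real.sqrt q' / ((1 + t * l') ^ 2 - k' * (t ^ 2 * q')) := by
    intro t ht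
    have hτ := h.prm_spec ht hu
    exact tendsto_nhds_unique (D.speed t _ hτ) (D'.speed t _ hτ)
  have hq : q = q' := by
    have := eqs 0 (by rw [zero_smul, add_zero]; exact ho)
    simp only [zero_mul, add_zero, one_pow, ne_eq, OfNat.ofNat_ne_zero, not_false_eq_true, zero_pow,
      mul_zero, sub_zero, div_one] at this
    exact (Real.sqrt_inj D.qpos.le D'.qpos.le).mp this
  subst hq
  have hsq := Real.sqrt_pos.mpr D.qpos
  have eqs2 : ∀ t : ℝ, o + t • u ∈ M → (1 + t * l) ^ 2 - k * (t ^ 2 * q) =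
      (1 + t * l') ^ 2 - k' * (t ^ 2 * q) := by
    intro t ht
    have h1 := eqs t ht
    have h2 := D.wpos t ht
    have h3 := D'.wpos t ht
    rw [div_eq_div_iff h2.ne' h3.ne'] at h1
    have := mul_left_cancel₀ hsq.ne' h1
    exact this.symm
  obtain ⟨t, ht, ht1, ht2⟩ : ∃ t : ℝ, 0 < t ∧ o + t • u ∈ M ∧ o + (-t) • u ∈ M := by
    have hc1 : Tendsto (fun t : ℝ => o + t • u) (𝓝 0) (𝓝 (o + (0 : ℝ) • u)) :=
      (continuous_const.add (continuous_id.smul continuous_const)).tendsto 0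
    have hc2 : Tendsto (fun t : ℝ => o + (-t) • u) (𝓝 0) (𝓝 (o + (-(0 : ℝ)) • u)) :=
      (continuous_const.add (continuous_neg.smul continuous_const)).tendsto 0
    rw [neg_zero] at hc2
    rw [zero_smul, add_zero] at hc1 hc2
    have e1 := (h.eventually_mem ho hc1).filter_mono (nhdsWithin_le_nhds (s := Ioi 0))
    have e2 := (h.eventually_mem ho hc2).filter_mono (nhdsWithin_le_nhds (s := Ioi 0))
    obtain ⟨t, ⟨h1, h2⟩, h3⟩ := ((e1.and e2).and self_mem_nhdsWithin).exists
    exact ⟨t, h3, h1, h2⟩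
  have a1 := eqs2 t ht1
  have a2 := eqs2 (-t) ht2
  have b1 : 4 * t * (l - l') = 0 := by linear_combination a1 - a2
  have hl : l = l' := by
    rcases mul_eq_zero.mp b1 with h0 | h0
    · exact absurd h0 (by positivity)
    · linarith
  subst hl
  have b2 : (t ^ 2 * q) * (k - k') = 0 := by linear_combination -a1
  have hk : k = k' := by
    have hq := D.qpos
    rcases mul_eq_zero.mp b2 with h0 | h0
    · exact absurd h0 (by positivity)
    · linarith
  exact ⟨rfl, rfl, hk⟩

lemma plane_data {M : Set E} {d : E → E → ℝ} (h : PMS M d) {o : E} (ho : o ∈ M)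
    {L : ℝ × ℝ →ₗ[ℝ] E} (hL : Function.Injective L) :
    ∃ (Q : ℝ × ℝ × ℝ) (l : ℝ × ℝ) (k : ℝ),
      Data ((fun p => o + L p) ⁻¹' M) (fun p q => d (o + L p) (o + L q)) Q l k ∧
      ∀ w, w ≠ 0 → DirData M d o (L w) (Bf Q w w) (lam l w) k := by
  have h' := h.pull o L hL
  have h0' : (0 : ℝ × ℝ) ∈ (fun p => o + L p) ⁻¹' M := by
    change o + L 0 ∈ M
    rw [map_zero, add_zero]; exact ho
  obtain ⟨Q, l, k, p1, p2, p3, p4, p5⟩ := h'.conformal h0'
  refine ⟨Q, l, k, ⟨p1, p2, p3, p4, p5⟩, fun w hw => ?_⟩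
  have hW : ∀ t : ℝ, Wb Q l k (t • w) (t • w) = (1 + t * lam l w) ^ 2 - k * (t ^ 2 * Bf Q w w) := by
    intro t
    simp only [Wb, lam, Bf, Prod.smul_fst, Prod.smul_snd, smul_eq_mul]; ring
  refine ⟨Bf_pos p1 p2 hw, ?_, ?_⟩
  · intro t ht
    rw [← hW]
    apply p3
    change o + L (t • w) ∈ M
    rw [map_smul]; exact ht
  · intro t τ hτ
    rw [← map_smul] at hτ
    have := p5 _ _ _ hτ.pull
    have e : Dx Q l k (t • w) w = Bf Q w w := by
      have h1 := Dx_line Q l k 0 w t
      rw [zero_add] at h1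
      rw [h1]
      simp [Dx, lam, Bf]
    rw [hW, e] at this
    exact this

/-- global conformal data -/
lemma global_data [FiniteDimensional ℝ E] (hE : 1 < Module.finrank ℝ E) {M : Set E}
    {d : E → E → ℝ} (h : PMS M d) {o : E} (ho : o ∈ M) :
    ∃ (q l : E → ℝ) (k : ℝ), ∀ L : ℝ × ℝ →ₗ[ℝ] E, Function.Injective L →
      ∃ (Q : ℝ × ℝ × ℝ) (ll : ℝ × ℝ),
      Data ((fun p => o + L p) ⁻¹' M) (fun p q => d (o + L p) (o + L q)) Q ll k ∧
      ∀ w, q (L w) = Bf Q w w ∧ l (L w) = lam ll w := by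
  have hex : ∀ u : E, ∃ q l k : ℝ, (u = 0 → q = 0 ∧ l = 0) ∧ (u ≠ 0 → DirData M d o u q l k) := by
    intro u
    rcases eq_or_ne u 0 with hu | hu
    · exact ⟨0, 0, 0, fun _ => ⟨rfl, rfl⟩, fun h0 => absurd hu h0⟩
    · obtain ⟨L, a, b, hL, ha, -⟩ := exists_plane hE u 0
      obtain ⟨Q, l, k, -, hD⟩ := plane_data h ho hL
      have ha0 : a ≠ 0 := by rintro rfl; rw [map_zero] at ha; exact hu ha.symm
      refine ⟨Bf Q a a, lam l a, k, fun h0 => absurd h0 hu, fun _ => ?_⟩
      rw [← ha]; exact hD a ha0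
  choose q l k hql hD using hex
  have hnt : Nontrivial E := Module.nontrivial_of_finrank_pos (R := ℝ) (by linarith)
  obtain ⟨u0, hu0⟩ := exists_ne (0 : E)
  refine ⟨q, l, k u0, fun L hL => ?_⟩
  obtain ⟨Q, ll, kk, hdata, hdir⟩ := plane_data h ho hL
  have hne : ∀ w, w ≠ 0 → L w ≠ 0 := fun w hw e => hw (hL (by rw [e, map_zero]))
  -- constancy of `k`
  have hk : ∀ u v : E, u ≠ 0 → v ≠ 0 → k u = k v := by
    intro u v hu hv
    obtain ⟨L', a, b, hL', ha, hb⟩ := exists_plane hE u v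
    obtain ⟨Q', l', k', -, hD'⟩ := plane_data h ho hL'
    have ha0 : a ≠ 0 := by rintro rfl; rw [map_zero] at ha; exact hu ha.symm
    have hb0 : b ≠ 0 := by rintro rfl; rw [map_zero] at hb; exact hv hb.symm
    have h1 := hD' a ha0
    have h2 := hD' b hb0
    rw [ha] at h1
    rw [hb] at h2
    have h3 := (DirData.unique h ho hu (hD u hu) h1).2.2
    have h4 := (DirData.unique h ho hv (hD v hv) h2).2.2
    rw [h3, h4]
  have huniq : ∀ w, w ≠ 0 → q (L w) = Bf Q w w ∧ l (L w) = lam ll w ∧ k (L w) = kk :=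
    fun w hw => DirData.unique h ho (hne w hw) (hD _ (hne w hw)) (hdir w hw)
  have hkk : kk = k u0 := by
    have h1 := (huniq (1, 0) e1_ne).2.2
    rw [← h1]
    exact hk _ _ (hne _ e1_ne) hu0
  refine ⟨Q, ll, by rw [← hkk]; exact hdata, fun w => ?_⟩
  rcases eq_or_ne w 0 with hw | hw
  · rw [hw, map_zero]
    have := hql 0 rfl
    exact ⟨by rw [this.1]; simp [Bf], by rw [this.2]; simp [lam]⟩
  · exact ⟨(huniq w hw).1, (huniq w hw).2.1⟩

/-- A positive definite symmetric bilinear form is the pullback of the standard one. -/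
lemma exists_iso {V : Type*} [AddCommGroup V] [Module ℝ V] [FiniteDimensional ℝ V] {n : ℕ}
    (hn : Module.finrank ℝ V = n) (B : V → V → ℝ) (hsymm : ∀ u v, B u v = B v u)
    (hadd : ∀ u v w, B (u + v) w = B u w + B v w) (hsmul : ∀ (c : ℝ) u v, B (c • u) v = c * B u v)
    (hpos : ∀ u, u ≠ 0 → 0 < B u u) :
    ∃ T : V ≃ₗ[ℝ] EuclideanSpace ℝ (Fin n), ∀ u v, inner ℝ (T u) (T v) = B u v := by
  let core : InnerProductSpace.Core ℝ V :=
    { inner := B
      conj_inner_symm := fun u v => by simpa using hsymm v u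
      re_inner_nonneg := fun u => by
        have h0 : B 0 0 = 0 := by
          have := hsmul 0 0 0
          simpa using this
        rcases eq_or_ne u 0 with hu | hu
        · rw [hu]; simp only [RCLike.re_to_real]; exact h0.ge
        · simp only [RCLike.re_to_real]; exact (hpos u hu).le
      add_left := fun u v w => hadd u v w
      smul_left := fun u v c => by simpa using hsmul c u v
      definite := fun u hu => by
        by_contra hne
        have := hpos u hne
        exact this.ne' hu }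
  let : NormedAddCommGroup V := core.toNormedAddCommGroup
  let : InnerProductSpace ℝ V := InnerProductSpace.ofCore core.toCore
  refine ⟨((stdOrthonormalBasis ℝ V).reindex (finCongr hn)).repr.toLinearEquiv, fun u v => ?_⟩
  exact ((stdOrthonormalBasis ℝ V).reindex (finCongr hn)).repr.inner_map_map u v

end Pool.Agent.Work.MP_594704_gt
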