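import Pool.Agent.Work.MP_594704_gt.Klein

set_option autoImplicit false

open Set Filter Topology

namespace Pool.Agent.Work.MP_594704_gt

/-- Integrating the speed along a line. -/
lemma arclength_formula {E : Type*} [NormedAddCommGroup E] [NormedSpace ℝ E] {M : Set E}
    {d : E → E → ℝ} {x u : E} {τ : ℝ → ℝ} (hτ : IsParam M d x u τ)
    {N Θ : ℝ → ℝ} (hN : ∀ t, 0 ≤ t → x + t • u ∈ M → 0 < N t)
    (hsp : ∀ s, 0 ≤ s → Tendsto (fun r => r / (τ (s + r) - τ s)) (𝓝[>] 0) (𝓝 (N (τ s))))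
    (hΘ : ∀ t, 0 ≤ t → x + t • u ∈ M → HasDerivAt Θ (N t) t) (hΘ0 : Θ 0 = 0) {s : ℝ}
    (hs : 0 ≤ s) : Θ (τ s) = s := by
  have hτnn : ∀ s, 0 ≤ s → 0 ≤ τ s := by
    intro s hs
    rw [← hτ.zero]; exact hτ.mono.monotone hs
  have hcont : ContinuousOn (fun s => Θ (τ s) - s) (Icc 0 s) := by
    intro r hr
    have h1 := (hΘ (τ r) (hτnn r hr.1) (hτ.mem r)).continuousAt
    exact ((ContinuousAt.comp (g := Θ) h1 hτ.cont.continuousAt).sub
      continuousAt_id).continuousWithinAt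
  have hder : ∀ r ∈ Ico 0 s, HasDerivWithinAt (fun s => Θ (τ s) - s) 0 (Ici r) r := by
    intro r hr
    have h1 := hΘ (τ r) (hτnn r hr.1) (hτ.mem r)
    have hNr := hN (τ r) (hτnn r hr.1) (hτ.mem r)
    have h2 : HasDerivWithinAt τ (1 / N (τ r)) (Ici r) r := by
      rw [← hasDerivWithinAt_Ioi_iff_Ici, hasDerivWithinAt_iff_tendsto_slope' (by simp)]
      have h3 := (hsp r hr.1).inv₀ hNr.ne'
      have h4 : Tendsto (fun r' => r' - r) (𝓝[>] r) (𝓝[>] 0) := by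
        refine tendsto_nhdsWithin_iff.mpr ⟨?_, ?_⟩
        · have : Tendsto (fun r' : ℝ => r' - r) (𝓝 r) (𝓝 (r - r)) :=
            (continuous_id.sub continuous_const).tendsto r
          rw [sub_self] at this
          exact this.mono_left nhdsWithin_le_nhds
        · filter_upwards [self_mem_nhdsWithin] with r' hr'
          have : r < r' := hr'
          simpa using this
      have h5 := h3.comp h4
      rw [one_div]
      refine h5.congr fun r' => ?_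
      simp only [Function.comp, slope_def_field, inv_div]
      congr 2
      rw [add_sub_cancel]
    have h6 := h1.comp_hasDerivWithinAt r h2
    have h7 := h6.sub (hasDerivWithinAt_id r (Ici r))
    have e : N (τ r) * (1 / N (τ r)) - 1 = 0 := by field_simp; ring
    rw [e] at h7
    exact h7
  have := constant_of_has_deriv_right_zero hcont hder s ⟨hs, le_rfl⟩
  simp only [hτ.zero, hΘ0, sub_zero] at this
  linarith

namespace PMS

variable {M : Set (ℝ × ℝ)} {d : ℝ × ℝ → ℝ × ℝ → ℝ} (h : PMS M d)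
include h

theorem conformal (h0 : (0 : ℝ × ℝ) ∈ M) : ∃ (Q : ℝ × ℝ × ℝ) (l : ℝ × ℝ) (k : ℝ),
    0 < Q.1 ∧ 0 < Q.1 * Q.2.2 - Q.2.1 ^ 2 ∧ (∀ x ∈ M, 0 < Wb Q l k x x) ∧
    (∀ x ∈ M, ∀ u, u ≠ 0 → 0 < Dx Q l k x u) ∧
    (∀ x w : ℝ × ℝ, ∀ τ : ℝ → ℝ, IsParam M d x w τ → Tendsto (fun s => s / τ s) (𝓝[>] 0)
      (𝓝 (Real.sqrt (Dx Q l k x w) / Wb Q l k x x))) := by
  obtain ⟨C, hCpos, hCrel, hCsp⟩ := h.exists_forms
  obtain ⟨l1, l2, κ, hC⟩ := forms_solve h.isOpen h0 hCrel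
  obtain ⟨hp1, hp2⟩ := hCpos 0 h0
  set a := (C 0).1
  set b := (C 0).2.1
  set c := (C 0).2.2
  set δ := a * c - b ^ 2 with hδ
  obtain ⟨Q, l, k, hQ1, hQ2, hQ3⟩ := forms_convert (l1 := l1) (l2 := l2) (κ := κ) hp1 hp2
  have hdet : ∀ x ∈ M, (C x).1 * (C x).2.2 - (C x).2.1 ^ 2 = δ * Wb Q l k x x := by
    intro x hx
    rw [hC x hx]
    exact (hQ3 x).1
  have hform : ∀ x ∈ M, ∀ u, Bf (C x) u u = δ ^ 2 * Dx Q l k x u := by
    intro x hx u
    rw [hC x hx]
    exact (hQ3 x).2 u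
  refine ⟨Q, l, k, hQ1, hQ2, ?_, ?_, ?_⟩
  · intro x hx
    have h1 := (hCpos x hx).2
    rw [hdet x hx] at h1
    exact (mul_pos_iff_of_pos_left hp2).mp h1
  · intro x hx u hu
    have h1 := Bf_pos (hCpos x hx).1 (hCpos x hx).2 hu
    rw [hform x hx] at h1
    exact (mul_pos_iff_of_pos_left (by positivity)).mp h1
  · intro x w τ hτ
    have hx := hτ.mem0
    have h1 := hCsp x w τ hτ
    rw [hdet x hx, hform x hx, Real.sqrt_mul (by positivity), Real.sqrt_sq hp2.le,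
      mul_div_mul_left _ _ hp2.ne'] at h1
    exact h1

end PMS

end Pool.Agent.Work.MP_594704_gt
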