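import Pool.Agent.Work.MP_594704_gt.Rect

set_option autoImplicit false

open Set Filter Topology

namespace Pool.Agent.Work.MP_594704_gt

namespace PMS

variable {M : Set (ℝ × ℝ)} {d : ℝ × ℝ → ℝ × ℝ → ℝ} (h : PMS M d)
include h

omit h in
lemma quot_pos {x w : ℝ × ℝ} {τ : ℝ → ℝ} (hτ : IsParam M d x w τ) :
    ∀ᶠ s in 𝓝[>] (0 : ℝ), 0 < s / τ s := by
  filter_upwards [self_mem_nhdsWithin] with s hs
  exact div_pos hs (hτ.pos_iff.mpr hs)

omit h in
lemma HH_quot {A B : ℝ × ℝ × ℝ} {w w' u : ℝ × ℝ} (h1 : wd w u ≠ 0) (h2 : wd w' u ≠ 0)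
    (hAw : 0 < Bf A w w) (hAu : 0 < Bf A u u) (hBw : 0 < Bf B w' w') (hBu : 0 < Bf B u u) :
    HH B w' w u / HH A w w' u = Real.sqrt (Bf A w w) * Real.sqrt (Bf A u u) ^ 3 /
      (Real.sqrt (Bf B w' w') * Real.sqrt (Bf B u u) ^ 3) := by
  have p1 := Real.sqrt_pos.mpr hAw
  have p2 := Real.sqrt_pos.mpr hAu
  have p3 := Real.sqrt_pos.mpr hBw
  have p4 := Real.sqrt_pos.mpr hBu
  unfold HH
  field_simp

/-- The speeds at two points, with respect to two directions. -/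
lemma speeds {x y w w' : ℝ × ℝ} {τ1 τ2 : ℝ → ℝ} (hτ1 : IsParam M d x w τ1)
    (hτ2 : IsParam M d y w' τ2) (h1 : wd w (y - x) ≠ 0) (h2 : wd w' (y - x) ≠ 0) :
    ∃ n1 n2 : ℝ, 0 < n1 ∧ 0 < n2 ∧ Tendsto (fun s => s / τ1 s) (𝓝[>] 0) (𝓝 n1) ∧
      Tendsto (fun s => s / τ2 s) (𝓝[>] 0) (𝓝 n2) ∧
      n1 / (Real.sqrt (Bf (FA M d x) w w) * Real.sqrt (Bf (FA M d x) (y - x) (y - x)) ^ 3) =
      n2 / (Real.sqrt (Bf (FA M d y) w' w') * Real.sqrt (Bf (FA M d y) (y - x) (y - x)) ^ 3) := by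
  have hx := hτ1.mem0
  have hy := hτ2.mem0
  have hu : y - x ≠ 0 := by
    intro e
    apply h1
    rw [e]; simp [wd]
  have a1 := h.FA_pos hx hτ1.dir_ne
  have a2 := h.FA_pos hx hu
  have a3 := h.FA_pos hy hτ2.dir_ne
  have a4 := h.FA_pos hy hu
  have hq := h.quot_tendsto hτ1 hτ2 h1 h2
  rw [HH_quot h1 h2 a1 a2 a3 a4] at hq
  have p1 := Real.sqrt_pos.mpr a1
  have p2 := Real.sqrt_pos.mpr a2
  have p3 := Real.sqrt_pos.mpr a3
  have p4 := Real.sqrt_pos.mpr a4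
  obtain ⟨n1, n2, hn1, hn2, t1, t2, e⟩ := tendsto_of_quot (by positivity) (quot_pos hτ1)
    (quot_pos hτ2) hq
  refine ⟨n1, n2, hn1, hn2, t1, t2, ?_⟩
  rw [e]
  field_simp

/-- The speed in direction `w` at `x`. -/
lemma exists_speed : ∃ n : ℝ × ℝ → ℝ × ℝ → ℝ, ∀ x ∈ M, ∀ w : ℝ × ℝ, ∀ τ : ℝ → ℝ,
    IsParam M d x w τ → 0 < n x w ∧ Tendsto (fun s => s / τ s) (𝓝[>] 0) (𝓝 (n x w)) := by
  have key : ∀ x w : ℝ × ℝ, ∃ n : ℝ, x ∈ M → ∀ τ : ℝ → ℝ,
      IsParam M d x w τ → 0 < n ∧ Tendsto (fun s => s / τ s) (𝓝[>] 0) (𝓝 n) := by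
    intro x w
    by_cases hx : x ∈ M
    · by_cases hw : w = 0
      · exact ⟨0, fun _ τ hτ => absurd hw hτ.dir_ne⟩
      · have hw2 : 0 < w.1 ^ 2 + w.2 ^ 2 := by
          rcases eq_or_ne w.1 0 with h1 | h1
          · rcases eq_or_ne w.2 0 with h2 | h2
            · exact absurd (Prod.ext h1 h2) hw
            · positivity
          · positivity
        obtain ⟨t, ht, hy⟩ := h.exists_on_ray hx ((-w.2, w.1) : ℝ × ℝ)
        have hwd : wd w (x + t • ((-w.2, w.1) : ℝ × ℝ) - x) = t * (w.1 ^ 2 + w.2 ^ 2) := by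
          simp [wd]; ring
        have hne : wd w (x + t • ((-w.2, w.1) : ℝ × ℝ) - x) ≠ 0 := by rw [hwd]; positivity
        obtain ⟨n1, n2, hn1, -, t1, -, -⟩ := h.speeds (h.prm_spec hx hw) (h.prm_spec hy hw) hne hne
        refine ⟨n1, fun _ τ hτ => ⟨hn1, ?_⟩⟩
        rw [hτ.unique (h.prm_spec hx hw)]
        exact t1
    · exact ⟨0, fun h0 => absurd h0 hx⟩
  choose n hn using key
  exact ⟨n, fun x hx w τ hτ => hn x w hx τ hτ⟩

/-- The Finsler structure of the metric. -/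
theorem exists_forms : ∃ C : ℝ × ℝ → ℝ × ℝ × ℝ,
    (∀ x ∈ M, 0 < (C x).1 ∧ 0 < (C x).1 * (C x).2.2 - (C x).2.1 ^ 2) ∧
    (∀ x ∈ M, ∀ y ∈ M, Bf (C x) (y - x) (y - x) = Bf (C y) (y - x) (y - x)) ∧
    (∀ x w : ℝ × ℝ, ∀ τ : ℝ → ℝ, IsParam M d x w τ → Tendsto (fun s => s / τ s) (𝓝[>] 0)
      (𝓝 (Real.sqrt (Bf (C x) w w) / ((C x).1 * (C x).2.2 - (C x).2.1 ^ 2)))) := by
  obtain ⟨n, hn⟩ := h.exists_speed
  have rel : ∀ x ∈ M, ∀ y ∈ M, ∀ w w' : ℝ × ℝ, wd w (y - x) ≠ 0 → wd w' (y - x) ≠ 0 →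
      n x w / (Real.sqrt (Bf (FA M d x) w w) * Real.sqrt (Bf (FA M d x) (y - x) (y - x)) ^ 3) =
      n y w' / (Real.sqrt (Bf (FA M d y) w' w') *
        Real.sqrt (Bf (FA M d y) (y - x) (y - x)) ^ 3) := by
    intro x hx y hy w w' h1 h2
    have hw : w ≠ 0 := by rintro rfl; apply h1; simp [wd]
    have hw' : w' ≠ 0 := by rintro rfl; apply h2; simp [wd]
    have q1 := h.prm_spec hx hw
    have q2 := h.prm_spec hy hw'
    obtain ⟨n1, n2, hn1, hn2, t1, t2, e⟩ := h.speeds q1 q2 h1 h2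
    have e1 : n x w = n1 := tendsto_nhds_unique (hn x hx w _ q1).2 t1
    have e2 : n y w' = n2 := tendsto_nhds_unique (hn y hy w' _ q2).2 t2
    rw [e1, e2, e]
  set ν : ℝ × ℝ → ℝ := fun x => n x (1, 0) / Real.sqrt (Bf (FA M d x) (1, 0) (1, 0)) with hν
  have hnpos : ∀ x ∈ M, ∀ w, w ≠ 0 → 0 < n x w := fun x hx w hw =>
    (hn x hx w _ (h.prm_spec hx hw)).1
  have hνpos : ∀ x ∈ M, 0 < ν x := fun x hx =>
    div_pos (hnpos x hx _ e1_ne) (Real.sqrt_pos.mpr (h.FA_pos hx e1_ne))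
  have hnν : ∀ x ∈ M, ∀ w, w ≠ 0 → n x w = ν x * Real.sqrt (Bf (FA M d x) w w) := by
    intro x hx w hw
    obtain ⟨u, hu1, hu2⟩ : ∃ u : ℝ × ℝ, wd w u ≠ 0 ∧ wd (1, 0) u ≠ 0 := by
      rcases eq_or_ne w.1 0 with h1 | h1
      · refine ⟨(1, 1), ?_, by simp [wd]⟩
        have : w.2 ≠ 0 := fun h2 => hw (Prod.ext h1 h2)
        simpa [wd, h1] using this
      · exact ⟨(0, 1), by simpa [wd] using h1, by simp [wd]⟩
    obtain ⟨t, ht, hy⟩ := h.exists_on_ray hx u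
    have e0 : x + t • u - x = t • u := by abel
    have hsm : ∀ v : ℝ × ℝ, wd v (t • u) = t * wd v u := by
      intro v; simp only [wd, Prod.smul_fst, Prod.smul_snd, smul_eq_mul]; ring
    have w1 : wd w (x + t • u - x) ≠ 0 := by rw [e0, hsm]; exact mul_ne_zero ht.ne' hu1
    have w2 : wd (1, 0) (x + t • u - x) ≠ 0 := by rw [e0, hsm]; exact mul_ne_zero ht.ne' hu2
    have r1 := rel x hx _ hy w (1, 0) w1 w2
    have r2 := rel x hx _ hy (1, 0) (1, 0) w2 w2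
    rw [← r2] at r1
    have hune : x + t • u - x ≠ 0 := by intro e; rw [e] at w1; simp [wd] at w1
    have p1 := Real.sqrt_pos.mpr (h.FA_pos hx hw)
    have p2 := Real.sqrt_pos.mpr (h.FA_pos hx e1_ne)
    have p3 := Real.sqrt_pos.mpr (h.FA_pos hx hune)
    simp only [hν]
    field_simp at r1 ⊢
    linarith
  have hrel : ∀ x ∈ M, ∀ y ∈ M, y - x ≠ 0 →
      ν x / Real.sqrt (Bf (FA M d x) (y - x) (y - x)) ^ 3 =
      ν y / Real.sqrt (Bf (FA M d y) (y - x) (y - x)) ^ 3 := by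
    intro x hx y hy hu
    set u := y - x with hu_def
    have hu2 : 0 < u.1 ^ 2 + u.2 ^ 2 := by
      rcases eq_or_ne u.1 0 with h1 | h1
      · rcases eq_or_ne u.2 0 with h2 | h2
        · exact absurd (Prod.ext h1 h2) hu
        · positivity
      · positivity
    have hw : wd (-u.2, u.1) u ≠ 0 := by
      have : wd (-u.2, u.1) u = -(u.1 ^ 2 + u.2 ^ 2) := by simp only [wd]; ring
      rw [this]; exact neg_ne_zero.mpr hu2.ne'
    have hwne : ((-u.2, u.1) : ℝ × ℝ) ≠ 0 := by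
      intro e; rw [e] at hw; simp [wd] at hw
    have r := rel x hx y hy (-u.2, u.1) (-u.2, u.1) hw hw
    rw [hnν x hx _ hwne, hnν y hy _ hwne] at r
    have p1 := Real.sqrt_pos.mpr (h.FA_pos hx hwne)
    have p2 := Real.sqrt_pos.mpr (h.FA_pos hy hwne)
    have p3 := Real.sqrt_pos.mpr (h.FA_pos hx hu)
    have p4 := Real.sqrt_pos.mpr (h.FA_pos hy hu)
    rw [← hu_def] at r
    field_simp at r ⊢
    linarith
  -- conformal factor
  have hcex : ∀ x : ℝ × ℝ, ∃ c : ℝ, x ∈ M → 0 < c ∧ c ^ 3 * ν x ^ 2 = 1 := by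
    intro x
    by_cases hx : x ∈ M
    · have hν0 := hνpos x hx
      refine ⟨(1 / ν x ^ 2) ^ ((1 : ℝ) / 3), fun _ => ⟨by positivity, ?_⟩⟩
      rw [← Real.rpow_natCast, ← Real.rpow_mul (by positivity)]
      norm_num
      field_simp
    · exact ⟨0, fun h0 => absurd h0 hx⟩
  choose c hc using hcex
  refine ⟨fun x => (c x * (FA M d x).1, c x * (FA M d x).2.1, c x * (FA M d x).2.2), ?_, ?_, ?_⟩
  · intro x hx
    have hF := h.FA_spec hx
    have hc0 := (hc x hx).1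
    refine ⟨mul_pos hc0 hF.pos, ?_⟩
    have : c x * (FA M d x).1 * (c x * (FA M d x).2.2) - (c x * (FA M d x).2.1) ^ 2 =
        c x ^ 2 * ((FA M d x).1 * (FA M d x).2.2 - (FA M d x).2.1 ^ 2) := by ring
    simp only
    rw [this, hF.det, mul_one]
    positivity
  · intro x hx y hy
    rcases eq_or_ne (y - x) 0 with hu | hu
    · rw [hu]; simp [Bf]
    have hsc : ∀ (c : ℝ) (A : ℝ × ℝ × ℝ) (u : ℝ × ℝ),
        Bf (c * A.1, c * A.2.1, c * A.2.2) u u = c * Bf A u u := by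
      intro c A u; simp only [Bf]; ring
    rw [hsc, hsc]
    have r := hrel x hx y hy hu
    obtain ⟨cx0, cx1⟩ := hc x hx
    obtain ⟨cy0, cy1⟩ := hc y hy
    have a1 := h.FA_pos hx hu
    have a2 := h.FA_pos hy hu
    have r2 : ν x ^ 2 / Bf (FA M d x) (y - x) (y - x) ^ 3 =
        ν y ^ 2 / Bf (FA M d y) (y - x) (y - x) ^ 3 := by
      have := congrArg (fun t => t ^ 2) r
      simp only [div_pow] at this
      have s1 : (Real.sqrt (Bf (FA M d x) (y - x) (y - x)) ^ 3) ^ 2 =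
          Bf (FA M d x) (y - x) (y - x) ^ 3 := by
        rw [← pow_mul, mul_comm, pow_mul, Real.sq_sqrt a1.le]
      have s2 : (Real.sqrt (Bf (FA M d y) (y - x) (y - x)) ^ 3) ^ 2 =
          Bf (FA M d y) (y - x) (y - x) ^ 3 := by
        rw [← pow_mul, mul_comm, pow_mul, Real.sq_sqrt a2.le]
      rw [s1, s2] at this
      exact this
    have hνx := hνpos x hx
    have hνy := hνpos y hy
    have vx : ν x ^ 2 = 1 / c x ^ 3 := by
      rw [eq_div_iff (by positivity)]; linarith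
    have vy : ν y ^ 2 = 1 / c y ^ 3 := by
      rw [eq_div_iff (by positivity)]; linarith
    rw [vx, vy, div_div, div_div, ← mul_pow, ← mul_pow] at r2
    have r3 : (c x * Bf (FA M d x) (y - x) (y - x)) ^ 3 =
        (c y * Bf (FA M d y) (y - x) (y - x)) ^ 3 := by
      have p1 : 0 < (c x * Bf (FA M d x) (y - x) (y - x)) ^ 3 := by positivity
      have p2 : 0 < (c y * Bf (FA M d y) (y - x) (y - x)) ^ 3 := by positivity
      field_simp at r2
      linarith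
    exact (pow_left_inj₀ (by positivity) (by positivity) (by norm_num)).mp r3
  · intro x w τ hτ
    have hx := hτ.mem0
    have hw := hτ.dir_ne
    have hF := h.FA_spec hx
    have t1 := (hn x hx w τ hτ).2
    rw [hnν x hx w hw] at t1
    obtain ⟨cx0, cx1⟩ := hc x hx
    have hνx := hνpos x hx
    have e : Real.sqrt (Bf (c x * (FA M d x).1, c x * (FA M d x).2.1, c x * (FA M d x).2.2) w w) /
        (c x * (FA M d x).1 * (c x * (FA M d x).2.2) - (c x * (FA M d x).2.1) ^ 2) =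
        ν x * Real.sqrt (Bf (FA M d x) w w) := by
      have e1 : c x * (FA M d x).1 * (c x * (FA M d x).2.2) - (c x * (FA M d x).2.1) ^ 2 =
          c x ^ 2 := by
        have : c x * (FA M d x).1 * (c x * (FA M d x).2.2) - (c x * (FA M d x).2.1) ^ 2 =
          c x ^ 2 * ((FA M d x).1 * (FA M d x).2.2 - (FA M d x).2.1 ^ 2) := by ring
        rw [this, hF.det, mul_one]
      have e2 : Bf (c x * (FA M d x).1, c x * (FA M d x).2.1, c x * (FA M d x).2.2) w w =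
          c x * Bf (FA M d x) w w := by
        simp only [Bf]; ring
      rw [e1, e2, Real.sqrt_mul cx0.le]
      have e3 : ν x * c x ^ 2 = Real.sqrt (c x) := by
        rw [eq_comm, Real.sqrt_eq_iff_mul_self_eq cx0.le (by positivity)]
        nlinarith
      rw [← e3]
      field_simp
    simp only
    rw [e]
    exact t1

end PMS

end Pool.Agent.Work.MP_594704_gt
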