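import Pool.Agent.Work.MP_594704_gt.Alg
import Pool.Agent.Work.MP_594704_gt.Speed

set_option autoImplicit false

open Set Filter Topology

namespace Pool.Agent.Work.MP_594704_gt

/-- linear functional -/
def lam (l x : ℝ × ℝ) : ℝ := l.1 * x.1 + l.2 * x.2

/-- polarised conformal factor -/
def Wb (Q : ℝ × ℝ × ℝ) (l : ℝ × ℝ) (k : ℝ) (x y : ℝ × ℝ) : ℝ :=
  (1 + lam l x) * (1 + lam l y) - k * Bf Q x y

/-- the metric form at `x` -/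
def Dx (Q : ℝ × ℝ × ℝ) (l : ℝ × ℝ) (k : ℝ) (x u : ℝ × ℝ) : ℝ :=
  (1 + lam l x) ^ 2 * Bf Q u u - 2 * (1 + lam l x) * lam l u * Bf Q x u +
    lam l u ^ 2 * Bf Q x x - k * (Bf Q x x * Bf Q u u - Bf Q x u ^ 2)

/-- the squared numerator of the distance formula -/
def Db (Q : ℝ × ℝ × ℝ) (l : ℝ × ℝ) (k : ℝ) (x y : ℝ × ℝ) : ℝ :=
  (1 + lam l x) ^ 2 * Bf Q y y - 2 * (1 + lam l x) * (1 + lam l y) * Bf Q x y +
    (1 + lam l y) ^ 2 * Bf Q x x - k * (Bf Q x x * Bf Q y y - Bf Q x y ^ 2)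

lemma Dx_sub (Q : ℝ × ℝ × ℝ) (l : ℝ × ℝ) (k : ℝ) (x y : ℝ × ℝ) :
    Dx Q l k x (y - x) = Db Q l k x y := by
  simp only [Dx, Db, lam, Bf, Prod.fst_sub, Prod.snd_sub]; ring

lemma Dx_line (Q : ℝ × ℝ × ℝ) (l : ℝ × ℝ) (k : ℝ) (x u : ℝ × ℝ) (t : ℝ) :
    Dx Q l k (x + t • u) u = Dx Q l k x u := by
  simp only [Dx, lam, Bf, Prod.fst_add, Prod.snd_add, Prod.smul_fst, Prod.smul_snd, smul_eq_mul]
  ring

lemma Wb_line (Q : ℝ × ℝ × ℝ) (l : ℝ × ℝ) (k : ℝ) (x u : ℝ × ℝ) (t : ℝ) :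
    Wb Q l k (x + t • u) (x + t • u) = Wb Q l k x x +
      2 * ((1 + lam l x) * lam l u - k * Bf Q x u) * t + (lam l u ^ 2 - k * Bf Q u u) * t ^ 2 := by
  simp only [Wb, lam, Bf, Prod.fst_add, Prod.snd_add, Prod.smul_fst, Prod.smul_snd, smul_eq_mul]
  ring

lemma Wb_line' (Q : ℝ × ℝ × ℝ) (l : ℝ × ℝ) (k : ℝ) (x u : ℝ × ℝ) (t : ℝ) :
    Wb Q l k x (x + t • u) = Wb Q l k x x +
      ((1 + lam l x) * lam l u - k * Bf Q x u) * t := by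
  simp only [Wb, lam, Bf, Prod.fst_add, Prod.snd_add, Prod.smul_fst, Prod.smul_snd, smul_eq_mul]
  ring

lemma W_disc (Q : ℝ × ℝ × ℝ) (l : ℝ × ℝ) (k : ℝ) (x u : ℝ × ℝ) :
    ((1 + lam l x) * lam l u - k * Bf Q x u) ^ 2 - Wb Q l k x x * (lam l u ^ 2 - k * Bf Q u u) =
      k * Dx Q l k x u := by
  simp only [Wb, Dx]
  ring

lemma Db_disc (Q : ℝ × ℝ × ℝ) (l : ℝ × ℝ) (k : ℝ) (x y : ℝ × ℝ) :
    Wb Q l k x y ^ 2 - Wb Q l k x x * Wb Q l k y y = k * Db Q l k x y := by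
  simp only [Wb, Db]
  ring

/-- conversion of the solution of the functional equation -/
lemma forms_convert {a b c l1 l2 κ : ℝ} (ha : 0 < a) (hδ : 0 < a * c - b ^ 2) :
    ∃ (Q : ℝ × ℝ × ℝ) (l : ℝ × ℝ) (k : ℝ), 0 < Q.1 ∧ 0 < Q.1 * Q.2.2 - Q.2.1 ^ 2 ∧
      ∀ x : ℝ × ℝ, ((a - x.2 * l1 + κ * x.2 ^ 2) * (c + x.1 * l2 + κ * x.1 ^ 2) -
        (b + (x.1 * l1 - x.2 * l2) / 2 - κ * (x.1 * x.2)) ^ 2 =
          (a * c - b ^ 2) * Wb Q l k x x) ∧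
      ∀ u, Bf (a - x.2 * l1 + κ * x.2 ^ 2, b + (x.1 * l1 - x.2 * l2) / 2 - κ * (x.1 * x.2),
        c + x.1 * l2 + κ * x.1 ^ 2) u u = (a * c - b ^ 2) ^ 2 * Dx Q l k x u := by
  set δ := a * c - b ^ 2 with hδ_def
  have hδ0 : δ ≠ 0 := hδ.ne'
  refine ⟨(a / δ ^ 2, b / δ ^ 2, c / δ ^ 2),
    ((a * l2 - b * l1) / (2 * δ), -((c * l1 - b * l2) / (2 * δ))),
    ((a * ((c * l1 - b * l2) / (2 * δ)) ^ 2 + 2 * b * ((c * l1 - b * l2) / (2 * δ)) *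
      ((a * l2 - b * l1) / (2 * δ)) + c * ((a * l2 - b * l1) / (2 * δ)) ^ 2) - κ) * δ,
    by positivity, ?_, ?_⟩
  · have : a / δ ^ 2 * (c / δ ^ 2) - (b / δ ^ 2) ^ 2 = δ / δ ^ 4 := by
      rw [hδ_def]; field_simp
    simp only
    rw [this]; positivity
  · intro x
    constructor
    · simp only [Wb, lam, Bf]
      field_simp
      rw [hδ_def]
      ring
    · intro u
      simp only [Dx, lam, Bf]
      field_simp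
      rw [hδ_def]
      ring

end Pool.Agent.Work.MP_594704_gt
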