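import Pool.Agent.Work.MP_594704_gt.Basic

set_option autoImplicit false

open Set Filter Topology

namespace Pool.Agent.Work.MP_594704_gt

variable {E : Type*} [NormedAddCommGroup E] [NormedSpace ℝ E]

lemma mem_segment_opp (x y : E) {ρ : ℝ} (hρ : 0 ≤ ρ) :
    x ∈ segment ℝ y (x + ρ • (x - y)) := by
  have h1 : (0 : ℝ) < 1 + ρ := by linarith
  refine ⟨ρ / (1 + ρ), 1 / (1 + ρ), by positivity, by positivity, by field_simp; ring, ?_⟩
  have : (ρ / (1 + ρ)) • y + (1 / (1 + ρ)) • (x + ρ • (x - y)) =
      ((ρ / (1 + ρ)) - (1 / (1 + ρ)) * ρ) • y + ((1 / (1 + ρ)) * (1 + ρ)) • x := by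
    module
  rw [this]
  have e1 : (ρ / (1 + ρ)) - (1 / (1 + ρ)) * ρ = 0 := by field_simp; ring
  have e2 : (1 / (1 + ρ)) * (1 + ρ) = 1 := by field_simp
  rw [e1, e2]; simp

namespace PMS

variable {M : Set E} {d : E → E → ℝ} (h : PMS M d)
include h

lemma seg {x y z : E} (hx : x ∈ M) (hy : y ∈ M) (hz : y ∈ segment ℝ x z) (hzM : z ∈ M) :
    d x y + d y z = d x z := (h.btw x hx y hy z hzM).mpr hz

/-- Key lemma: if `x` lies between `y` and `ys` then `d y + d ys` is stationary at `x`. -/
lemma key {α : Type*} {l : Filter α} {z : α → E} {x y : E} {ρ : ℝ} (hρ : 0 < ρ)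
    (hx : x ∈ M) (hy : y ∈ M) (hyx : y ≠ x) (hys : x + ρ • (x - y) ∈ M)
    (hz : Tendsto z l (𝓝 x)) :
    ∃ ε : α → ℝ, Tendsto ε l (𝓝 0) ∧ ∀ᶠ a in l,
      d y (z a) + d (x + ρ • (x - y)) (z a) - (d y x + d (x + ρ • (x - y)) x)
        ≤ ε a * d x (z a) := by
  set ys := x + ρ • (x - y) with hys_def
  have hysx : ys ≠ x := by
    intro e
    have : ρ • (x - y) = 0 := by
      have : ys - x = ρ • (x - y) := by rw [hys_def]; abel
      rw [← this, e, sub_self]
    rcases smul_eq_zero.mp this with h0 | h0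
    · exact hρ.ne' h0
    · exact hyx (sub_eq_zero.mp h0).symm
  set y' : α → E := fun a => z a + ρ • (z a - y) with hy'_def
  have hy't : Tendsto y' l (𝓝 ys) := by
    have : Tendsto (fun a => z a + ρ • (z a - y)) l (𝓝 (x + ρ • (x - y))) :=
      hz.add ((hz.sub_const y).const_smul ρ)
    exact this
  have hdys := h.tendsto_dist hys hx (tendsto_const_nhds (x := ys)) hz
  have hpos : 0 < d ys x := h.pos hys hx hysx
  have hnum : Tendsto (fun a => 2 * d (y' a) ys) l (𝓝 0) := by
    have := (h.tendsto_dist hys hys hy't (tendsto_const_nhds (x := ys))).const_mul 2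
    rwa [h.self ys hys, mul_zero] at this
  refine ⟨fun a => 2 * d (y' a) ys / d ys (z a), ?_, ?_⟩
  · have := hnum.div hdys hpos.ne'
    rwa [zero_div] at this
  · filter_upwards [h.eventually_mem hx hz, h.eventually_mem hys hy't,
      hdys.eventually (eventually_gt_nhds hpos)] with a hza hy'a hda
    have s1 := h.seg hy hza (mem_segment_opp (z a) y hρ.le) hy'a
    have t1 := h.tri y hy x hx (y' a) hy'a
    have m1 := h.mixed hy'a hys hx hza
    have m2 : (d (y' a) x - d (y' a) (z a)) - (d ys x - d ys (z a)) ≤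
        2 * d (y' a) ys / d ys (z a) * d x (z a) := by
      rw [div_mul_eq_mul_div, le_div_iff₀ hda]
      exact (mul_le_mul_of_nonneg_right (le_abs_self _) hda.le).trans m1
    have e1 := h.symm (z a) hza (y' a) hy'a
    have e2 := h.symm x hx (y' a) hy'a
    change d y (z a) + d (z a) (y' a) = d y (y' a) at s1
    linarith

/-- Existence of the arclength parametrization of a line. -/
lemma exists_param {x w : E} (hx : x ∈ M) (hw : w ≠ 0) : ∃ τ : ℝ → ℝ, IsParam M d x w τ := by
  obtain ⟨f, hf, hr⟩ := h.line x hx w hw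
  have hmem : ∀ s, f s ∈ M ∧ ∃ t : ℝ, f s = x + t • w := fun s => by
    have : f s ∈ Set.range f := ⟨s, rfl⟩
    rw [hr] at this; exact this
  choose t ht using fun s => (hmem s).2
  have hfc : Continuous f := by
    rw [continuous_iff_continuousAt]
    intro s
    refine h.tendsto_of_dist_zero (hmem s).1 (Eventually.of_forall fun r => (hmem r).1) ?_
    have : Tendsto (fun r => |s - r|) (𝓝 s) (𝓝 |s - s|) :=
      (continuous_const.sub continuous_id).abs.tendsto s
    rw [sub_self, abs_zero] at this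
    simpa only [hf] using this
  have hwn : 0 < ‖w‖ := norm_pos_iff.mpr hw
  have htn : ∀ s r, |t s - t r| = ‖f s - f r‖ / ‖w‖ := by
    intro s r
    rw [ht s, ht r, eq_div_iff hwn.ne']
    have : x + t s • w - (x + t r • w) = (t s - t r) • w := by rw [sub_smul]; abel
    rw [this, norm_smul, Real.norm_eq_abs]
  have htc : Continuous t := by
    rw [continuous_iff_continuousAt]
    intro s
    rw [ContinuousAt, tendsto_iff_dist_tendsto_zero]
    have h1 : Tendsto (fun r => ‖f r - f s‖ / ‖w‖) (𝓝 s) (𝓝 (‖f s - f s‖ / ‖w‖)) :=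
      ((hfc.sub continuous_const).norm.tendsto s).div_const _
    rw [sub_self, norm_zero, zero_div] at h1
    simpa only [Real.dist_eq, htn] using h1
  have htinj : Function.Injective t := by
    intro s r hsr
    have h1 : f s = f r := by rw [ht s, ht r, hsr]
    have h2 := hf s r
    rw [h1, h.self _ (hmem r).1] at h2
    exact sub_eq_zero.mp (abs_eq_zero.mp h2.symm)
  obtain ⟨s0, hs0⟩ : ∃ s0, f s0 = x := by
    have : x ∈ Set.range f := by rw [hr]; exact ⟨hx, 0, by simp⟩
    exact this
  have ht0 : t s0 = 0 := by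
    have := ht s0
    rw [hs0] at this
    have h2 : t s0 • w = 0 := by
      have h3 : x + t s0 • w = x + 0 := by rw [← this, add_zero]
      exact add_left_cancel h3
    rcases smul_eq_zero.mp h2 with h4 | h4
    · exact h4
    · exact absurd h4 hw
  have hsurj : ∀ r, x + r • w ∈ M → ∃ s, t s = r := by
    intro r hrM
    have : x + r • w ∈ Set.range f := by rw [hr]; exact ⟨hrM, r, rfl⟩
    obtain ⟨s, hs⟩ := this
    refine ⟨s, ?_⟩
    have h1 := ht s
    rw [hs] at h1
    have h2 : (r - t s) • w = 0 := by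
      rw [sub_smul, sub_eq_zero]; exact add_left_cancel h1
    rcases smul_eq_zero.mp h2 with h4 | h4
    · linarith
    · exact absurd h4 hw
  rcases htc.strictMono_of_inj htinj with hm | hm
  · refine ⟨fun s => t (s0 + s), ?_, ?_, ?_, ?_, ?_, ?_⟩
    · intro a b hab; exact hm (by linarith)
    · exact htc.comp (continuous_const.add continuous_id)
    · simpa using ht0
    · intro s; rw [← ht]; exact (hmem _).1
    · intro s r; rw [← ht, ← ht, hf]; congr 1; ring
    · intro r hrM
      obtain ⟨s, hs⟩ := hsurj r hrM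
      exact ⟨s - s0, by rw [← hs]; congr 1; ring⟩
  · refine ⟨fun s => t (s0 - s), ?_, ?_, ?_, ?_, ?_, ?_⟩
    · intro a b hab; exact hm (by linarith)
    · exact htc.comp (continuous_const.sub continuous_id)
    · simpa using ht0
    · intro s; rw [← ht]; exact (hmem _).1
    · intro s r; rw [← ht, ← ht, hf, abs_sub_comm]; congr 1; ring
    · intro r hrM
      obtain ⟨s, hs⟩ := hsurj r hrM
      exact ⟨s0 - s, by rw [← hs]; congr 1; ring⟩

end PMS

namespace IsParam

variable {M : Set E} {d : E → E → ℝ} {x w : E} {τ : ℝ → ℝ}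

/-- Shifting the base point of a parametrization. -/
lemma shift (hτ : IsParam M d x w τ) (s : ℝ) :
    IsParam M d (x + τ s • w) w (fun r => τ (s + r) - τ s) := by
  have e : ∀ r, x + τ s • w + (τ (s + r) - τ s) • w = x + τ (s + r) • w := by
    intro r; rw [sub_smul]; abel
  refine ⟨?_, ?_, ?_, ?_, ?_, ?_⟩
  · intro a b hab
    have := hτ.mono (show s + a < s + b by linarith)
    simpa using this
  · exact (hτ.cont.comp (continuous_const.add continuous_id)).sub continuous_const
  · simp
  · intro r; rw [e]; exact hτ.mem _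
  · intro r r'; rw [e, e, hτ.dist]; congr 1; ring
  · intro t ht
    have : x + (τ s + t) • w ∈ M := by
      rw [add_smul, ← add_assoc]; exact ht
    obtain ⟨r, hr⟩ := hτ.surj _ this
    refine ⟨r - s, ?_⟩
    have e2 : s + (r - s) = r := by ring
    simp only [e2, hr]; ring

lemma tendsto_pt (hτ : IsParam M d x w τ) (s : ℝ) :
    Tendsto (fun r => x + τ r • w) (𝓝 s) (𝓝 (x + τ s • w)) :=
  (continuous_const.add (hτ.cont.smul continuous_const)).tendsto s

/-- Reversing the direction of a parametrization. -/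
lemma neg (hτ : IsParam M d x w τ) : IsParam M d x (-w) (fun r => -τ (-r)) := by
  have e : ∀ r, x + (-τ (-r)) • (-w) = x + τ (-r) • w := by
    intro r; rw [neg_smul_neg]
  refine ⟨?_, ?_, ?_, ?_, ?_, ?_⟩
  · intro a b hab
    have := hτ.mono (show -b < -a by linarith)
    simpa using this
  · exact (hτ.cont.comp continuous_neg).neg
  · simp [hτ.zero]
  · intro r; rw [e]; exact hτ.mem _
  · intro r r'; rw [e, e, hτ.dist, abs_sub_comm]; congr 1; ring
  · intro t ht
    have : x + (-t) • w ∈ M := by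
      rw [neg_smul, ← smul_neg]; exact ht
    obtain ⟨r, hr⟩ := hτ.surj _ this
    exact ⟨-r, by simp [hr]⟩

end IsParam

namespace PMS

variable {M : Set E} {d : E → E → ℝ} (h : PMS M d)
include h

lemma convexOn_param {x w y : E} {τ : ℝ → ℝ} (hτ : IsParam M d x w τ) (hy : y ∈ M) :
    ConvexOn ℝ univ (fun s => d y (x + τ s • w)) := by
  refine ⟨convex_univ, ?_⟩
  intro s _ t _ a b ha hb hab
  simp only [smul_eq_mul]
  rcases eq_or_ne s t with rfl | hst
  · rw [← add_mul, hab, one_mul, ← add_mul, hab, one_mul]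
  have c := h.convex_dist hy (hτ.mem s) (hτ.mem t) (hτ.mem (a * s + b * t))
  rw [hτ.dist, hτ.dist, hτ.dist] at c
  have e1 : a * s + b * t - t = a * (s - t) := by
    have : b = 1 - a := by linarith
    rw [this]; ring
  have e2 : s - (a * s + b * t) = b * (s - t) := by
    have : a = 1 - b := by linarith
    rw [this]; ring
  rw [e1, e2, abs_mul, abs_mul, abs_of_nonneg ha, abs_of_nonneg hb] at c
  have hpos : 0 < |s - t| := abs_pos.mpr (sub_ne_zero.mpr hst)
  have c' : d y (x + τ (a * s + b * t) • w) * |s - t| ≤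
      (a * d y (x + τ s • w) + b * d y (x + τ t • w)) * |s - t| := by
    calc _ ≤ _ := c
      _ = _ := by ring
  exact le_of_mul_le_mul_right c' hpos

/-- Distance functions are differentiable along lines, away from their centre. -/
lemma differentiableAt_param {x w y : E} {τ : ℝ → ℝ} (hτ : IsParam M d x w τ) (hy : y ∈ M)
    (hyx : y ≠ x) : DifferentiableAt ℝ (fun s => d y (x + τ s • w)) 0 := by
  have hx : x ∈ M := by simpa [hτ.zero] using hτ.mem 0
  -- a point on the opposite side
  obtain ⟨ρ, hρ, hys⟩ : ∃ ρ : ℝ, 0 < ρ ∧ x + ρ • (x - y) ∈ M := by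
    have hc : Tendsto (fun ρ : ℝ => x + ρ • (x - y)) (𝓝 0) (𝓝 (x + (0 : ℝ) • (x - y))) :=
      (continuous_const.add (continuous_id.smul continuous_const)).tendsto 0
    rw [zero_smul, add_zero] at hc
    have h1 := (h.eventually_mem hx hc).filter_mono (nhdsWithin_le_nhds (s := Ioi 0))
    obtain ⟨ρ, h2, h3⟩ := (h1.and self_mem_nhdsWithin).exists
    exact ⟨ρ, h3, h2⟩
  set ys := x + ρ • (x - y) with hys_def
  have hc1 := h.convexOn_param hτ hy
  have hc2 := h.convexOn_param hτ hys
  have hmem : (0 : ℝ) ∈ interior (univ : Set ℝ) := by simp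
  have r1 := hc1.hasDerivWithinAt_rightDeriv_of_mem_interior hmem
  have r2 := hc2.hasDerivWithinAt_rightDeriv_of_mem_interior hmem
  have l1 := hc1.hasDerivWithinAt_leftDeriv_of_mem_interior hmem
  have l2 := hc2.hasDerivWithinAt_leftDeriv_of_mem_interior hmem
  have o1 := hc1.leftDeriv_le_rightDeriv_of_mem_interior hmem
  have o2 := hc2.leftDeriv_le_rightDeriv_of_mem_interior hmem
  -- the sum is stationary
  have hsum : HasDerivAt (fun s => d y (x + τ s • w) + d ys (x + τ s • w)) 0 0 := by
    have hz : Tendsto (fun s => x + τ s • w) (𝓝 0) (𝓝 x) := by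
      have := hτ.tendsto_pt 0
      simpa [hτ.zero] using this
    obtain ⟨ε, hε, hle⟩ := h.key hρ hx hy hyx hys hz
    rw [hasDerivAt_iff_tendsto]
    have hlim : Tendsto (fun s => |ε s|) (𝓝 0) (𝓝 0) := by simpa using hε.abs
    refine squeeze_zero' (Eventually.of_forall fun s => by positivity) ?_ hlim
    filter_upwards [hle] with s hs
    have hd : d x (x + τ s • w) = |s| := by
      have := hτ.dist 0 s
      simpa [hτ.zero] using this
    rw [hd] at hs
    have hseg := h.seg hy hx (mem_segment_opp x y hρ.le) hys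
    have htri := h.tri y hy (x + τ s • w) (hτ.mem s) ys hys
    rw [h.symm _ (hτ.mem s) ys hys] at htri
    rw [h.symm x hx ys hys] at hseg
    have hnn : 0 ≤ d y (x + τ s • w) + d ys (x + τ s • w) - (d y x + d ys x) := by linarith
    have e0 : x + τ 0 • w = x := by simp [hτ.zero]
    simp only [e0, sub_zero, smul_zero]
    rw [Real.norm_of_nonneg hnn, Real.norm_eq_abs]
    rcases eq_or_ne s 0 with rfl | hs0
    · simp
    · have hpos : 0 < |s| := abs_pos.mpr hs0
      rw [inv_mul_le_iff₀ hpos]
      calc _ ≤ ε s * |s| := hs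
        _ ≤ |ε s| * |s| := mul_le_mul_of_nonneg_right (le_abs_self _) hpos.le
        _ = |s| * |ε s| := mul_comm _ _
  have er := (uniqueDiffWithinAt_Ioi (0 : ℝ)).eq_deriv _ (r1.add r2)
    (hsum.hasDerivWithinAt (s := Ioi 0))
  have el := (uniqueDiffWithinAt_Iio (0 : ℝ)).eq_deriv _ (l1.add l2)
    (hsum.hasDerivWithinAt (s := Iio 0))
  have e1 : derivWithin (fun s => d y (x + τ s • w)) (Iio 0) 0 =
      derivWithin (fun s => d y (x + τ s • w)) (Ioi 0) 0 := by linarith
  rw [e1] at l1
  have r1' := hasDerivWithinAt_Ioi_iff_Ici.mp r1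
  have l1' := hasDerivWithinAt_Iio_iff_Iic.mp l1
  have := l1'.union r1'
  rw [Iic_union_Ici, hasDerivWithinAt_univ] at this
  exact this.differentiableAt

end PMS

end Pool.Agent.Work.MP_594704_gt
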