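import Pool.Agent.Work.MP_594704_gt.Wedge
import Pool.Agent.Work.MP_594704_gt.Day

set_option autoImplicit false

open Set Filter Topology

namespace Pool.Agent.Work.MP_594704_gt

/-- The functional with coordinates `p`. -/
noncomputable def LL (M : Set (ℝ × ℝ)) (d : ℝ × ℝ → ℝ × ℝ → ℝ) (x p y : ℝ × ℝ) : ℝ :=
  p.1 * cs M d x (1, 0) y + p.2 * cs M d x (0, 1) y

/-- The tangent norm. -/
noncomputable def NN (M : Set (ℝ × ℝ)) (d : ℝ × ℝ → ℝ × ℝ → ℝ) (x p : ℝ × ℝ) : ℝ :=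
  sSup (LL M d x p '' {y | y ∈ M ∧ y ≠ x})

section
variable {M : Set (ℝ × ℝ)} {d : ℝ × ℝ → ℝ × ℝ → ℝ}

lemma LL_add (x p q y : ℝ × ℝ) : LL M d x (p + q) y = LL M d x p y + LL M d x q y := by
  simp only [LL, Prod.fst_add, Prod.snd_add]; ring

lemma LL_smul (x p y : ℝ × ℝ) (t : ℝ) : LL M d x (t • p) y = t * LL M d x p y := by
  simp only [LL, Prod.smul_fst, Prod.smul_snd, smul_eq_mul]; ring

lemma LL_neg (x p y : ℝ × ℝ) : LL M d x (-p) y = - LL M d x p y := by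
  simp only [LL, Prod.fst_neg, Prod.snd_neg]; ring

lemma LL_sub (x p q y : ℝ × ℝ) : LL M d x (p - q) y = LL M d x p y - LL M d x q y := by
  simp only [LL, Prod.fst_sub, Prod.snd_sub]; ring

lemma e1_ne : ((1, 0) : ℝ × ℝ) ≠ 0 := by simp

lemma e2_ne : ((0, 1) : ℝ × ℝ) ≠ 0 := by simp

end

namespace PMS

variable {M : Set (ℝ × ℝ)} {d : ℝ × ℝ → ℝ × ℝ → ℝ} (h : PMS M d)
include h

lemma exists_other {x : ℝ × ℝ} (hx : x ∈ M) : ∃ y ∈ M, y ≠ x := by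
  obtain ⟨t, ht, hy⟩ := h.exists_on_ray hx ((1, 0) : ℝ × ℝ)
  exact ⟨_, hy, ne_of_smul ht.ne' e1_ne⟩

lemma LL_odd {x p y : ℝ × ℝ} {ρ : ℝ} (hρ : 0 < ρ) (hx : x ∈ M) (hy : y ∈ M)
    (hyx : y ≠ x) (hys : x + ρ • (x - y) ∈ M) :
    LL M d x p (x + ρ • (x - y)) = - LL M d x p y := by
  simp only [LL]
  rw [h.cs_opp hρ hx e1_ne hy hyx hys, h.cs_opp hρ hx e2_ne hy hyx hys]
  ring

lemma exists_fam {U : Ultrafilter ℝ} (hU : (U : Filter ℝ) ≤ 𝓝[>] 0) {x : ℝ × ℝ} (hx : x ∈ M)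
    (p : ℝ × ℝ) : ∃ z : ℝ → ℝ × ℝ, (∀ r, z r ∈ M) ∧ Tan U M d x z (LL M d x p) := by
  have hτ1 := h.prm_spec hx e1_ne
  have hτ2 := h.prm_spec hx e2_ne
  have hpos := Tan.pos_of_le hU
  have k1 : Tendsto (fun r : ℝ => 2 * p.1 * r / r) U (𝓝 (2 * p.1)) := by
    refine tendsto_const_nhds.congr' ?_
    filter_upwards [hpos] with r hr
    field_simp
  have k2 : Tendsto (fun r : ℝ => 2 * p.2 * r / r) U (𝓝 (2 * p.2)) := by
    refine tendsto_const_nhds.congr' ?_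
    filter_upwards [hpos] with r hr
    field_simp
  have T1 := Tan.ray h hU hτ1 k1
  have T2 := Tan.ray h hU hτ2 k2
  choose z hzM hz1 hz2 using fun r : ℝ => h.exists_mid (hτ1.mem (2 * p.1 * r)) (hτ2.mem (2 * p.2 * r))
  refine ⟨z, hzM, ?_⟩
  have T3 := Tan.seg h hx hU T1 T2 (z := z) (θ := fun _ => 1 / 2) (t := 1 / 2) tendsto_const_nhds
    (Eventually.of_forall fun r => by norm_num) (Eventually.of_forall hzM)
    (Eventually.of_forall hz1) (Eventually.of_forall hz2)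
    (fun y hy hyx ρ hρ hys => by rw [h.cs_opp hρ hx e1_ne hy hyx hys]; ring)
    (fun y hy hyx ρ hρ hys => by rw [h.cs_opp hρ hx e2_ne hy hyx hys]; ring)
  refine T3.congr fun y _ _ => ?_
  simp only [LL]; ring

lemma NN_spec {x : ℝ × ℝ} (hx : x ∈ M) (p : ℝ × ℝ) :
    ∃ y0 ∈ M, y0 ≠ x ∧ NN M d x p = LL M d x p y0 ∧
      ∀ y ∈ M, y ≠ x → |LL M d x p y| ≤ NN M d x p := by
  obtain ⟨U, hU⟩ := exists_ultra
  obtain ⟨z, -, hz⟩ := h.exists_fam hU hx p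
  obtain ⟨y0, hy0, hy0x, -, hmax⟩ := Tan.dist h hx hU (h.exists_other hx) (Tan.const h hx) hz
  simp only [sub_zero] at hmax
  have hN : NN M d x p = LL M d x p y0 := by
    apply IsGreatest.csSup_eq
    refine ⟨⟨y0, ⟨hy0, hy0x⟩, rfl⟩, ?_⟩
    rintro _ ⟨y, ⟨hy, hyx⟩, rfl⟩
    exact (le_abs_self _).trans (hmax y hy hyx)
  exact ⟨y0, hy0, hy0x, hN, fun y hy hyx => by rw [hN]; exact hmax y hy hyx⟩

lemma NN_dist {U : Ultrafilter ℝ} (hU : (U : Filter ℝ) ≤ 𝓝[>] 0) {x : ℝ × ℝ} (hx : x ∈ M)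
    {p p' : ℝ × ℝ} {z z' : ℝ → ℝ × ℝ} (hz : Tan U M d x z (LL M d x p))
    (hz' : Tan U M d x z' (LL M d x p')) :
    Tendsto (fun r => d (z r) (z' r) / r) U (𝓝 (NN M d x (p' - p))) := by
  obtain ⟨y0, hy0, hy0x, hl, hmax⟩ := Tan.dist h hx hU (h.exists_other hx) hz hz'
  have hN : NN M d x (p' - p) = LL M d x p' y0 - LL M d x p y0 := by
    apply IsGreatest.csSup_eq
    refine ⟨⟨y0, ⟨hy0, hy0x⟩, LL_sub _ _ _ _⟩, ?_⟩
    rintro _ ⟨y, ⟨hy, hyx⟩, rfl⟩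
    rw [LL_sub]
    exact (le_abs_self _).trans (hmax y hy hyx)
  rw [hN]; exact hl

lemma NN_smul {x : ℝ × ℝ} (hx : x ∈ M) (t : ℝ) (p : ℝ × ℝ) :
    NN M d x (t • p) = |t| * NN M d x p := by
  obtain ⟨y0, hy0, hy0x, e0, h0⟩ := h.NN_spec hx p
  obtain ⟨y1, hy1, hy1x, e1, h1⟩ := h.NN_spec hx (t • p)
  apply le_antisymm
  · rw [e1, LL_smul]
    calc t * LL M d x p y1 ≤ |t * LL M d x p y1| := le_abs_self _
      _ = |t| * |LL M d x p y1| := abs_mul _ _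
      _ ≤ _ := mul_le_mul_of_nonneg_left (h0 y1 hy1 hy1x) (abs_nonneg _)
  · calc |t| * NN M d x p = |t| * LL M d x p y0 := by rw [e0]
      _ ≤ |t| * |LL M d x p y0| := mul_le_mul_of_nonneg_left (le_abs_self _) (abs_nonneg _)
      _ = |LL M d x (t • p) y0| := by rw [LL_smul, abs_mul]
      _ ≤ _ := h1 y0 hy0 hy0x

lemma NN_add_le {x : ℝ × ℝ} (hx : x ∈ M) (p q : ℝ × ℝ) :
    NN M d x (p + q) ≤ NN M d x p + NN M d x q := by
  obtain ⟨y0, hy0, hy0x, e0, h0⟩ := h.NN_spec hx (p + q)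
  obtain ⟨_, _, _, _, h1⟩ := h.NN_spec hx p
  obtain ⟨_, _, _, _, h2⟩ := h.NN_spec hx q
  rw [e0, LL_add]
  have a1 := (le_abs_self _).trans (h1 y0 hy0 hy0x)
  have a2 := (le_abs_self _).trans (h2 y0 hy0 hy0x)
  linarith

omit h in
lemma lin12 : ∀ s t : ℝ, s • ((1, 0) : ℝ × ℝ) + t • ((0, 1) : ℝ × ℝ) = 0 → s = 0 ∧ t = 0 := by
  intro s t e
  have h1 := congrArg Prod.fst e
  have h2 := congrArg Prod.snd e
  simp at h1 h2
  exact ⟨h1, h2⟩

lemma NN_pos {x : ℝ × ℝ} (hx : x ∈ M) (p : ℝ × ℝ) (hp : p ≠ 0) : 0 < NN M d x p := by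
  obtain ⟨_, _, _, _, h0⟩ := h.NN_spec hx p
  by_contra hcon
  push Not at hcon
  have hz : ∀ y ∈ M, y ≠ x → LL M d x p y = 0 := by
    intro y hy hyx
    have := (h0 y hy hyx).trans hcon
    exact abs_eq_zero.mp (le_antisymm this (abs_nonneg _))
  obtain ⟨t1, ht1, hy1⟩ := h.exists_on_ray hx ((1, 0) : ℝ × ℝ)
  obtain ⟨t2, ht2, hy2⟩ := h.exists_on_ray hx ((0, 1) : ℝ × ℝ)
  have m1 := hz _ hy1 (ne_of_smul ht1.ne' e1_ne)
  have m2 := hz _ hy2 (ne_of_smul ht2.ne' e2_ne)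
  simp only [LL] at m1 m2
  rw [h.cs_self ht1 hx e1_ne hy1] at m1
  rw [h.cs_self ht2 hx e2_ne hy2] at m2
  have off1 : ∀ s : ℝ, x + t1 • ((1, 0) : ℝ × ℝ) ≠ x + s • ((0, 1) : ℝ × ℝ) := by
    intro s e
    have := congrArg Prod.fst (add_left_cancel e)
    simp at this
    exact ht1.ne' this
  have off2 : ∀ s : ℝ, x + t2 • ((0, 1) : ℝ × ℝ) ≠ x + s • ((1, 0) : ℝ × ℝ) := by
    intro s e
    have := congrArg Prod.snd (add_left_cancel e)
    simp at this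
    exact ht2.ne' this
  have b1 := h.cs_lt_one hx e2_ne hy1 off1
  have b1' := h.neg_one_lt_cs hx e2_ne hy1 off1
  have b2 := h.cs_lt_one hx e1_ne hy2 off2
  have b2' := h.neg_one_lt_cs hx e1_ne hy2 off2
  set c1 := cs M d x (0, 1) (x + t1 • (1, 0))
  set c2 := cs M d x (1, 0) (x + t2 • (0, 1))
  have e1 : p.1 = -(p.2 * c1) := by linarith
  have e2 : p.2 = -(p.1 * c2) := by linarith
  have e3 : p.1 * (1 - c1 * c2) = 0 := by
    rw [mul_sub, mul_one]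
    nth_rewrite 1 [e1]
    rw [e2]; ring
  have hcc : c1 * c2 < 1 := by nlinarith [sq_nonneg (c1 - c2), sq_nonneg (c1 + c2)]
  have e4 : p.1 = 0 := by
    rcases mul_eq_zero.mp e3 with h0 | h0
    · exact h0
    · linarith
  have e5 : p.2 = 0 := by rw [e2, e4]; ring
  exact hp (Prod.ext e4 e5)

lemma NN_ptol {x : ℝ × ℝ} (hx : x ∈ M) (p q : ℝ × ℝ) :
    4 * NN M d x p * NN M d x q ≤ NN M d x (p + q) ^ 2 + NN M d x (p - q) ^ 2 := by
  obtain ⟨U, hU⟩ := exists_ultra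
  have hpos := Tan.pos_of_le hU
  obtain ⟨z1, hM1, hz1⟩ := h.exists_fam hU hx p
  obtain ⟨z2, hM2, hz2⟩ := h.exists_fam hU hx q
  obtain ⟨z3, hM3, hz3⟩ := h.exists_fam hU hx (-p)
  obtain ⟨z4, hM4, hz4⟩ := h.exists_fam hU hx (-q)
  have d13 := h.NN_dist hU hx hz1 hz3
  have d24 := h.NN_dist hU hx hz2 hz4
  have d12 := h.NN_dist hU hx hz1 hz2
  have d34 := h.NN_dist hU hx hz3 hz4
  have d23 := h.NN_dist hU hx hz2 hz3
  have d41 := h.NN_dist hU hx hz4 hz1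
  have hneg : ∀ p, NN M d x (-p) = NN M d x p := by
    intro p
    have := h.NN_smul hx (-1) p
    simpa using this
  have e13 : NN M d x (-p - p) = 2 * NN M d x p := by
    have : -p - p = (-2 : ℝ) • p := by module
    rw [this, h.NN_smul hx]; norm_num
  have e24 : NN M d x (-q - q) = 2 * NN M d x q := by
    have : -q - q = (-2 : ℝ) • q := by module
    rw [this, h.NN_smul hx]; norm_num
  have e12 : NN M d x (q - p) = NN M d x (p - q) := by rw [← hneg, neg_sub]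
  have e34 : NN M d x (-q - -p) = NN M d x (p - q) := by congr 1; abel
  have e23 : NN M d x (-p - q) = NN M d x (p + q) := by rw [← hneg]; congr 1; abel
  have e41 : NN M d x (p - -q) = NN M d x (p + q) := by congr 1; abel
  rw [e13] at d13
  rw [e24] at d24
  rw [e12] at d12
  rw [e34] at d34
  rw [e23] at d23
  rw [e41] at d41
  have hle := le_of_tendsto_of_tendsto (d13.mul d24) ((d12.mul d34).add (d23.mul d41)) (by
    filter_upwards [hpos] with r hr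
    have hp := h.ptol _ (hM1 r) _ (hM2 r) _ (hM3 r) _ (hM4 r)
    rw [div_mul_div_comm, div_mul_div_comm, div_mul_div_comm, ← add_div]
    exact div_le_div_of_nonneg_right hp (by positivity))
  nlinarith

/-- The tangent norm at `x` is Euclidean. -/
lemma exists_form {x : ℝ × ℝ} (hx : x ∈ M) : ∃ b : ℝ, b ^ 2 < 1 ∧ ∀ p : ℝ × ℝ,
    NN M d x p ^ 2 = p.1 ^ 2 + 2 * b * (p.1 * p.2) + p.2 ^ 2 := by
  obtain ⟨a, b, c, habc⟩ := Day.day (N := NN M d x) (h.NN_smul hx) (h.NN_add_le hx) (h.NN_pos hx)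
    (h.NN_ptol hx)
  have hN1 : NN M d x (1, 0) = 1 := by
    obtain ⟨y0, hy0, hy0x, e0, h0⟩ := h.NN_spec hx (1, 0)
    obtain ⟨t1, ht1, hy1⟩ := h.exists_on_ray hx ((1, 0) : ℝ × ℝ)
    apply le_antisymm
    · rw [e0]; simp only [LL, one_mul, zero_mul, add_zero]
      exact h.cs_le_one hx e1_ne hy0 hy0x
    · have := h0 _ hy1 (ne_of_smul ht1.ne' e1_ne)
      simp only [LL, one_mul, zero_mul, add_zero] at this
      rw [h.cs_self ht1 hx e1_ne hy1, abs_one] at this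
      exact this
  have hN2 : NN M d x (0, 1) = 1 := by
    obtain ⟨y0, hy0, hy0x, e0, h0⟩ := h.NN_spec hx (0, 1)
    obtain ⟨t1, ht1, hy1⟩ := h.exists_on_ray hx ((0, 1) : ℝ × ℝ)
    apply le_antisymm
    · rw [e0]; simp only [LL, one_mul, zero_mul, zero_add]
      exact h.cs_le_one hx e2_ne hy0 hy0x
    · have := h0 _ hy1 (ne_of_smul ht1.ne' e2_ne)
      simp only [LL, one_mul, zero_mul, zero_add] at this
      rw [h.cs_self ht1 hx e2_ne hy1, abs_one] at this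
      exact this
  have ha : a = 1 := by
    have := habc (1, 0)
    rw [hN1] at this
    simp at this; exact this.symm
  have hc : c = 1 := by
    have := habc (0, 1)
    rw [hN2] at this
    simp at this; exact this.symm
  subst ha hc
  refine ⟨b, ?_, fun p => by rw [habc p]; ring⟩
  have h1 := h.NN_pos hx (b, -1) (by simp)
  have h2 := habc (b, -1)
  have h3 : 0 < NN M d x (b, -1) ^ 2 := by positivity
  rw [h2] at h3
  nlinarith

end PMS

end Pool.Agent.Work.MP_594704_gt
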