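import Pool.Agent.Work.MP_594704_gt.Frame

set_option autoImplicit false

open Set Filter Topology

namespace Pool.Agent.Work.MP_594704_gt

/-- Perspectivity along the vertical direction through a point at height `q`. -/
noncomputable def fq (a b q ξ : ℝ) : ℝ := 1 / (1 / ξ + (b - a) / q)

lemma fq_pos {a b q ξ : ℝ} (hab : a < b) (hq : 0 < q) (hξ : 0 < ξ) : 0 < fq a b q ξ := by
  have : 0 < b - a := by linarith
  unfold fq; positivity

lemma inv_fq {a b q ξ : ℝ} : 1 / fq a b q ξ = 1 / ξ + (b - a) / q := by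
  unfold fq; rw [one_div_one_div]

lemma fq_seg {a b q ξ : ℝ} (x : ℝ × ℝ) (hab : a < b) (hq : 0 < q) (hξ : 0 < ξ) :
    x + fq a b q ξ • ((1, b) : ℝ × ℝ) ∈ segment ℝ (x + ξ • ((1, a) : ℝ × ℝ))
      (x + q • ((0, 1) : ℝ × ℝ)) := by
  have hba : 0 < b - a := by linarith
  have h1 := fq_pos hab hq hξ
  have h2 := inv_fq (a := a) (b := b) (q := q) (ξ := ξ)
  have h3 : 1 = fq a b q ξ / ξ + fq a b q ξ * ((b - a) / q) := by
    have : fq a b q ξ * (1 / fq a b q ξ) = 1 := by field_simp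
    rw [h2] at this
    rw [← this]; ring
  refine ⟨fq a b q ξ / ξ, fq a b q ξ * ((b - a) / q), by positivity, by positivity, h3.symm, ?_⟩
  have e : (fq a b q ξ / ξ) • (x + ξ • ((1, a) : ℝ × ℝ)) +
      (fq a b q ξ * ((b - a) / q)) • (x + q • ((0, 1) : ℝ × ℝ)) =
      (fq a b q ξ / ξ + fq a b q ξ * ((b - a) / q)) • x +
      ((fq a b q ξ / ξ * ξ) • ((1, a) : ℝ × ℝ) +
        (fq a b q ξ * ((b - a) / q) * q) • ((0, 1) : ℝ × ℝ)) := by module
  rw [e, ← h3, one_smul]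
  congr 1
  ext
  · simp; field_simp
  · simp; field_simp; ring

lemma mid_seg {a b ξ η ζ : ℝ} (x : ℝ × ℝ) (hξ : 0 < ξ) (hη : 0 < η) (hζ : 0 < ζ)
    (he : 1 / ζ = (1 / ξ + 1 / η) / 2) :
    x + ζ • ((1, (a + b) / 2) : ℝ × ℝ) ∈ segment ℝ (x + ξ • ((1, a) : ℝ × ℝ))
      (x + η • ((1, b) : ℝ × ℝ)) := by
  have h3 : ζ / (2 * ξ) + ζ / (2 * η) = 1 := by
    have : ζ * (1 / ζ) = 1 := by field_simp
    rw [he] at this
    rw [← this]; field_simp
  refine ⟨ζ / (2 * ξ), ζ / (2 * η), by positivity, by positivity, h3, ?_⟩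
  have e : (ζ / (2 * ξ)) • (x + ξ • ((1, a) : ℝ × ℝ)) + (ζ / (2 * η)) • (x + η • ((1, b) : ℝ × ℝ)) =
      (ζ / (2 * ξ) + ζ / (2 * η)) • x +
      ((ζ / (2 * ξ) * ξ) • ((1, a) : ℝ × ℝ) + (ζ / (2 * η) * η) • ((1, b) : ℝ × ℝ)) := by module
  rw [e, h3, one_smul]
  congr 1
  ext
  · simp; field_simp; ring
  · simp; field_simp

namespace PMS

variable {M : Set (ℝ × ℝ)} {d : ℝ × ℝ → ℝ × ℝ → ℝ} (h : PMS M d)
include h

omit h in
lemma slope_ne (m : ℝ) : ((1, m) : ℝ × ℝ) ≠ 0 := by simp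

/-- The point where the line from `x + q e₂` to the point at arclength `k r` on the ray of slope
`a` meets the ray of slope `b`. -/
lemma para {U : Ultrafilter ℝ} (hU : (U : Filter ℝ) ≤ 𝓝[>] 0) {x : ℝ × ℝ} (hx : x ∈ M)
    {a b q k : ℝ} (hab : a < b) (hq : 0 < q) (hk : 0 < k)
    (hQ : x + q • ((0, 1) : ℝ × ℝ) ∈ M) {τa : ℝ → ℝ} (hτa : IsParam M d x (1, a) τa)
    {pa pb : ℝ × ℝ} (hpa : HasC M d x (1, a) pa) (hpb : HasC M d x (1, b) pb) (hpa0 : 0 < pa.1)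
    (hpb0 : 0 < pb.1)
    {β : ℝ} (hβ1 : β ^ 2 < 1)
    (hβ : ∀ p : ℝ × ℝ, NN M d x p ^ 2 = p.1 ^ 2 + 2 * β * (p.1 * p.2) + p.2 ^ 2) :
    ∃ ρ : ℝ, 0 < ρ ∧ ρ * pb.1 = k * pa.1 ∧
      Tan U M d x (fun r => x + fq a b q (τa (k * r)) • ((1, b) : ℝ × ℝ)) (LL M d x (ρ • pb)) := by
  have hpos := Tan.pos_of_le hU
  have hτb := h.prm_spec hx (slope_ne b)
  set τb := prm M d x (1, b)
  set Q0 := x + q • ((0, 1) : ℝ × ℝ) with hQ0
  have hQx : Q0 ≠ x := ne_of_smul hq.ne' e2_ne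
  have hξ : ∀ r, 0 < r → 0 < τa (k * r) := fun r hr => hτa.pos_iff.mpr (by positivity)
  have hBseg : ∀ r, 0 < r → x + fq a b q (τa (k * r)) • ((1, b) : ℝ × ℝ) ∈
      segment ℝ (x + τa (k * r) • ((1, a) : ℝ × ℝ)) Q0 := fun r hr => fq_seg x hab hq (hξ r hr)
  have hBM : ∀ r, 0 < r → x + fq a b q (τa (k * r)) • ((1, b) : ℝ × ℝ) ∈ M := fun r hr =>
    h.convex.segment_subset (hτa.mem _) hQ (hBseg r hr)
  have hex : ∀ r, ∃ s, 0 < r → τb s = fq a b q (τa (k * r)) := by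
    intro r
    by_cases hr : 0 < r
    · obtain ⟨s, hs⟩ := hτb.surj _ (hBM r hr)
      exact ⟨s, fun _ => hs⟩
    · exact ⟨0, fun h => absurd h hr⟩
  choose s hs using hex
  have hspos : ∀ r, 0 < r → 0 < s r := fun r hr =>
    hτb.pos_iff.mp (by rw [hs r hr]; exact fq_pos hab hq (hξ r hr))
  -- the bound on `s`
  have hoff : ∀ t : ℝ, Q0 ≠ x + t • ((1, b) : ℝ × ℝ) := by
    intro t e
    have e2 := add_left_cancel e
    have h1 := congrArg Prod.fst e2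
    have h2 := congrArg Prod.snd e2
    simp at h1 h2
    subst h1
    simp at h2
    exact hq.ne' h2
  have hc := h.cs_lt_one hx (slope_ne b) hQ hoff
  set c := cs M d x (1, b) Q0
  have hsle : ∀ r, 0 < r → s r / r ≤ 2 * k / (1 - c) := by
    intro r hr
    have hA := hτa.mem (k * r)
    have hB := hBM r hr
    have e1 := h.seg hA hB (hBseg r hr) hQ
    have e2 := h.le_param hτb hQ hQx (s r)
    rw [hs r hr] at e2
    have e3 := hτb.dist0 (s r)
    rw [hs r hr, abs_of_pos (hspos r hr)] at e3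
    have e4 := hτa.dist0 (k * r)
    rw [abs_of_pos (by positivity)] at e4
    have e5 := h.tri _ hQ _ hx _ hA
    have e6 := h.tri _ hx _ hA _ hB
    rw [h.symm _ hB _ hQ, h.symm _ hA _ hQ] at e1
    have hc' : 0 < 1 - c := by linarith
    rw [div_le_div_iff₀ hr hc']
    change d Q0 x - c * s r ≤ _ at e2
    nlinarith
  obtain ⟨ρ, hρ0, -, hρ⟩ := ultra_lim (U := U) (f := fun r => s r / r) (a := 0)
    (b := 2 * k / (1 - c)) (by
    filter_upwards [hpos] with r hr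
    exact ⟨div_nonneg (hspos r hr).le hr.le, hsle r hr⟩)
  have TB : Tan U M d x (fun r => x + fq a b q (τa (k * r)) • ((1, b) : ℝ × ℝ))
      (LL M d x (ρ • pb)) := by
    refine ((Tan.ray h hU hτb hρ).congr_fam ?_).congr ?_
    · filter_upwards [hpos] with r hr
      rw [hs r hr]
    · intro y hy hyx
      rw [hpb y hy hyx, LL_smul]
  have hkr : Tendsto (fun r : ℝ => k * r / r) U (𝓝 k) := by
    refine tendsto_const_nhds.congr' ?_
    filter_upwards [hpos] with r hr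
    field_simp
  have TA : Tan U M d x (fun r => x + τa (k * r) • ((1, a) : ℝ × ℝ)) (LL M d x (k • pa)) := by
    refine (Tan.ray h hU hτa hkr).congr ?_
    intro y hy hyx
    rw [hpa y hy hyx, LL_smul]
  -- the distance between `A` and `B`
  have D1 := h.NN_dist hU hx TA TB
  have D2 := (TB.lim Q0 hQ hQx).sub (TA.lim Q0 hQ hQx)
  rw [← LL_sub] at D2
  have D3 := D1.congr' (f₂ := fun r => (d Q0 x - d Q0 (x + fq a b q (τa (k * r)) •
      ((1, b) : ℝ × ℝ))) / r - (d Q0 x - d Q0 (x + τa (k * r) • ((1, a) : ℝ × ℝ))) / r) (by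
    filter_upwards [hpos] with r hr
    have hA := hτa.mem (k * r)
    have hB := hBM r hr
    have e1 := h.seg hA hB (hBseg r hr) hQ
    rw [h.symm _ hB _ hQ, h.symm _ hA _ hQ] at e1
    rw [← sub_div]
    congr 1
    linarith)
  have D4 := tendsto_nhds_unique D2 D3
  rw [h.LL_ray hx e2_ne (hasC_e2) hβ hq hQ] at D4
  set D := ρ • pb - k • pa with hD
  have D5 := hβ D
  rw [← D4] at D5
  have D6 : (1 - β ^ 2) * D.1 ^ 2 = 0 := by
    simp only at D5
    nlinarith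
  have D7 : D.1 = 0 := by
    rcases mul_eq_zero.mp D6 with h0 | h0
    · linarith
    · exact pow_eq_zero_iff (two_ne_zero) |>.mp h0
  have D8 : ρ * pb.1 = k * pa.1 := by
    simp only [hD, Prod.fst_sub, Prod.smul_fst, smul_eq_mul] at D7
    linarith
  refine ⟨ρ, ?_, D8, TB⟩
  by_contra hcon
  push Not at hcon
  have : ρ * pb.1 ≤ 0 := mul_nonpos_of_nonpos_of_nonneg hcon hpb0.le
  rw [D8] at this
  have : 0 < k * pa.1 := by positivity
  linarith

/-- Projectivity: the slopes of unit tangent vectors satisfy Jensen's equation. -/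
lemma slope_mid {x : ℝ × ℝ} (hx : x ∈ M) {a b : ℝ} (hab : a < b) {pa pb pm : ℝ × ℝ}
    (hpa : HasC M d x (1, a) pa) (hpb : HasC M d x (1, b) pb)
    (hpm : HasC M d x (1, (a + b) / 2) pm) (hpa0 : 0 < pa.1) (hpb0 : 0 < pb.1)
    (hpm0 : 0 < pm.1) : pm.2 / pm.1 = (pa.2 / pa.1 + pb.2 / pb.1) / 2 := by
  obtain ⟨U, hU⟩ := exists_ultra
  obtain ⟨β, hβ1, hβ⟩ := h.exists_form hx
  have hpos := Tan.pos_of_le hU
  obtain ⟨q, hq, hQ⟩ := h.exists_on_ray hx ((0, 1) : ℝ × ℝ)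
  have hτa := h.prm_spec hx (slope_ne a)
  have hτm := h.prm_spec hx (slope_ne ((a + b) / 2))
  set τa := prm M d x (1, a)
  set τm := prm M d x (1, (a + b) / 2)
  obtain ⟨ρ1, hρ1, e1, T1⟩ := h.para hU hx hab hq one_pos hQ hτa hpa hpb hpa0 hpb0 hβ1 hβ
  obtain ⟨ρ2, hρ2, e2, T2⟩ := h.para hU hx hab hq two_pos hQ hτa hpa hpb hpa0 hpb0 hβ1 hβ
  simp only [one_mul] at e1 T1
  have hρ12 : ρ2 = 2 * ρ1 := by
    have : ρ2 * pb.1 = 2 * ρ1 * pb.1 := by rw [e2, ← e1]; ring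
    exact mul_right_cancel₀ hpb0.ne' this
  have hξ : ∀ r, 0 < r → 0 < τa r := fun r hr => hτa.pos_iff.mpr hr
  have hξ2 : ∀ r, 0 < r → 0 < τa (2 * r) := fun r hr => hτa.pos_iff.mpr (by positivity)
  set ζ : ℝ → ℝ := fun r => 2 / (1 / τa r + 1 / fq a b q (τa (2 * r))) with hζ_def
  have hf1 : ∀ r, 0 < r → 0 < fq a b q (τa r) := fun r hr => fq_pos hab hq (hξ r hr)
  have hf2 : ∀ r, 0 < r → 0 < fq a b q (τa (2 * r)) := fun r hr => fq_pos hab hq (hξ2 r hr)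
  have hζ : ∀ r, 0 < r → 0 < ζ r := by
    intro r hr
    have h1 := hξ r hr
    have h2 := hf2 r hr
    simp only [hζ_def]; positivity
  have hζ1 : ∀ r, 0 < r → 1 / ζ r = (1 / τa r + 1 / fq a b q (τa (2 * r))) / 2 := by
    intro r hr
    simp only [hζ_def]
    rw [one_div_div]
  have hζ2 : ∀ r, 0 < r → 1 / ζ r = (1 / τa (2 * r) + 1 / fq a b q (τa r)) / 2 := by
    intro r hr
    rw [hζ1 r hr, inv_fq, inv_fq]
    ring
  have S1 : ∀ r, 0 < r → x + ζ r • ((1, (a + b) / 2) : ℝ × ℝ) ∈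
      segment ℝ (x + τa r • ((1, a) : ℝ × ℝ)) (x + fq a b q (τa (2 * r)) • ((1, b) : ℝ × ℝ)) :=
    fun r hr => mid_seg x (hξ r hr) (hf2 r hr) (hζ r hr) (hζ1 r hr)
  have S2 : ∀ r, 0 < r → x + ζ r • ((1, (a + b) / 2) : ℝ × ℝ) ∈
      segment ℝ (x + τa (2 * r) • ((1, a) : ℝ × ℝ)) (x + fq a b q (τa r) • ((1, b) : ℝ × ℝ)) :=
    fun r hr => mid_seg x (hξ2 r hr) (hf1 r hr) (hζ r hr) (hζ2 r hr)
  have hB2 : ∀ r, 0 < r → x + fq a b q (τa (2 * r)) • ((1, b) : ℝ × ℝ) ∈ M := fun r hr =>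
    h.convex.segment_subset (hτa.mem _) hQ (fq_seg x hab hq (hξ2 r hr))
  have hB1 : ∀ r, 0 < r → x + fq a b q (τa r) • ((1, b) : ℝ × ℝ) ∈ M := fun r hr =>
    h.convex.segment_subset (hτa.mem _) hQ (fq_seg x hab hq (hξ r hr))
  have hPM : ∀ r, 0 < r → x + ζ r • ((1, (a + b) / 2) : ℝ × ℝ) ∈ M := fun r hr =>
    h.convex.segment_subset (hτa.mem _) (hB2 r hr) (S1 r hr)
  -- metric ratios
  have hex1 : ∀ r, ∃ θ : ℝ, 0 < r → 0 ≤ θ ∧ θ ≤ 1 ∧
      d (x + ζ r • ((1, (a + b) / 2) : ℝ × ℝ)) (x + fq a b q (τa (2 * r)) • ((1, b) : ℝ × ℝ)) =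
        θ * d (x + τa r • ((1, a) : ℝ × ℝ)) (x + fq a b q (τa (2 * r)) • ((1, b) : ℝ × ℝ)) ∧
      d (x + τa r • ((1, a) : ℝ × ℝ)) (x + ζ r • ((1, (a + b) / 2) : ℝ × ℝ)) =
        (1 - θ) * d (x + τa r • ((1, a) : ℝ × ℝ))
          (x + fq a b q (τa (2 * r)) • ((1, b) : ℝ × ℝ)) := by
    intro r
    by_cases hr : 0 < r
    · obtain ⟨θ, h1⟩ := h.exists_ratio (hτa.mem r) (hB2 r hr) (S1 r hr)
      exact ⟨θ, fun _ => h1⟩
    · exact ⟨0, fun h => absurd h hr⟩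
  choose θ hθ using hex1
  have hex2 : ∀ r, ∃ θ : ℝ, 0 < r → 0 ≤ θ ∧ θ ≤ 1 ∧
      d (x + ζ r • ((1, (a + b) / 2) : ℝ × ℝ)) (x + fq a b q (τa r) • ((1, b) : ℝ × ℝ)) =
        θ * d (x + τa (2 * r) • ((1, a) : ℝ × ℝ)) (x + fq a b q (τa r) • ((1, b) : ℝ × ℝ)) ∧
      d (x + τa (2 * r) • ((1, a) : ℝ × ℝ)) (x + ζ r • ((1, (a + b) / 2) : ℝ × ℝ)) =
        (1 - θ) * d (x + τa (2 * r) • ((1, a) : ℝ × ℝ))
          (x + fq a b q (τa r) • ((1, b) : ℝ × ℝ)) := by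
    intro r
    by_cases hr : 0 < r
    · obtain ⟨θ, h1⟩ := h.exists_ratio (hτa.mem (2 * r)) (hB1 r hr) (S2 r hr)
      exact ⟨θ, fun _ => h1⟩
    · exact ⟨0, fun h => absurd h hr⟩
  choose θ' hθ' using hex2
  obtain ⟨t, ht0, ht1, htl⟩ := ultra_lim (U := U) (f := θ) (a := 0) (b := 1) (by
    filter_upwards [hpos] with r hr
    exact ⟨(hθ r hr).1, (hθ r hr).2.1⟩)
  obtain ⟨t', ht0', ht1', htl'⟩ := ultra_lim (U := U) (f := θ') (a := 0) (b := 1) (by
    filter_upwards [hpos] with r hr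
    exact ⟨(hθ' r hr).1, (hθ' r hr).2.1⟩)
  have hid1 : Tendsto (fun r : ℝ => r / r) U (𝓝 1) := by
    refine tendsto_const_nhds.congr' ?_
    filter_upwards [hpos] with r hr
    rw [div_self hr.ne']
  have hid2 : Tendsto (fun r : ℝ => 2 * r / r) U (𝓝 2) := by
    refine tendsto_const_nhds.congr' ?_
    filter_upwards [hpos] with r hr
    field_simp
  have TA1 : Tan U M d x (fun r => x + τa r • ((1, a) : ℝ × ℝ)) (LL M d x pa) := by
    refine (Tan.ray h hU hτa hid1).congr ?_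
    intro y hy hyx
    rw [hpa y hy hyx, one_mul]
  have TA2 : Tan U M d x (fun r => x + τa (2 * r) • ((1, a) : ℝ × ℝ))
      (LL M d x ((2 : ℝ) • pa)) := by
    refine (Tan.ray h hU hτa hid2).congr ?_
    intro y hy hyx
    rw [hpa y hy hyx, LL_smul]
  have odd : ∀ p : ℝ × ℝ, ∀ y ∈ M, y ≠ x → ∀ ρ : ℝ, 0 < ρ → x + ρ • (x - y) ∈ M →
      LL M d x p (x + ρ • (x - y)) = - LL M d x p y :=
    fun p y hy hyx ρ hρ hys => h.LL_odd hρ hx hy hyx hys
  have P1 := Tan.seg h hx hU TA1 T2 (z := fun r => x + ζ r • ((1, (a + b) / 2) : ℝ × ℝ)) htl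
    (by filter_upwards [hpos] with r hr using ⟨(hθ r hr).1, (hθ r hr).2.1⟩)
    (by filter_upwards [hpos] with r hr using hPM r hr)
    (by filter_upwards [hpos] with r hr using (hθ r hr).2.2.1)
    (by filter_upwards [hpos] with r hr using (hθ r hr).2.2.2) (odd _) (odd _)
  have P2 := Tan.seg h hx hU TA2 T1 (z := fun r => x + ζ r • ((1, (a + b) / 2) : ℝ × ℝ)) htl'
    (by filter_upwards [hpos] with r hr using ⟨(hθ' r hr).1, (hθ' r hr).2.1⟩)
    (by filter_upwards [hpos] with r hr using hPM r hr)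
    (by filter_upwards [hpos] with r hr using (hθ' r hr).2.2.1)
    (by filter_upwards [hpos] with r hr using (hθ' r hr).2.2.2) (odd _) (odd _)
  -- the point on the middle ray
  have hex3 : ∀ r, ∃ s, 0 < r → τm s = ζ r := by
    intro r
    by_cases hr : 0 < r
    · obtain ⟨s, hs⟩ := hτm.surj _ (hPM r hr)
      exact ⟨s, fun _ => hs⟩
    · exact ⟨0, fun h => absurd h hr⟩
  choose s hs using hex3
  obtain ⟨ρ, hρ0, hρ⟩ := Tan.on_ray h hU P1 hτm (s := s) (by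
    filter_upwards [hpos] with r hr
    refine ⟨by rw [hs r hr], ?_⟩
    exact (hτm.pos_iff.mp (by rw [hs r hr]; exact hζ r hr)).le)
  have E1 : t • pa + (1 - t) • (ρ2 • pb) = ρ • pm := by
    apply h.LL_inj hx
    intro y hy hyx
    have := hρ y hy hyx
    rw [hpm y hy hyx] at this
    rw [LL_add, LL_smul, LL_smul (t := 1 - t), LL_smul (t := ρ)]
    exact this
  have E2 : t • pa + (1 - t) • (ρ2 • pb) = t' • ((2 : ℝ) • pa) + (1 - t') • (ρ1 • pb) := by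
    apply h.LL_inj hx
    intro y hy hyx
    have := P1.unique P2 hy hyx
    rw [LL_add, LL_smul, LL_smul (t := 1 - t), LL_add, LL_smul (t := t'), LL_smul (t := 1 - t')]
    exact this
  have E11 := congrArg Prod.fst E1
  have E12 := congrArg Prod.snd E1
  have E21 := congrArg Prod.fst E2
  have E22 := congrArg Prod.snd E2
  simp only [Prod.fst_add, Prod.snd_add, Prod.smul_fst, Prod.smul_snd, smul_eq_mul] at E11 E12 E21 E22
  rw [hρ12] at E11 E12 E21 E22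
  -- slopes
  set sa := pa.2 / pa.1 with hsa
  set sb := pb.2 / pb.1 with hsb
  set sm := pm.2 / pm.1 with hsm
  have ea : pa.2 = sa * pa.1 := by rw [hsa]; field_simp
  have eb : pb.2 = sb * pb.1 := by rw [hsb]; field_simp
  have em : pm.2 = sm * pm.1 := by rw [hsm]; field_simp
  rw [ea, eb] at E12 E22
  rw [em] at E12
  -- replace `ρ1 * pb.1` by `pa.1`
  have F1 : (2 - t) * pa.1 = ρ * pm.1 := by
    have : t * pa.1 + (1 - t) * (2 * ρ1 * pb.1) = t * pa.1 + (1 - t) * (2 * (ρ1 * pb.1)) := by ring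
    rw [this, e1] at E11
    linarith
  have F2 : (t * sa + 2 * (1 - t) * sb) * pa.1 = sm * (ρ * pm.1) := by
    have : t * (sa * pa.1) + (1 - t) * (2 * ρ1 * (sb * pb.1)) =
      t * (sa * pa.1) + (1 - t) * (2 * sb * (ρ1 * pb.1)) := by ring
    rw [this, e1] at E12
    linarith
  have F3 : t' = 1 - t := by
    have a1 : t * pa.1 + (1 - t) * (2 * ρ1 * pb.1) = t * pa.1 + (1 - t) * (2 * (ρ1 * pb.1)) := by ring
    rw [a1, e1] at E21
    have : (t' - (1 - t)) * pa.1 = 0 := by linarith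
    rcases mul_eq_zero.mp this with h0 | h0
    · linarith
    · exact absurd h0 hpa0.ne'
  have F4 : (3 * t - 2) * (sa - sb) = 0 := by
    have a1 : t * (sa * pa.1) + (1 - t) * (2 * ρ1 * (sb * pb.1)) =
      t * (sa * pa.1) + (1 - t) * (2 * sb * (ρ1 * pb.1)) := by ring
    have a2 : t' * (2 * (sa * pa.1)) + (1 - t') * (ρ1 * (sb * pb.1)) =
      t' * (2 * (sa * pa.1)) + (1 - t') * (sb * (ρ1 * pb.1)) := by ring
    rw [a1, a2, e1, F3] at E22
    have : (3 * t - 2) * (sa - sb) * pa.1 = 0 := by linarith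
    rcases mul_eq_zero.mp this with h0 | h0
    · exact h0
    · exact absurd h0 hpa0.ne'
  rw [← F1] at F2
  have F5 : t * sa + 2 * (1 - t) * sb = sm * (2 - t) := by
    have : (t * sa + 2 * (1 - t) * sb) * pa.1 = sm * (2 - t) * pa.1 := by rw [F2]; ring
    exact mul_right_cancel₀ hpa0.ne' this
  rcases mul_eq_zero.mp F4 with h0 | h0
  · have ht : t = 2 / 3 := by linarith
    rw [ht] at F5
    linarith
  · have hab' : sa = sb := by linarith
    rw [← hab'] at F5 ⊢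
    have : (2 - t) * (sm - sa) = 0 := by linarith
    rcases mul_eq_zero.mp this with h1 | h1
    · linarith
    · linarith

end PMS

end Pool.Agent.Work.MP_594704_gt
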