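import Pool.Agent.Work.MP_594704_gt.TwoD

set_option autoImplicit false

open Set Filter Topology

namespace Pool.Agent.Work.MP_594704_gt

variable {E : Type*} [NormedAddCommGroup E] [NormedSpace ℝ E]

/-- pullback under an injective affine map of the plane -/
lemma PMS.pull {M : Set E} {d : E → E → ℝ} (h : PMS M d) (o : E) (L : ℝ × ℝ →ₗ[ℝ] E)
    (hL : Function.Injective L) :
    PMS ((fun p => o + L p) ⁻¹' M) (fun p q => d (o + L p) (o + L q)) := by
  have hemb : IsClosedEmbedding L :=
    LinearMap.isClosedEmbedding_of_injective (LinearMap.ker_eq_bot.mpr hL)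
  have hPind : IsInducing (fun p => o + L p) :=
    (Homeomorph.addLeft o).isInducing.comp hemb.isInducing
  have hPc : Continuous (fun p => o + L p) := hPind.continuous
  have hPinj : Function.Injective (fun p => o + L p) := fun p q e => hL (add_left_cancel e)
  have hseg : ∀ x y z : ℝ × ℝ, o + L y ∈ segment ℝ (o + L x) (o + L z) ↔ y ∈ segment ℝ x z := by
    intro x y z
    rw [mem_segment_translate]
    constructor
    · rintro ⟨a, b, ha, hb, hab, he⟩
      refine ⟨a, b, ha, hb, hab, hL ?_⟩
      rw [map_add, map_smul, map_smul]; exact he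
    · rintro ⟨a, b, ha, hb, hab, he⟩
      refine ⟨a, b, ha, hb, hab, ?_⟩
      rw [← map_smul, ← map_smul, ← map_add, he]
  refine ⟨h.isOpen.preimage hPc, ?_, ?_, ?_, ?_, ?_, ?_, ?_, ?_, ?_⟩
  · intro x hx y hy a b ha hb hab
    change o + L (a • x + b • y) ∈ M
    have e : o + L (a • x + b • y) = a • (o + L x) + b • (o + L y) := by
      rw [map_add, map_smul, map_smul]
      have : a • (o + L x) + b • (o + L y) = (a + b) • o + (a • L x + b • L y) := by module
      rw [this, hab, one_smul]
    rw [e]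
    exact h.convex hx hy ha hb hab
  · intro x hx; exact h.self _ hx
  · intro x hx y hy; exact h.symm _ hx _ hy
  · intro x hx y hy e; exact hPinj (h.eq _ hx _ hy e)
  · intro x hx y hy z hz; exact h.tri _ hx _ hy _ hz
  · intro x hx V
    constructor
    · intro hV
      rw [hPind.nhds_eq_comap, mem_comap] at hV
      obtain ⟨V', hV', hVV⟩ := hV
      obtain ⟨r, hr, hr'⟩ := (h.top _ hx V').mp hV'
      exact ⟨r, hr, fun y hy hd => hVV (hr' _ hy hd)⟩
    · rintro ⟨r, hr, hr'⟩
      have h1 : {y | y ∈ M ∧ d (o + L x) y < r} ∈ 𝓝 (o + L x) :=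
        (h.top _ hx _).mpr ⟨r, hr, fun y hy hd => ⟨hy, hd⟩⟩
      have h2 := hPc.continuousAt (x := x) h1
      exact mem_of_superset h2 fun y hy => hr' y hy.1 hy.2
  · intro x hx y hy z hz
    rw [← hseg]
    exact h.btw _ hx _ hy _ hz
  · intro p hp v hv
    have hLv : L v ≠ 0 := fun e => hv (hL (by rw [e, map_zero]))
    obtain ⟨f, hf, hr⟩ := h.line _ hp (L v) hLv
    have hmem : ∀ s, f s ∈ M ∧ ∃ t : ℝ, f s = o + L p + t • L v := fun s => by
      have : f s ∈ Set.range f := ⟨s, rfl⟩
      rw [hr] at this; exact this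
    choose t ht using fun s => (hmem s).2
    have he : ∀ s, o + L (p + t s • v) = f s := by
      intro s
      rw [ht s, map_add, map_smul, add_assoc]
    refine ⟨fun s => p + t s • v, ?_, ?_⟩
    · intro s s'
      rw [he, he, hf]
    · ext y
      constructor
      · rintro ⟨s, rfl⟩
        refine ⟨?_, t s, rfl⟩
        change o + L (p + t s • v) ∈ M
        rw [he]; exact (hmem s).1
      · rintro ⟨hy, t', rfl⟩
        have : o + L (p + t' • v) ∈ Set.range f := by
          rw [hr]
          exact ⟨hy, t', by rw [map_add, map_smul, add_assoc]⟩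
        obtain ⟨s, hs⟩ := this
        refine ⟨s, hPinj ?_⟩
        change o + L (p + t s • v) = o + L (p + t' • v)
        rw [he, hs]
  · intro x hx y hy z hz w hw
    exact h.ptol _ hx _ hy _ hz _ hw

lemma IsParam.pull {M : Set E} {d : E → E → ℝ} {o : E} {L : ℝ × ℝ →ₗ[ℝ] E} {p w : ℝ × ℝ}
    {τ : ℝ → ℝ} (hτ : IsParam M d (o + L p) (L w) τ) :
    IsParam ((fun p => o + L p) ⁻¹' M) (fun p q => d (o + L p) (o + L q)) p w τ := by
  have e : ∀ t : ℝ, o + L (p + t • w) = o + L p + t • L w := by
    intro t; rw [map_add, map_smul, add_assoc]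
  refine ⟨hτ.mono, hτ.cont, hτ.zero, ?_, ?_, ?_⟩
  · intro s
    change o + L (p + τ s • w) ∈ M
    rw [e]; exact hτ.mem s
  · intro s t
    rw [e, e]; exact hτ.dist s t
  · intro t ht
    change o + L (p + t • w) ∈ M at ht
    rw [e] at ht
    exact hτ.surj t ht

/-- Any two vectors lie in the range of an injective linear map of the plane. -/
lemma exists_plane [FiniteDimensional ℝ E] (hE : 1 < Module.finrank ℝ E) (u v : E) :
    ∃ (L : ℝ × ℝ →ₗ[ℝ] E) (a b : ℝ × ℝ), Function.Injective L ∧ L a = u ∧ L b = v := by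
  have mk : ∀ e f : E, LinearIndependent ℝ ![e, f] → ∃ L : ℝ × ℝ →ₗ[ℝ] E,
      Function.Injective L ∧ ∀ a b : ℝ, L (a, b) = a • e + b • f := by
    intro e f hef
    refine ⟨(LinearMap.toSpanSingleton ℝ E e).coprod (LinearMap.toSpanSingleton ℝ E f), ?_, ?_⟩
    · rw [injective_iff_map_eq_zero]
      rintro ⟨a, b⟩ hab
      have h1 : a • e + b • f = 0 := by simpa using hab
      have := (LinearIndependent.pair_iff.mp hef) a b h1
      exact Prod.ext this.1 this.2
    · intro a b
      simp
  by_cases hli : LinearIndependent ℝ ![u, v]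
  · obtain ⟨L, hL, hL2⟩ := mk u v hli
    exact ⟨L, (1, 0), (0, 1), hL, by rw [hL2]; simp, by rw [hL2]; simp⟩
  · obtain ⟨e, he, a, b, ha, hb⟩ : ∃ e : E, e ≠ 0 ∧ ∃ a b : ℝ, u = a • e ∧ v = b • e := by
      rw [LinearIndependent.pair_iff] at hli
      push Not at hli
      obtain ⟨s, t, hst, hne⟩ := hli
      rcases eq_or_ne u 0 with hu | hu
      · rcases eq_or_ne v 0 with hv | hv
        · have : Nontrivial E := Module.nontrivial_of_finrank_pos (R := ℝ) (by linarith)
          obtain ⟨e, he⟩ := exists_ne (0 : E)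
          exact ⟨e, he, 0, 0, by simp [hu], by simp [hv]⟩
        · exact ⟨v, hv, 0, 1, by simp [hu], by simp⟩
      · refine ⟨u, hu, 1, -(s / t), by simp, ?_⟩
        have ht : t ≠ 0 := by
          intro ht
          rw [ht, zero_smul, add_zero] at hst
          rcases smul_eq_zero.mp hst with h1 | h1
          · exact hne h1 ht
          · exact hu h1
        have h2 : t • v = -(s • u) := by
          rw [eq_neg_iff_add_eq_zero, add_comm]; exact hst
        have h3 : v = t⁻¹ • (t • v) := by rw [smul_smul, inv_mul_cancel₀ ht, one_smul]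
        rw [h3, h2, ← neg_smul, smul_smul]
        congr 1
        field_simp
    obtain ⟨f, hf⟩ := exists_linearIndependent_pair_of_one_lt_finrank hE he
    obtain ⟨L, hL, hL2⟩ := mk e f hf
    exact ⟨L, (a, 0), (b, 0), hL, by rw [hL2, ha]; simp, by rw [hL2, hb]; simp⟩

end Pool.Agent.Work.MP_594704_gt
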