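import Pool.Agent.Work.MP_594704_gt.Cont

set_option autoImplicit false

open Set Filter Topology

namespace Pool.Agent.Work.MP_594704_gt

/-- The mixed second derivative of the distance, in terms of the form `A`. -/
noncomputable def HH (A : ℝ × ℝ × ℝ) (w w' u : ℝ × ℝ) : ℝ :=
  wd w u * wd w' u / (Real.sqrt (Bf A w w) * Real.sqrt (Bf A u u) ^ 3)

lemma Bf_add_smul (A : ℝ × ℝ × ℝ) (w u w' : ℝ × ℝ) (θ : ℝ) :
    Bf A w (u + θ • w') = Bf A w u + θ * Bf A w w' := by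
  simp only [Bf, Prod.fst_add, Prod.snd_add, Prod.smul_fst, Prod.smul_snd, smul_eq_mul]; ring

/-- If `q1 s / q2 t` tends to a positive limit as `(s, t) → 0` then `q1` and `q2` have positive
limits. -/
lemma tendsto_of_quot {q1 q2 : ℝ → ℝ} {r : ℝ} (hr : 0 < r)
    (h1 : ∀ᶠ s in 𝓝[>] (0 : ℝ), 0 < q1 s) (h2 : ∀ᶠ s in 𝓝[>] (0 : ℝ), 0 < q2 s)
    (hq : Tendsto (fun p : ℝ × ℝ => q1 p.1 / q2 p.2) (𝓝[>] 0 ×ˢ 𝓝[>] 0) (𝓝 r)) :
    ∃ n1 n2 : ℝ, 0 < n1 ∧ 0 < n2 ∧ Tendsto q1 (𝓝[>] 0) (𝓝 n1) ∧ Tendsto q2 (𝓝[>] 0) (𝓝 n2) ∧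
      n1 = r * n2 := by
  obtain ⟨U, hU⟩ := exists_ultra
  have cur : ∀ ε : ℝ, 0 < ε → ∀ᶠ s in 𝓝[>] (0 : ℝ), ∀ᶠ t in 𝓝[>] (0 : ℝ), |q1 s / q2 t - r| < ε := by
    intro ε hε
    have := (Metric.tendsto_nhds.mp hq ε hε).curry
    simpa only [Real.dist_eq] using this
  have cur' : ∀ ε : ℝ, 0 < ε → ∀ᶠ t in 𝓝[>] (0 : ℝ), ∀ᶠ s in 𝓝[>] (0 : ℝ), |q1 s / q2 t - r| < ε := by
    intro ε hε
    have hq' : Tendsto (fun p : ℝ × ℝ => q1 p.2 / q2 p.1) (𝓝[>] 0 ×ˢ 𝓝[>] 0) (𝓝 r) :=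
      hq.comp tendsto_prod_swap
    have := (Metric.tendsto_nhds.mp hq' ε hε).curry
    simpa only [Real.dist_eq] using this
  -- limit of `q2` along the ultrafilter
  obtain ⟨s0, hs0, hs0'⟩ := (h1.and (cur (r / 2) (by positivity))).exists
  obtain ⟨n2, hn2l, hn2u, hn2⟩ := ultra_lim (U := U) (f := q2) (a := q1 s0 / (2 * r))
    (b := 2 * q1 s0 / r) (by
    filter_upwards [hU hs0', hU h2] with t ht ht2
    rw [abs_lt] at ht
    have ht' : q1 s0 / q2 t < 2 * r := by linarith [ht.2]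
    have ht'' : r / 2 < q1 s0 / q2 t := by linarith [ht.1]
    rw [div_lt_iff₀ ht2] at ht'
    rw [lt_div_iff₀ ht2] at ht''
    constructor
    · rw [div_le_iff₀ (by positivity)]; linarith
    · rw [le_div_iff₀ hr]; linarith)
  have hn2pos : 0 < n2 := lt_of_lt_of_le (by positivity) hn2l
  have T1 : Tendsto q1 (𝓝[>] 0) (𝓝 (r * n2)) := by
    have : Tendsto (fun s => q1 s / n2) (𝓝[>] 0) (𝓝 r) := by
      rw [Metric.tendsto_nhds]
      intro ε hε
      filter_upwards [cur (ε / 2) (by positivity)] with s hs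
      rw [Real.dist_eq]
      have hl : Tendsto (fun t => |q1 s / q2 t - r|) U (𝓝 |q1 s / n2 - r|) :=
        ((tendsto_const_nhds.div hn2 hn2pos.ne').sub_const r).abs
      have := le_of_tendsto hl (b := ε / 2) (by filter_upwards [hU hs] with t ht using ht.le)
      linarith
    have h3 := this.mul_const n2
    refine h3.congr fun s => ?_
    field_simp
  have T2 : Tendsto q2 (𝓝[>] 0) (𝓝 n2) := by
    have : Tendsto (fun t => r * n2 / q2 t) (𝓝[>] 0) (𝓝 r) := by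
      rw [Metric.tendsto_nhds]
      intro ε hε
      filter_upwards [cur' (ε / 2) (by positivity)] with t ht
      rw [Real.dist_eq]
      have hl : Tendsto (fun s => |q1 s / q2 t - r|) (𝓝[>] 0) (𝓝 |r * n2 / q2 t - r|) :=
        ((T1.div_const _).sub_const r).abs
      have := le_of_tendsto hl (b := ε / 2) (by filter_upwards [ht] with s hs using hs.le)
      linarith
    have h3 := (tendsto_const_nhds (x := r * n2)).div this hr.ne'
    have e : r * n2 / r = n2 := by field_simp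
    rw [e] at h3
    refine h3.congr' ?_
    filter_upwards [h2] with t ht
    change r * n2 / (r * n2 / q2 t) = q2 t
    field_simp
  exact ⟨r * n2, n2, by positivity, hn2pos, T1, T2, rfl⟩

lemma hasDerivAt_cosine {A : ℝ × ℝ × ℝ} (hdet : A.1 * A.2.2 - A.2.1 ^ 2 = 1) {w w' u : ℝ × ℝ}
    (hw : 0 < Bf A w w) (θ : ℝ) (hu : 0 < Bf A (u + θ • w') (u + θ • w')) :
    HasDerivAt (fun θ => Bf A w (u + θ • w') /
      (Real.sqrt (Bf A w w) * Real.sqrt (Bf A (u + θ • w') (u + θ • w'))))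
      (HH A w w' (u + θ • w')) θ := by
  have d1 : HasDerivAt (fun θ => Bf A w (u + θ • w')) (Bf A w w') θ := by
    have e : (fun θ => Bf A w (u + θ • w')) = fun θ => Bf A w u + θ * Bf A w w' := by
      funext θ; exact Bf_add_smul A w u w' θ
    rw [e]
    have := ((hasDerivAt_id θ).mul_const (Bf A w w')).const_add (Bf A w u)
    rw [one_mul] at this
    exact this
  have d2 : HasDerivAt (fun θ => Bf A (u + θ • w') (u + θ • w'))
      (2 * Bf A (u + θ • w') w') θ := by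
    have e : (fun θ => Bf A (u + θ • w') (u + θ • w')) = fun θ =>
        Bf A u u + θ * (2 * Bf A u w') + θ ^ 2 * Bf A w' w' := by
      funext θ
      simp only [Bf, Prod.fst_add, Prod.snd_add, Prod.smul_fst, Prod.smul_snd, smul_eq_mul]; ring
    rw [e]
    have h1 := ((hasDerivAt_id θ).mul_const (2 * Bf A u w')).const_add (Bf A u u)
    have h2 := ((hasDerivAt_pow 2 θ)).mul_const (Bf A w' w')
    refine (h1.add h2).congr_deriv ?_
    simp only [Bf, Prod.fst_add, Prod.snd_add, Prod.smul_fst, Prod.smul_snd, smul_eq_mul]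
    norm_num
    ring
  have d3 := d2.sqrt hu.ne'
  have d4 := d3.const_mul (Real.sqrt (Bf A w w))
  have p1 : 0 < Real.sqrt (Bf A w w) := Real.sqrt_pos.mpr hw
  have p2 : 0 < Real.sqrt (Bf A (u + θ • w') (u + θ • w')) := Real.sqrt_pos.mpr hu
  refine (d1.div d4 (by positivity)).congr_deriv ?_
  set v := u + θ • w' with hv
  set S := Real.sqrt (Bf A v v) with hS
  set c := Real.sqrt (Bf A w w) with hc
  have hS2 : Bf A v v = S ^ 2 := (Real.sq_sqrt hu.le).symm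
  have lag := Bf_lagrange A w w' v
  rw [hdet, one_mul] at lag
  unfold HH
  rw [← lag, ← hc, ← hS, hS2]
  field_simp

namespace PMS

variable {M : Set (ℝ × ℝ)} {d : ℝ × ℝ → ℝ × ℝ → ℝ} (h : PMS M d)
include h

/-- The second difference of the distance over a rectangle. -/
lemma rect {x y w w' : ℝ × ℝ} {τ1 τ2 : ℝ → ℝ} (hτ1 : IsParam M d x w τ1)
    (hτ2 : IsParam M d y w' τ2) {s t : ℝ} (hs : 0 < s) (ht : 0 < t)
    (hne : ∀ σ ∈ Icc 0 s, ∀ θ ∈ Icc 0 (τ2 t), y + θ • w' ≠ x + τ1 σ • w) :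
    ∃ σ ∈ Ioo 0 s, ∃ θ ∈ Ioo 0 (τ2 t),
      d (y + τ2 t • w') (x + τ1 s • w) - d (y + τ2 t • w') x - d y (x + τ1 s • w) + d y x =
        -(s * τ2 t * HH (FA M d (x + τ1 σ • w)) w w' (y + θ • w' - (x + τ1 σ • w))) := by
  have hT : 0 < τ2 t := hτ2.pos_iff.mpr ht
  have hy := hτ2.mem0
  have hx := hτ1.mem0
  have hw := hτ1.dir_ne
  have hyt := hτ2.mem t
  -- first mean value theorem
  set f : ℝ → ℝ := fun σ => d (y + τ2 t • w') (x + τ1 σ • w) - d y (x + τ1 σ • w) with hf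
  set f' : ℝ → ℝ := fun σ => -(cs M d (x + τ1 σ • w) w (y + τ2 t • w')) -
    -(cs M d (x + τ1 σ • w) w y) with hf'
  have hfd : ∀ σ ∈ Icc 0 s, HasDerivAt f (f' σ) σ := by
    intro σ hσ
    have n1 := hne σ hσ (τ2 t) ⟨hT.le, le_rfl⟩
    have n2 := hne σ hσ 0 ⟨le_rfl, hT.le⟩
    rw [zero_smul, add_zero] at n2
    exact (h.hasDerivAt_cs' hτ1 σ hyt n1).sub (h.hasDerivAt_cs' hτ1 σ hy n2)
  obtain ⟨σ, hσ, hσe⟩ := exists_hasDerivAt_eq_slope f f' hs
    (fun σ hσ => (hfd σ hσ).continuousAt.continuousWithinAt)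
    (fun σ hσ => hfd σ ⟨hσ.1.le, hσ.2.le⟩)
  -- second mean value theorem
  have hxσ := hτ1.mem σ
  have hF := h.FA_spec hxσ
  set A := FA M d (x + τ1 σ • w)
  set u := y - (x + τ1 σ • w) with hu
  have hune : ∀ θ ∈ Icc 0 (τ2 t), u + θ • w' ≠ 0 := by
    intro θ hθ e
    apply hne σ ⟨hσ.1.le, hσ.2.le⟩ θ hθ
    have : u + θ • w' = (y + θ • w') - (x + τ1 σ • w) := by rw [hu]; abel
    rw [this] at e
    exact sub_eq_zero.mp e
  set g : ℝ → ℝ := fun θ => Bf A w (u + θ • w') /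
      (Real.sqrt (Bf A w w) * Real.sqrt (Bf A (u + θ • w') (u + θ • w'))) with hg
  have hgd : ∀ θ ∈ Icc 0 (τ2 t), HasDerivAt g (HH A w w' (u + θ • w')) θ := fun θ hθ =>
    hasDerivAt_cosine hF.det (h.FA_pos hxσ hw) θ (h.FA_pos hxσ (hune θ hθ))
  obtain ⟨θ, hθ, hθe⟩ := exists_hasDerivAt_eq_slope g (fun θ => HH A w w' (u + θ • w')) hT
    (fun θ hθ => (hgd θ hθ).continuousAt.continuousWithinAt)
    (fun θ hθ => hgd θ ⟨hθ.1.le, hθ.2.le⟩)
  refine ⟨σ, hσ, θ, hθ, ?_⟩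
  have c1 : cs M d (x + τ1 σ • w) w (y + τ2 t • w') = g (τ2 t) := by
    have e1 : x + τ1 σ • w + (u + τ2 t • w') = y + τ2 t • w' := by rw [hu]; abel
    have := hF.cs_eq w (u + τ2 t • w') hw (hune _ ⟨hT.le, le_rfl⟩) (by rw [e1]; exact hyt)
    rw [e1] at this
    exact this
  have c2 : cs M d (x + τ1 σ • w) w y = g 0 := by
    have e1 : x + τ1 σ • w + u = y := by rw [hu]; abel
    have hu0 : u ≠ 0 := by
      have := hune 0 ⟨le_rfl, hT.le⟩
      rwa [zero_smul, add_zero] at this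
    have := hF.cs_eq w u hw hu0 (by rw [e1]; exact hy)
    rw [e1] at this
    rw [this, hg]
    simp only [zero_smul, add_zero]
  have e3 : y + θ • w' - (x + τ1 σ • w) = u + θ • w' := by rw [hu]; abel
  rw [e3]
  simp only [hf', c1, c2, sub_zero] at hσe
  rw [eq_div_iff hs.ne'] at hσe
  simp only [sub_zero] at hθe
  rw [eq_div_iff hT.ne'] at hθe
  have e0 : x + τ1 0 • w = x := by simp [hτ1.zero]
  simp only [hf, e0] at hσe
  have : HH A w w' (u + θ • w') * τ2 t * s = (g (τ2 t) - g 0) * s := by rw [hθe]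
  linarith

/-- The limit of the normalised second differences. -/
lemma rect_tendsto {x y w w' : ℝ × ℝ} {τ1 τ2 : ℝ → ℝ} (hτ1 : IsParam M d x w τ1)
    (hτ2 : IsParam M d y w' τ2) (hxy : y ≠ x) :
    Tendsto (fun p : ℝ × ℝ => -(d (y + τ2 p.2 • w') (x + τ1 p.1 • w) - d (y + τ2 p.2 • w') x -
      d y (x + τ1 p.1 • w) + d y x) / (p.1 * τ2 p.2)) (𝓝[>] 0 ×ˢ 𝓝[>] 0)
      (𝓝 (HH (FA M d x) w w' (y - x))) := by
  have hy := hτ2.mem0
  have hx := hτ1.mem0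
  have hw := hτ1.dir_ne
  have e0 : x + τ1 0 • w = x := by simp [hτ1.zero]
  -- continuity of the relevant functions
  set V : ℝ × ℝ → ℝ × ℝ := fun p => y + p.2 • w' - (x + τ1 p.1 • w) with hV
  have hVc : Continuous V := by
    have := hτ1.cont
    simp only [hV]
    fun_prop
  have hV0 : V (0, 0) = y - x := by simp [hV, hτ1.zero]
  have hAc : Continuous (fun p : ℝ × ℝ => FA M d (x + τ1 p.1 • w)) :=
    (h.continuous_FA hτ1).comp continuous_fst
  set K : ℝ × ℝ → ℝ := fun p => HH (FA M d (x + τ1 p.1 • w)) w w' (V p) with hK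
  have hK0 : K (0, 0) = HH (FA M d x) w w' (y - x) := by
    simp only [hK, hV0]
    rw [e0]
  have hKc : ContinuousAt K (0, 0) := by
    have hBww : Continuous (fun p : ℝ × ℝ => Bf (FA M d (x + τ1 p.1 • w)) w w) := by
      unfold Bf; fun_prop
    have hBVV : Continuous (fun p : ℝ × ℝ => Bf (FA M d (x + τ1 p.1 • w)) (V p) (V p)) := by
      unfold Bf; fun_prop
    have hw1 : Continuous (fun p : ℝ × ℝ => wd w (V p)) := by unfold wd; fun_prop
    have hw2 : Continuous (fun p : ℝ × ℝ => wd w' (V p)) := by unfold wd; fun_prop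
    simp only [hK]
    unfold HH
    refine ContinuousAt.div (hw1.mul hw2).continuousAt
      (hBww.sqrt.mul (hBVV.sqrt.pow 3)).continuousAt ?_
    have p1 : 0 < Bf (FA M d (x + τ1 (0, 0).1 • w)) w w := h.FA_pos (hτ1.mem _) hw
    have p2 : 0 < Bf (FA M d (x + τ1 ((0 : ℝ), (0 : ℝ)).1 • w)) (V (0, 0)) (V (0, 0)) :=
      h.FA_pos (hτ1.mem _) (by rw [hV0]; exact sub_ne_zero.mpr hxy)
    have q1 := Real.sqrt_pos.mpr p1
    have q2 := Real.sqrt_pos.mpr p2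
    exact (mul_pos q1 (pow_pos q2 3)).ne'
  have hVne : ∀ᶠ p in 𝓝 ((0 : ℝ), (0 : ℝ)), V p ≠ 0 := by
    have : V (0, 0) ≠ 0 := by rw [hV0]; exact sub_ne_zero.mpr hxy
    exact hVc.continuousAt.eventually_ne this
  rw [Metric.tendsto_nhds]
  intro ε hε
  have h1 : ∀ᶠ p in 𝓝 ((0 : ℝ), (0 : ℝ)), dist (K p) (K (0, 0)) < ε :=
    Metric.tendsto_nhds.mp hKc ε hε
  obtain ⟨δ, hδ, hδb⟩ := Metric.eventually_nhds_iff.mp (h1.and hVne)
  have hτ20 : Tendsto τ2 (𝓝[>] 0) (𝓝 0) := by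
    have := hτ2.cont.tendsto 0
    rw [hτ2.zero] at this
    exact this.mono_left nhdsWithin_le_nhds
  have ev1 : ∀ᶠ s in 𝓝[>] (0 : ℝ), 0 < s ∧ s < δ :=
    Filter.Eventually.and self_mem_nhdsWithin
      ((eventually_lt_nhds hδ).filter_mono nhdsWithin_le_nhds)
  have ev2 : ∀ᶠ t in 𝓝[>] (0 : ℝ), 0 < t ∧ τ2 t < δ :=
    Filter.Eventually.and self_mem_nhdsWithin (hτ20.eventually (eventually_lt_nhds hδ))
  filter_upwards [ev1.prod_mk ev2] with p hp
  obtain ⟨⟨hs, hsδ⟩, ht, htδ⟩ := hp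
  have hT : 0 < τ2 p.2 := hτ2.pos_iff.mpr ht
  have hball : ∀ σ ∈ Icc 0 p.1, ∀ θ ∈ Icc 0 (τ2 p.2), dist (σ, θ) ((0 : ℝ), (0 : ℝ)) < δ := by
    intro σ hσ θ hθ
    rw [Prod.dist_eq, max_lt_iff]
    simp only [Real.dist_eq, sub_zero]
    rw [abs_of_nonneg hσ.1, abs_of_nonneg hθ.1]
    exact ⟨hσ.2.trans_lt hsδ, hθ.2.trans_lt htδ⟩
  obtain ⟨σ, hσ, θ, hθ, he⟩ := h.rect hτ1 hτ2 hs ht (fun σ hσ θ hθ e => by
    have := (hδb (hball σ hσ θ hθ)).2
    apply this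
    simp only [hV]
    exact sub_eq_zero.mpr e)
  rw [he, neg_neg]
  have h2 := (hδb (hball σ ⟨hσ.1.le, hσ.2.le⟩ θ ⟨hθ.1.le, hθ.2.le⟩)).1
  rw [hK0] at h2
  have h3 : p.1 * τ2 p.2 * HH (FA M d (x + τ1 σ • w)) w w' (y + θ • w' - (x + τ1 σ • w)) /
      (p.1 * τ2 p.2) = K (σ, θ) := by
    simp only [hK, hV]
    field_simp
  rw [h3]
  exact h2

/-- The quotients `arclength / affine parameter` on two lines are asymptotically proportional. -/
lemma quot_tendsto {x y w w' : ℝ × ℝ} {τ1 τ2 : ℝ → ℝ} (hτ1 : IsParam M d x w τ1)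
    (hτ2 : IsParam M d y w' τ2) (h1 : wd w (y - x) ≠ 0) (h2 : wd w' (y - x) ≠ 0) :
    Tendsto (fun p : ℝ × ℝ => (p.1 / τ1 p.1) / (p.2 / τ2 p.2)) (𝓝[>] 0 ×ˢ 𝓝[>] 0)
      (𝓝 (HH (FA M d y) w' w (y - x) / HH (FA M d x) w w' (y - x))) := by
  have hxy : y ≠ x := by
    rintro rfl
    apply h1
    simp [wd]
  have hy := hτ2.mem0
  have hx := hτ1.mem0
  have R1 := h.rect_tendsto hτ1 hτ2 hxy
  have R2 := (h.rect_tendsto hτ2 hτ1 hxy.symm).comp
    (tendsto_prod_swap (f := 𝓝[>] (0 : ℝ)) (g := 𝓝[>] (0 : ℝ)))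
  have hH1 : HH (FA M d x) w w' (y - x) ≠ 0 := by
    have p1 := Real.sqrt_pos.mpr (h.FA_pos hx hτ1.dir_ne)
    have p2 := Real.sqrt_pos.mpr (h.FA_pos hx (sub_ne_zero.mpr hxy))
    unfold HH
    exact div_ne_zero (mul_ne_zero h1 h2) (by positivity)
  have e : HH (FA M d y) w' w (x - y) = HH (FA M d y) w' w (y - x) := by
    unfold HH
    have e1 : wd w' (x - y) * wd w (x - y) = wd w' (y - x) * wd w (y - x) := by
      simp only [wd, Prod.fst_sub, Prod.snd_sub]; ring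
    have e2 : Bf (FA M d y) (x - y) (x - y) = Bf (FA M d y) (y - x) (y - x) := by
      simp only [Bf, Prod.fst_sub, Prod.snd_sub]; ring
    rw [e1, e2]
  rw [e] at R2
  refine (R2.div R1 hH1).congr' ?_
  have ev0 : ∀ᶠ p in 𝓝[>] (0 : ℝ) ×ˢ 𝓝[>] (0 : ℝ), 0 < p.1 ∧ 0 < p.2 :=
    Filter.Eventually.prod_mk (pa := fun s : ℝ => 0 < s) (pb := fun s : ℝ => 0 < s)
      self_mem_nhdsWithin self_mem_nhdsWithin
  filter_upwards [R1.eventually_ne hH1, ev0] with p hp hp0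
  have k1 := hτ1.pos_iff.mpr hp0.1
  have k2 := hτ2.pos_iff.mpr hp0.2
  have hxs := hτ1.mem p.1
  have hyt := hτ2.mem p.2
  change (-(d (x + τ1 p.1 • w) (y + τ2 p.2 • w') - d (x + τ1 p.1 • w) y - d x (y + τ2 p.2 • w') +
    d x y) / (p.2 * τ1 p.1)) / (-(d (y + τ2 p.2 • w') (x + τ1 p.1 • w) - d (y + τ2 p.2 • w') x -
      d y (x + τ1 p.1 • w) + d y x) / (p.1 * τ2 p.2)) = _
  rw [h.symm _ hxs _ hyt, h.symm _ hxs _ hy, h.symm _ hx _ hyt, h.symm _ hx _ hy]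
  have e3 : d (y + τ2 p.2 • w') (x + τ1 p.1 • w) - d y (x + τ1 p.1 • w) -
      d (y + τ2 p.2 • w') x + d y x = d (y + τ2 p.2 • w') (x + τ1 p.1 • w) -
      d (y + τ2 p.2 • w') x - d y (x + τ1 p.1 • w) + d y x := by ring
  rw [e3]
  set Δ := d (y + τ2 p.2 • w') (x + τ1 p.1 • w) -
      d (y + τ2 p.2 • w') x - d y (x + τ1 p.1 • w) + d y x with hΔ
  have hΔ0 : Δ ≠ 0 := by
    intro h0
    apply hp
    rw [h0, neg_zero, zero_div]
  have hp1 := hp0.1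
  have hp2 := hp0.2
  field_simp

end PMS

end Pool.Agent.Work.MP_594704_gt
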