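import Pool.Agent.Work.MP_594704_gt.Angle

set_option autoImplicit false

open Set Filter Topology

namespace Pool.Agent.Work.MP_594704_gt

variable {E : Type*} [NormedAddCommGroup E] [NormedSpace ℝ E]

/-- The family `z` of points has, at scale `r → 0`, the tangent functional `g` at `x`. -/
structure Tan (U : Filter ℝ) (M : Set E) (d : E → E → ℝ) (x : E) (z : ℝ → E) (g : E → ℝ) :
    Prop where
  bdd : ∃ C : ℝ, ∀ᶠ r in U, z r ∈ M ∧ d x (z r) ≤ C * r
  lim : ∀ y ∈ M, y ≠ x → Tendsto (fun r => (d y x - d y (z r)) / r) U (𝓝 (g y))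

namespace Tan

variable {M : Set E} {d : E → E → ℝ} {U : Ultrafilter ℝ} {x : E}

lemma pos_of_le (hU : (U : Filter ℝ) ≤ 𝓝[>] 0) : ∀ᶠ r in (U : Filter ℝ), 0 < r :=
  hU self_mem_nhdsWithin

lemma tendsto_zero (hU : (U : Filter ℝ) ≤ 𝓝[>] 0) : Tendsto (fun r : ℝ => r) U (𝓝 0) :=
  tendsto_id.mono_left (hU.trans nhdsWithin_le_nhds)

lemma dist_tendsto (h : PMS M d) (hU : (U : Filter ℝ) ≤ 𝓝[>] 0) (hx : x ∈ M) {z : ℝ → E}
    {g : E → ℝ} (hz : Tan U M d x z g) : Tendsto (fun r => d x (z r)) U (𝓝 0) := by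
  obtain ⟨C, hC⟩ := hz.bdd
  have h1 : Tendsto (fun r : ℝ => C * r) U (𝓝 0) := by
    simpa using (tendsto_zero hU).const_mul C
  refine squeeze_zero' ?_ ?_ h1
  · filter_upwards [hC] with r hr using h.nonneg hx hr.1
  · filter_upwards [hC] with r hr using hr.2

lemma tendsto (h : PMS M d) (hU : (U : Filter ℝ) ≤ 𝓝[>] 0) (hx : x ∈ M) {z : ℝ → E}
    {g : E → ℝ} (hz : Tan U M d x z g) : Tendsto z U (𝓝 x) := by
  obtain ⟨C, hC⟩ := hz.bdd
  exact h.tendsto_of_dist_zero hx (hC.mono fun r hr => hr.1) (hz.dist_tendsto h hU hx)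

lemma const (h : PMS M d) (hx : x ∈ M) :
    Tan U M d x (fun _ => x) (fun _ => 0) := by
  refine ⟨⟨0, Eventually.of_forall fun r => ⟨hx, by rw [h.self x hx, zero_mul]⟩⟩, ?_⟩
  intro y _ _
  simp

omit [NormedAddCommGroup E] [NormedSpace ℝ E] in
lemma unique {z : ℝ → E} {g g' : E → ℝ} (hz : Tan U M d x z g) (hz' : Tan U M d x z g')
    {y : E} (hy : y ∈ M) (hyx : y ≠ x) : g y = g' y :=
  tendsto_nhds_unique (hz.lim y hy hyx) (hz'.lim y hy hyx)

omit [NormedAddCommGroup E] [NormedSpace ℝ E] in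
lemma congr {z : ℝ → E} {g g' : E → ℝ} (hz : Tan U M d x z g)
    (hg : ∀ y ∈ M, y ≠ x → g y = g' y) : Tan U M d x z g' :=
  ⟨hz.bdd, fun y hy hyx => by rw [← hg y hy hyx]; exact hz.lim y hy hyx⟩

omit [NormedAddCommGroup E] [NormedSpace ℝ E] in
lemma congr_fam {z z' : ℝ → E} {g : E → ℝ} (hz : Tan U M d x z g)
    (hzz' : ∀ᶠ r in (U : Filter ℝ), z r = z' r) : Tan U M d x z' g := by
  refine ⟨?_, fun y hy hyx => ?_⟩
  · obtain ⟨C, hC⟩ := hz.bdd
    refine ⟨C, ?_⟩
    filter_upwards [hC, hzz'] with r h1 h2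
    rw [← h2]; exact h1
  · refine (hz.lim y hy hyx).congr' ?_
    filter_upwards [hzz'] with r h2
    rw [h2]

/-- (T1) points on a ray. -/
lemma ray (h : PMS M d) (hU : (U : Filter ℝ) ≤ 𝓝[>] 0) {w : E} {τ : ℝ → ℝ}
    (hτ : IsParam M d x w τ) {s : ℝ → ℝ} {ρ : ℝ} (hs : Tendsto (fun r => s r / r) U (𝓝 ρ)) :
    Tan U M d x (fun r => x + τ (s r) • w) (fun y => ρ * cs M d x w y) := by
  have hpos := pos_of_le hU
  have hbd : ∀ᶠ r in (U : Filter ℝ), |s r| ≤ (|ρ| + 1) * r := by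
    have h1 : ∀ᶠ r in (U : Filter ℝ), |s r / r| < |ρ| + 1 :=
      (hs.abs).eventually (eventually_lt_nhds (by linarith))
    filter_upwards [h1, hpos] with r h2 h3
    rw [abs_div, abs_of_pos h3, div_lt_iff₀ h3] at h2
    exact h2.le
  have hs0 : Tendsto s U (𝓝 0) := by
    have h1 : Tendsto (fun r : ℝ => (|ρ| + 1) * r) U (𝓝 0) := by
      simpa using (tendsto_zero hU).const_mul (|ρ| + 1)
    rw [tendsto_zero_iff_abs_tendsto_zero]
    exact squeeze_zero' (Eventually.of_forall fun r => abs_nonneg _) hbd h1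
  refine ⟨⟨|ρ| + 1, ?_⟩, ?_⟩
  · filter_upwards [hbd] with r hr
    exact ⟨hτ.mem _, by rw [hτ.dist0]; exact hr⟩
  · intro y hy hyx
    have hd := h.hasDerivAt_cs hτ hy hyx
    have e0 : x + τ 0 • w = x := by simp [hτ.zero]
    rw [hasDerivAt_iff_isLittleO] at hd
    simp only [e0, sub_zero, smul_eq_mul] at hd
    have h1 := hd.comp_tendsto hs0
    have h2 : (fun r => s r) =O[(U : Filter ℝ)] fun r => r := by
      refine Asymptotics.IsBigO.of_bound (|ρ| + 1) ?_
      filter_upwards [hbd, hpos] with r hr hr0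
      rw [Real.norm_eq_abs, Real.norm_of_nonneg hr0.le]
      exact hr
    have h3 := (h1.trans_isBigO h2).tendsto_div_nhds_zero
    have h4 : Tendsto (fun r => s r / r * cs M d x w y -
        ((fun x' => d y (x + τ x' • w) - d y x - x' * -cs M d x w y) ∘ s) r / r) U
        (𝓝 (ρ * cs M d x w y - 0)) := (hs.mul_const _).sub h3
    rw [sub_zero] at h4
    refine h4.congr' ?_
    filter_upwards [hpos] with r hr
    simp only [Function.comp]
    field_simp
    ring

/-- (T2) points on segments. -/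
lemma seg (h : PMS M d) (hx : x ∈ M) (hU : (U : Filter ℝ) ≤ 𝓝[>] 0) {z1 z2 z : ℝ → E}
    {g1 g2 : E → ℝ} (hz1 : Tan U M d x z1 g1) (hz2 : Tan U M d x z2 g2) {θ : ℝ → ℝ} {t : ℝ}
    (hθ : Tendsto θ U (𝓝 t)) (hθ01 : ∀ᶠ r in (U : Filter ℝ), 0 ≤ θ r ∧ θ r ≤ 1)
    (hzM : ∀ᶠ r in (U : Filter ℝ), z r ∈ M)
    (h1 : ∀ᶠ r in (U : Filter ℝ), d (z r) (z2 r) = θ r * d (z1 r) (z2 r))
    (h2 : ∀ᶠ r in (U : Filter ℝ), d (z1 r) (z r) = (1 - θ r) * d (z1 r) (z2 r))
    (hodd1 : ∀ y ∈ M, y ≠ x → ∀ ρ : ℝ, 0 < ρ → x + ρ • (x - y) ∈ M →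
      g1 (x + ρ • (x - y)) = - g1 y)
    (hodd2 : ∀ y ∈ M, y ≠ x → ∀ ρ : ℝ, 0 < ρ → x + ρ • (x - y) ∈ M →
      g2 (x + ρ • (x - y)) = - g2 y) :
    Tan U M d x z (fun y => t * g1 y + (1 - t) * g2 y) := by
  obtain ⟨C1, hC1⟩ := hz1.bdd
  obtain ⟨C2, hC2⟩ := hz2.bdd
  have hpos := pos_of_le hU
  -- convexity in the form we need
  have conv : ∀ᶠ r in (U : Filter ℝ), ∀ y ∈ M, d y (z r) ≤ θ r * d y (z1 r) + (1 - θ r) * d y (z2 r) := by
    filter_upwards [hC1, hC2, hzM, h1, h2, hθ01] with r k1 k2 k3 k4 k5 k6 y hy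
    rcases (h.nonneg k1.1 k2.1).eq_or_lt with h0 | h0
    · have e1 : z1 r = z2 r := h.eq _ k1.1 _ k2.1 h0.symm
      have e2 : z1 r = z r := h.eq _ k1.1 _ k3 (by rw [k5, ← h0, mul_zero])
      rw [← e1, ← e2]; linarith
    · have c := h.convex_dist hy k1.1 k2.1 k3
      rw [k4, k5] at c
      have c' : d y (z r) * d (z1 r) (z2 r) ≤
          (θ r * d y (z1 r) + (1 - θ r) * d y (z2 r)) * d (z1 r) (z2 r) := by
        calc _ ≤ _ := c
          _ = _ := by ring
      exact le_of_mul_le_mul_right c' h0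
  refine ⟨⟨max C1 0 + max C2 0, ?_⟩, ?_⟩
  · filter_upwards [conv, hC1, hC2, hzM, hθ01, hpos] with r c k1 k2 k3 k4 k5
    refine ⟨k3, ?_⟩
    have c1 := c x hx
    have a1 : d x (z1 r) ≤ max C1 0 * r := k1.2.trans (mul_le_mul_of_nonneg_right (le_max_left _ _) k5.le)
    have a2 : d x (z2 r) ≤ max C2 0 * r := k2.2.trans (mul_le_mul_of_nonneg_right (le_max_left _ _) k5.le)
    have b1 : 0 ≤ max C1 0 * r := mul_nonneg (le_max_right _ _) k5.le
    have b2 : 0 ≤ max C2 0 * r := mul_nonneg (le_max_right _ _) k5.le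
    nlinarith [k4.1, k4.2, h.nonneg hx k1.1, h.nonneg hx k2.1]
  · intro y hy hyx
    obtain ⟨ρ, hρ, -, hys⟩ := h.exists_opp hx y 1 one_pos
    have hysx : x + ρ • (x - y) ≠ x := by
      intro e
      have : ρ • (x - y) = 0 := by
        have h2 : x + ρ • (x - y) = x + 0 := by rw [e, add_zero]
        exact add_left_cancel h2
      rcases smul_eq_zero.mp this with h0 | h0
      · exact hρ.ne' h0
      · exact hyx (sub_eq_zero.mp h0).symm
    set ys := x + ρ • (x - y) with hys_def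
    have hseg := h.seg hy hx (mem_segment_opp x y hρ.le) hys
    rw [← hys_def, h.symm x hx ys hys] at hseg
    have L1 : Tendsto (fun r => θ r * ((d y x - d y (z1 r)) / r) +
        (1 - θ r) * ((d y x - d y (z2 r)) / r)) U (𝓝 (t * g1 y + (1 - t) * g2 y)) :=
      (hθ.mul (hz1.lim y hy hyx)).add (((tendsto_const_nhds).sub hθ).mul (hz2.lim y hy hyx))
    have L2 : Tendsto (fun r => -(θ r * ((d ys x - d ys (z1 r)) / r) +
        (1 - θ r) * ((d ys x - d ys (z2 r)) / r))) U (𝓝 (-(t * g1 ys + (1 - t) * g2 ys))) :=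
      ((hθ.mul (hz1.lim ys hys hysx)).add
        (((tendsto_const_nhds).sub hθ).mul (hz2.lim ys hys hysx))).neg
    rw [hodd1 y hy hyx ρ hρ hys, hodd2 y hy hyx ρ hρ hys] at L2
    have e : -(t * -g1 y + (1 - t) * -g2 y) = t * g1 y + (1 - t) * g2 y := by ring
    rw [e] at L2
    refine tendsto_of_tendsto_of_tendsto_of_le_of_le' L1 L2 ?_ ?_
    · filter_upwards [conv, hpos] with r c k5
      have c1 := c y hy
      rw [← mul_div_assoc, ← mul_div_assoc, ← add_div]
      apply div_le_div_of_nonneg_right _ k5.le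
      linarith
    · filter_upwards [conv, hpos, hzM] with r c k5 k3
      have c1 := c ys hys
      have t1 := h.tri y hy (z r) k3 ys hys
      rw [h.symm (z r) k3 ys hys] at t1
      rw [← mul_div_assoc, ← mul_div_assoc, ← add_div, ← neg_div]
      apply div_le_div_of_nonneg_right _ k5.le
      linarith

/-- (T3) distances between tangent families. -/
lemma dist [ProperSpace E] (h : PMS M d) (hx : x ∈ M) (hU : (U : Filter ℝ) ≤ 𝓝[>] 0)
    (hne : ∃ y ∈ M, y ≠ x) {z z' : ℝ → E} {g g' : E → ℝ} (hz : Tan U M d x z g)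
    (hz' : Tan U M d x z' g') :
    ∃ y0 ∈ M, y0 ≠ x ∧ Tendsto (fun r => d (z r) (z' r) / r) U (𝓝 (g' y0 - g y0)) ∧
      ∀ y ∈ M, y ≠ x → |g' y - g y| ≤ g' y0 - g y0 := by
  obtain ⟨C, hC⟩ := hz.bdd
  obtain ⟨C', hC'⟩ := hz'.bdd
  have hpos := pos_of_le hU
  have hzx := hz.tendsto h hU hx
  have hzx' := hz'.tendsto h hU hx
  -- lower bound, given the limit
  suffices hmain : ∃ y0 ∈ M, y0 ≠ x ∧ Tendsto (fun r => d (z r) (z' r) / r) U (𝓝 (g' y0 - g y0)) by
    obtain ⟨y0, hy0, hy0x, hlim⟩ := hmain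
    refine ⟨y0, hy0, hy0x, hlim, fun y hy hyx => ?_⟩
    have l1 := ((hz'.lim y hy hyx).sub (hz.lim y hy hyx)).abs
    refine le_of_tendsto_of_tendsto l1 hlim ?_
    filter_upwards [hC, hC', hpos] with r k1 k2 k3
    rw [← sub_div, abs_div, abs_of_pos k3]
    apply div_le_div_of_nonneg_right _ k3.le
    have := h.abs_sub_le hy k1.1 k2.1
    calc |d y x - d y (z' r) - (d y x - d y (z r))| = |d y (z r) - d y (z' r)| := by
          congr 1; ring
      _ ≤ _ := this
  rcases U.em (fun r => z r = z' r) with heq | hneq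
  · obtain ⟨y0, hy0, hy0x⟩ := hne
    refine ⟨y0, hy0, hy0x, ?_⟩
    have e1 : g y0 = g' y0 := (hz.congr_fam heq).unique hz' hy0 hy0x
    rw [e1, sub_self]
    refine tendsto_const_nhds.congr' ?_
    filter_upwards [heq, hC] with r k1 k2
    rw [← k1, h.self _ k2.1, zero_div]
  · -- a small ball
    obtain ⟨δ, hδ, hball⟩ : ∃ δ : ℝ, 0 < δ ∧ Metric.closedBall x (2 * δ) ⊆ M := by
      obtain ⟨ε, hε, hb⟩ := Metric.isOpen_iff.mp h.isOpen x hx
      refine ⟨ε / 4, by positivity, fun y hy => hb ?_⟩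
      rw [Metric.mem_closedBall] at hy
      rw [Metric.mem_ball]
      linarith
    set yy : ℝ → E := fun r => z' r + (δ / ‖z' r - z r‖) • (z' r - z r) with hyy
    have hnorm : ∀ᶠ r in (U : Filter ℝ), ‖yy r - z' r‖ = δ := by
      filter_upwards [hneq] with r hr
      have hn : 0 < ‖z' r - z r‖ := norm_pos_iff.mpr (sub_ne_zero.mpr (Ne.symm hr))
      simp only [hyy, add_sub_cancel_left]
      rw [norm_smul, Real.norm_eq_abs, abs_of_pos (by positivity), div_mul_cancel₀ _ hn.ne']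
    have hin : ∀ᶠ r in (U : Filter ℝ), yy r ∈ Metric.closedBall x (2 * δ) := by
      have h1 : ∀ᶠ r in (U : Filter ℝ), Dist.dist (z' r) x < δ :=
        hzx'.eventually (Metric.ball_mem_nhds x hδ)
      filter_upwards [hnorm, h1] with r k1 k2
      rw [Metric.mem_closedBall]
      calc Dist.dist (yy r) x ≤ Dist.dist (yy r) (z' r) + Dist.dist (z' r) x := dist_triangle _ _ _
        _ ≤ 2 * δ := by rw [dist_eq_norm, k1]; linarith
    obtain ⟨y0, hy0b, hy0⟩ := (isCompact_closedBall x (2 * δ)).ultrafilter_le_nhds (U.map yy)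
      (by rw [le_principal_iff]; exact hin)
    have hyt : Tendsto yy U (𝓝 y0) := hy0
    have hy0M : y0 ∈ M := hball hy0b
    have hy0x : y0 ≠ x := by
      intro e
      have h1 : Tendsto (fun r => ‖yy r - z' r‖) U (𝓝 ‖y0 - x‖) := (hyt.sub hzx').norm
      have h2 : Tendsto (fun r => ‖yy r - z' r‖) U (𝓝 δ) :=
        tendsto_const_nhds.congr' (by filter_upwards [hnorm] with r hr using hr.symm)
      have h3 := tendsto_nhds_unique h1 h2
      rw [e, sub_self, norm_zero] at h3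
      exact hδ.ne h3
    refine ⟨y0, hy0M, hy0x, ?_⟩
    have l0 := (hz'.lim y0 hy0M hy0x).sub (hz.lim y0 hy0M hy0x)
    have hd0 : 0 < d y0 x := h.pos hy0M hx hy0x
    have l1 : Tendsto (fun r => d y0 (z' r)) U (𝓝 (d y0 x)) :=
      h.tendsto_dist hy0M hx tendsto_const_nhds hzx'
    have l2 : Tendsto (fun r => 2 * d (yy r) y0 / d y0 (z' r) * (C + C')) U (𝓝 0) := by
      have h1 : Tendsto (fun r => d (yy r) y0) U (𝓝 (d y0 y0)) :=
        h.tendsto_dist hy0M hy0M hyt tendsto_const_nhds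
      rw [h.self y0 hy0M] at h1
      have h2 := ((h1.const_mul 2).div l1 hd0.ne').mul_const (C + C')
      simpa using h2
    have l3 : Tendsto (fun r => d (z r) (z' r) / r -
        ((d y0 x - d y0 (z' r)) / r - (d y0 x - d y0 (z r)) / r)) U (𝓝 0) := by
      rw [tendsto_zero_iff_abs_tendsto_zero]
      refine squeeze_zero' (Eventually.of_forall fun r => abs_nonneg _) ?_ l2
      filter_upwards [hC, hC', hpos, hneq, hin, l1.eventually (eventually_gt_nhds hd0)]
        with r k1 k2 k3 k4 k5 k6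
      have hyM : yy r ∈ M := hball k5
      have hn : 0 < ‖z' r - z r‖ := norm_pos_iff.mpr (sub_ne_zero.mpr (Ne.symm k4))
      have s1 : d (z r) (z' r) + d (z' r) (yy r) = d (z r) (yy r) :=
        h.seg k1.1 k2.1 (mem_segment_opp (z' r) (z r) (by positivity)) hyM
      have m1 := h.mixed hyM hy0M k1.1 k2.1
      rw [h.symm _ hyM _ k1.1, h.symm _ hyM _ k2.1] at m1
      have e1 : d (z r) (yy r) - d (z' r) (yy r) = d (z r) (z' r) := by linarith
      rw [e1] at m1
      have m2 : |d (z r) (z' r) - (d y0 (z r) - d y0 (z' r))| ≤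
          2 * d (yy r) y0 / d y0 (z' r) * d (z r) (z' r) := by
        rw [div_mul_eq_mul_div, le_div_iff₀ k6]
        exact m1
      have m3 : d (z r) (z' r) ≤ (C + C') * r := by
        have t1 := h.tri (z r) k1.1 x hx (z' r) k2.1
        rw [h.symm (z r) k1.1 x hx] at t1
        linarith [k1.2, k2.2]
      have m4 : 0 ≤ 2 * d (yy r) y0 / d y0 (z' r) := by
        have := h.nonneg hyM hy0M
        positivity
      have e2 : d (z r) (z' r) / r - ((d y0 x - d y0 (z' r)) / r - (d y0 x - d y0 (z r)) / r) =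
          (d (z r) (z' r) - (d y0 (z r) - d y0 (z' r))) / r := by
        field_simp
        ring
      simp only [Function.comp]
      rw [e2, abs_div, abs_of_pos k3, div_le_iff₀ k3]
      calc _ ≤ _ := m2
        _ ≤ 2 * d (yy r) y0 / d y0 (z' r) * ((C + C') * r) := mul_le_mul_of_nonneg_left m3 m4
        _ = _ := by ring
    have l4 := l3.add l0
    rw [zero_add] at l4
    refine l4.congr fun r => ?_
    ring

end Tan

end Pool.Agent.Work.MP_594704_gt
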