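import Pool.Agent.Work.MP_594704_gt.Integrate

set_option autoImplicit false

open Set Filter Topology

namespace Pool.Agent.Work.MP_594704_gt

/-- conformal data of a planar space -/
structure Data (M : Set (ℝ × ℝ)) (d : ℝ × ℝ → ℝ × ℝ → ℝ) (Q : ℝ × ℝ × ℝ) (l : ℝ × ℝ) (k : ℝ) :
    Prop where
  qpos : 0 < Q.1
  qdet : 0 < Q.1 * Q.2.2 - Q.2.1 ^ 2
  wpos : ∀ x ∈ M, 0 < Wb Q l k x x
  dpos : ∀ x ∈ M, ∀ u, u ≠ 0 → 0 < Dx Q l k x u
  speed : ∀ x w : ℝ × ℝ, ∀ τ : ℝ → ℝ, IsParam M d x w τ → Tendsto (fun s => s / τ s) (𝓝[>] 0)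
      (𝓝 (Real.sqrt (Dx Q l k x w) / Wb Q l k x x))

namespace Data

variable {M : Set (ℝ × ℝ)} {d : ℝ × ℝ → ℝ × ℝ → ℝ} {Q : ℝ × ℝ × ℝ} {l : ℝ × ℝ} {k : ℝ}

lemma theta (D : Data M d Q l k) {x u : ℝ × ℝ} {τ : ℝ → ℝ}
    (hτ : IsParam M d x u τ) {Θ : ℝ → ℝ}
    (hΘ : ∀ t, 0 ≤ t → x + t • u ∈ M → HasDerivAt Θ
      (Real.sqrt (Dx Q l k x u) / Wb Q l k (x + t • u) (x + t • u)) t) (hΘ0 : Θ 0 = 0) {s : ℝ}
    (hs : 0 ≤ s) : Θ (τ s) = s := by
  refine arclength_formula hτ (fun t _ ht => ?_) (fun s hs => ?_) hΘ hΘ0 hs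
  · exact div_pos (Real.sqrt_pos.mpr (D.dpos x hτ.mem0 u hτ.dir_ne)) (D.wpos _ ht)
  · have := D.speed _ _ _ (hτ.shift s)
    rw [Dx_line] at this
    exact this

lemma db_nonneg (D : Data M d Q l k) {x y : ℝ × ℝ} (hx : x ∈ M) : 0 ≤ Db Q l k x y := by
  rw [← Dx_sub]
  rcases eq_or_ne (y - x) 0 with h0 | h0
  · rw [h0]; simp [Dx, Bf, lam]
  · exact (D.dpos x hx _ h0).le

lemma k_nonneg (D : Data M d Q l k) (h : PMS M d) (h0 : (0 : ℝ × ℝ) ∈ M) : 0 ≤ k := by
  by_contra hk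
  push Not at hk
  have hτ := h.prm_spec h0 e1_ne
  set u : ℝ × ℝ := (1, 0)
  set τ := prm M d 0 u
  set W0 := Wb Q l k 0 0 with hW0
  set W1 := (1 + lam l 0) * lam l u - k * Bf Q 0 u with hW1
  set W2 := lam l u ^ 2 - k * Bf Q u u with hW2
  have hD := D.dpos 0 h0 u e1_ne
  set DD := Dx Q l k 0 u with hDD
  have hdisc : W1 ^ 2 - W0 * W2 = k * DD := W_disc Q l k 0 u
  have hr2 : 0 < -(k * DD) := by nlinarith
  set r := Real.sqrt (-(k * DD)) with hr
  have hrpos : 0 < r := Real.sqrt_pos.mpr hr2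
  have hrsq : r ^ 2 = W0 * W2 - W1 ^ 2 := by
    rw [hr, Real.sq_sqrt hr2.le]; linarith
  have hW0pos : 0 < W0 := D.wpos 0 h0
  have hW2pos : 0 < W2 := by
    have : 0 < W0 * W2 := by nlinarith [sq_nonneg W1, sq_nonneg r, sq_pos_of_pos hrpos]
    exact (mul_pos_iff_of_pos_left hW0pos).mp this
  have hsD : 0 < Real.sqrt DD := Real.sqrt_pos.mpr hD
  set Θ : ℝ → ℝ := fun t => Real.sqrt DD / r *
    (Real.arctan ((W2 * t + W1) / r) - Real.arctan (W1 / r)) with hΘ
  have hder : ∀ t, 0 ≤ t → 0 + t • u ∈ M → HasDerivAt Θ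
      (Real.sqrt (Dx Q l k 0 u) / Wb Q l k (0 + t • u) (0 + t • u)) t := by
    intro t _ htM
    have h1 : HasDerivAt (fun t => (W2 * t + W1) / r) (W2 / r) t := by
      have := (((hasDerivAt_id t).const_mul W2).add_const W1).div_const r
      rw [mul_one] at this
      exact this
    have h2 := (h1.arctan.sub_const (Real.arctan (W1 / r))).const_mul (Real.sqrt DD / r)
    refine h2.congr_deriv ?_
    rw [Wb_line]
    have hW := D.wpos _ htM
    rw [Wb_line] at hW
    have e : 1 + ((W2 * t + W1) / r) ^ 2 = W2 * (W0 + 2 * W1 * t + W2 * t ^ 2) / r ^ 2 := by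
      rw [div_pow, eq_div_iff (by positivity)]
      field_simp
      rw [hrsq]; ring
    change Real.sqrt DD / r * (1 / (1 + ((W2 * t + W1) / r) ^ 2) * (W2 / r)) =
      Real.sqrt DD / (W0 + 2 * W1 * t + W2 * t ^ 2)
    change 0 < W0 + 2 * W1 * t + W2 * t ^ 2 at hW
    rw [e]
    field_simp
  have hΘ0 : Θ 0 = 0 := by simp [hΘ]
  have key : ∀ s, 0 ≤ s → s ≤ Real.sqrt DD / r * Real.pi := by
    intro s hs
    have h1 := D.theta hτ hder hΘ0 hs
    rw [← h1]
    simp only [hΘ]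
    apply mul_le_mul_of_nonneg_left _ (by positivity)
    have a1 := Real.arctan_lt_pi_div_two ((W2 * τ s + W1) / r)
    have a2 := Real.neg_pi_div_two_lt_arctan (W1 / r)
    linarith
  have := key (Real.sqrt DD / r * Real.pi + 1) (by
    have := Real.pi_pos
    positivity)
  linarith

lemma lam_pos (D : Data M d Q l k) (h : PMS M d) (h0 : (0 : ℝ × ℝ) ∈ M) {x : ℝ × ℝ} (hx : x ∈ M) :
    0 < 1 + lam l x := by
  have hk := D.k_nonneg h h0
  have hQ : ∀ y, 0 ≤ Bf Q y y := by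
    intro y
    rcases eq_or_ne y 0 with hy | hy
    · rw [hy]; simp [Bf]
    · exact (Bf_pos D.qpos D.qdet hy).le
  have hne : ∀ y ∈ M, 1 + lam l y ≠ 0 := by
    intro y hy e
    have h1 := D.wpos y hy
    simp only [Wb, e, zero_mul, zero_sub] at h1
    have := mul_nonneg hk (hQ y)
    linarith
  by_contra hcon
  push Not at hcon
  have hl : lam l x ≤ -1 := by linarith
  set t := -1 / lam l x with ht
  have hneg : lam l x < 0 := by linarith
  have ht0 : 0 ≤ t := by
    rw [ht]; exact div_nonneg_of_nonpos (by norm_num) hneg.le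
  have ht1 : t ≤ 1 := by
    rw [ht, div_le_one_of_neg hneg]; linarith
  have hmem : t • x ∈ M := by
    have : t • x ∈ segment ℝ 0 x := ⟨1 - t, t, by linarith, ht0, by ring, by simp⟩
    exact h.convex.segment_subset h0 hx this
  apply hne _ hmem
  have : lam l (t • x) = t * lam l x := by
    simp only [lam, Prod.smul_fst, Prod.smul_snd, smul_eq_mul]; ring
  rw [this, ht, div_mul_cancel₀ _ hneg.ne]; ring

lemma wb_pos (D : Data M d Q l k) (h : PMS M d) (h0 : (0 : ℝ × ℝ) ∈ M) {x y : ℝ × ℝ} (hx : x ∈ M)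
    (hy : y ∈ M) : 0 < Wb Q l k x y := by
  have hk := D.k_nonneg h h0
  have hne : ∀ z ∈ M, Wb Q l k x z ≠ 0 := by
    intro z hz e
    have h1 := Db_disc Q l k x z
    rw [e] at h1
    have h2 := mul_nonneg hk (D.db_nonneg (y := z) hx)
    have h3 := mul_pos (D.wpos x hx) (D.wpos z hz)
    nlinarith
  by_contra hcon
  push Not at hcon
  have hW0 := D.wpos x hx
  set W0 := Wb Q l k x x with hW0d
  set W1 := (1 + lam l x) * lam l (y - x) - k * Bf Q x (y - x) with hW1
  have hline : ∀ t : ℝ, Wb Q l k x (x + t • (y - x)) = W0 + W1 * t := fun t =>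
    Wb_line' Q l k x (y - x) t
  have h1 := hline 1
  rw [one_smul, add_sub_cancel, mul_one] at h1
  rw [h1] at hcon
  have hneg : W1 < 0 := by linarith
  set t := -W0 / W1 with ht
  have ht0 : 0 ≤ t := by
    rw [ht]; exact div_nonneg_of_nonpos (by linarith) hneg.le
  have ht1 : t ≤ 1 := by
    rw [ht, div_le_one_of_neg hneg]; linarith
  have hmem : x + t • (y - x) ∈ M := by
    have : x + t • (y - x) ∈ segment ℝ x y := ⟨1 - t, t, by linarith, ht0, by ring, by module⟩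
    exact h.convex.segment_subset hx hy this
  apply hne _ hmem
  rw [hline, ht, mul_div_cancel₀ _ hneg.ne]; ring

/-- distance formula, negative curvature -/
theorem dist_hyp (D : Data M d Q l k) (h : PMS M d) (h0 : (0 : ℝ × ℝ) ∈ M) (hk : 0 < k)
    {x y : ℝ × ℝ} (hx : x ∈ M) (hy : y ∈ M) :
    d x y = (1 / Real.sqrt k) * Real.log ((Wb Q l k x y + Real.sqrt (k * Db Q l k x y)) /
      Real.sqrt (Wb Q l k x x * Wb Q l k y y)) := by
  rcases eq_or_ne y x with rfl | hne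
  · have : Db Q l k y y = 0 := by
      rw [← Dx_sub]; simp [Dx, Bf, lam]
    rw [this, mul_zero, Real.sqrt_zero, add_zero, Real.sqrt_mul_self (D.wpos y hx).le,
      div_self (D.wpos y hx).ne', Real.log_one, mul_zero, h.self y hx]
  set u := y - x with hu
  have hu0 : u ≠ 0 := sub_ne_zero.mpr hne
  have hτ := h.prm_spec hx hu0
  set τ := prm M d x u
  set W0 := Wb Q l k x x with hW0
  set W1 := (1 + lam l x) * lam l u - k * Bf Q x u with hW1
  set W2 := lam l u ^ 2 - k * Bf Q u u with hW2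
  have hD := D.dpos x hx u hu0
  set DD := Dx Q l k x u with hDD
  have hdisc : W1 ^ 2 - W0 * W2 = k * DD := W_disc Q l k x u
  have hkD : 0 < k * DD := by positivity
  set r := Real.sqrt (k * DD) with hr
  have hrpos : 0 < r := Real.sqrt_pos.mpr hkD
  have hrsq : r ^ 2 = W1 ^ 2 - W0 * W2 := by
    rw [hr, Real.sq_sqrt hkD.le]; linarith
  have hsk : 0 < Real.sqrt k := Real.sqrt_pos.mpr hk
  have hrk : r = Real.sqrt k * Real.sqrt DD := by rw [hr, Real.sqrt_mul hk.le]
  have hW0pos : 0 < W0 := D.wpos x hx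
  have hAB : ∀ t, 0 ≤ t → x + t • u ∈ M →
      0 < W0 + (W1 + r) * t ∧ 0 < W0 + (W1 - r) * t := by
    intro t ht htM
    have h1 := D.wb_pos h h0 hx htM
    rw [Wb_line'] at h1
    change 0 < W0 + W1 * t at h1
    have h2 := D.wpos _ htM
    rw [Wb_line] at h2
    change 0 < W0 + 2 * W1 * t + W2 * t ^ 2 at h2
    have h3 : (W0 + (W1 + r) * t) * (W0 + (W1 - r) * t) =
        W0 * (W0 + 2 * W1 * t + W2 * t ^ 2) := by
      have : (W0 + (W1 + r) * t) * (W0 + (W1 - r) * t) =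
          (W0 + W1 * t) ^ 2 - r ^ 2 * t ^ 2 := by ring
      rw [this, hrsq]; ring
    have h4 : 0 < (W0 + (W1 + r) * t) * (W0 + (W1 - r) * t) := by rw [h3]; positivity
    have h5 : 0 < W0 + (W1 + r) * t := by nlinarith [mul_nonneg hrpos.le ht]
    exact ⟨h5, (mul_pos_iff_of_pos_left h5).mp h4⟩
  set Θ : ℝ → ℝ := fun t => 1 / (2 * Real.sqrt k) *
    (Real.log (W0 + (W1 + r) * t) - Real.log (W0 + (W1 - r) * t)) with hΘ
  have hder : ∀ t, 0 ≤ t → x + t • u ∈ M → HasDerivAt Θ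
      (Real.sqrt (Dx Q l k x u) / Wb Q l k (x + t • u) (x + t • u)) t := by
    intro t ht htM
    obtain ⟨hA, hB⟩ := hAB t ht htM
    have h1 : HasDerivAt (fun t => W0 + (W1 + r) * t) (W1 + r) t := by
      have := ((hasDerivAt_id t).const_mul (W1 + r)).const_add W0
      rw [mul_one] at this
      exact this
    have h2 : HasDerivAt (fun t => W0 + (W1 - r) * t) (W1 - r) t := by
      have := ((hasDerivAt_id t).const_mul (W1 - r)).const_add W0
      rw [mul_one] at this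
      exact this
    have h3 := ((h1.log hA.ne').sub (h2.log hB.ne')).const_mul (1 / (2 * Real.sqrt k))
    refine h3.congr_deriv ?_
    have hW := D.wpos _ htM
    rw [Wb_line] at hW ⊢
    change 0 < W0 + 2 * W1 * t + W2 * t ^ 2 at hW
    change 1 / (2 * Real.sqrt k) * ((W1 + r) / (W0 + (W1 + r) * t) -
      (W1 - r) / (W0 + (W1 - r) * t)) = Real.sqrt DD / (W0 + 2 * W1 * t + W2 * t ^ 2)
    have e : (W1 + r) / (W0 + (W1 + r) * t) - (W1 - r) / (W0 + (W1 - r) * t) =
        2 * r / (W0 + 2 * W1 * t + W2 * t ^ 2) := by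
      rw [div_sub_div _ _ hA.ne' hB.ne', div_eq_div_iff (mul_pos hA hB).ne' hW.ne']
      have : (W0 + (W1 + r) * t) * (W0 + (W1 - r) * t) =
          (W0 + W1 * t) ^ 2 - r ^ 2 * t ^ 2 := by ring
      rw [this, hrsq]; ring
    rw [e, hrk]
    field_simp
  have hΘ0 : Θ 0 = 0 := by simp [hΘ]
  obtain ⟨s, hs⟩ := hτ.surj 1 (by rw [one_smul, hu, add_sub_cancel]; exact hy)
  have hspos : 0 < s := hτ.pos_iff.mp (by rw [hs]; exact one_pos)
  have h1 := D.theta hτ hder hΘ0 hspos.le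
  have h2 := hτ.dist0 s
  rw [hs, one_smul, abs_of_pos hspos] at h2
  have h3 : x + u = y := by rw [hu]; abel
  rw [h3] at h2
  rw [hs] at h1
  rw [h2, ← h1]
  simp only [hΘ, mul_one]
  obtain ⟨hA, hB⟩ := hAB 1 zero_le_one (by rw [one_smul, h3]; exact hy)
  rw [mul_one] at hA hB
  have hWxy : Wb Q l k x y = W0 + W1 := by
    have := Wb_line' Q l k x u 1
    rw [one_smul, h3, mul_one] at this
    exact this
  have hDb : Db Q l k x y = DD := by rw [← Dx_sub]
  have hWy : 0 < Wb Q l k y y := D.wpos y hy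
  have hprod : (W0 + (W1 + r)) * (W0 + (W1 - r)) = W0 * Wb Q l k y y := by
    have := Db_disc Q l k x y
    rw [hWxy, hDb] at this
    have h5 : r ^ 2 = k * DD := by rw [hr, Real.sq_sqrt hkD.le]
    nlinarith
  rw [hWxy, hDb]
  have e1 : W0 + W1 + Real.sqrt (k * DD) = W0 + (W1 + r) := by rw [hr]; ring
  rw [e1, Real.log_div hA.ne' (Real.sqrt_pos.mpr (by positivity)).ne', Real.log_sqrt (by positivity),
    ← hprod, Real.log_mul hA.ne' hB.ne']
  field_simp
  ring

/-- distance formula, flat case -/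
theorem dist_flat (D : Data M d Q l k) (h : PMS M d) (h0 : (0 : ℝ × ℝ) ∈ M) (hk : k = 0)
    {x y : ℝ × ℝ} (hx : x ∈ M) (hy : y ∈ M) :
    d x y = Real.sqrt (Db Q l k x y) / Wb Q l k x y := by
  rcases eq_or_ne y x with rfl | hne
  · have : Db Q l k y y = 0 := by
      rw [← Dx_sub]; simp [Dx, Bf, lam]
    rw [this, Real.sqrt_zero, zero_div, h.self y hx]
  set u := y - x with hu
  have hu0 : u ≠ 0 := sub_ne_zero.mpr hne
  have hτ := h.prm_spec hx hu0
  set τ := prm M d x u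
  set W0 := Wb Q l k x x with hW0
  set W1 := (1 + lam l x) * lam l u - k * Bf Q x u with hW1
  set W2 := lam l u ^ 2 - k * Bf Q u u with hW2
  have hD := D.dpos x hx u hu0
  set DD := Dx Q l k x u with hDD
  have hdisc : W1 ^ 2 - W0 * W2 = 0 := by
    have := W_disc Q l k x u
    have e : k * Dx Q l k x u = 0 := by rw [hk, zero_mul]
    rw [e] at this
    exact this
  have hW0pos : 0 < W0 := D.wpos x hx
  set Θ : ℝ → ℝ := fun t => Real.sqrt DD * t / (W0 + W1 * t) with hΘ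
  have hder : ∀ t, 0 ≤ t → x + t • u ∈ M → HasDerivAt Θ
      (Real.sqrt (Dx Q l k x u) / Wb Q l k (x + t • u) (x + t • u)) t := by
    intro t ht htM
    have hA := D.wb_pos h h0 hx htM
    rw [Wb_line'] at hA
    change 0 < W0 + W1 * t at hA
    have h1 : HasDerivAt (fun t => W0 + W1 * t) W1 t := by
      have := ((hasDerivAt_id t).const_mul W1).const_add W0
      rw [mul_one] at this
      exact this
    have h2 : HasDerivAt (fun t => Real.sqrt DD * t) (Real.sqrt DD) t := by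
      have := (hasDerivAt_id t).const_mul (Real.sqrt DD)
      rw [mul_one] at this
      exact this
    refine (h2.div h1 hA.ne').congr_deriv ?_
    have hW := D.wpos _ htM
    rw [Wb_line] at hW ⊢
    change 0 < W0 + 2 * W1 * t + W2 * t ^ 2 at hW
    change (Real.sqrt DD * (W0 + W1 * t) - Real.sqrt DD * t * W1) / (W0 + W1 * t) ^ 2 =
      Real.sqrt DD / (W0 + 2 * W1 * t + W2 * t ^ 2)
    rw [div_eq_div_iff (by positivity) hW.ne']
    have : W1 ^ 2 = W0 * W2 := by linarith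
    linear_combination (-(Real.sqrt DD) * t ^ 2) * this
  have hΘ0 : Θ 0 = 0 := by simp [hΘ]
  obtain ⟨s, hs⟩ := hτ.surj 1 (by rw [one_smul, hu, add_sub_cancel]; exact hy)
  have hspos : 0 < s := hτ.pos_iff.mp (by rw [hs]; exact one_pos)
  have h1 := D.theta hτ hder hΘ0 hspos.le
  have h2 := hτ.dist0 s
  rw [hs, one_smul, abs_of_pos hspos] at h2
  have h3 : x + u = y := by rw [hu]; abel
  rw [h3] at h2
  rw [hs] at h1
  rw [h2, ← h1]
  simp only [hΘ, mul_one]
  have hWxy : Wb Q l k x y = W0 + W1 := by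
    have := Wb_line' Q l k x u 1
    rw [one_smul, h3, mul_one] at this
    exact this
  have hDb : Db Q l k x y = DD := by rw [← Dx_sub]
  rw [hWxy, hDb]

end Data

end Pool.Agent.Work.MP_594704_gt
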