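import Pool.Agent.Work.MP_594704_gt.Tangent

set_option autoImplicit false

open Set Filter Topology

namespace Pool.Agent.Work.MP_594704_gt

variable {E : Type*} [NormedAddCommGroup E] [NormedSpace ℝ E]

lemma ultra_lim {U : Ultrafilter ℝ} {f : ℝ → ℝ} {a b : ℝ}
    (hf : ∀ᶠ r in (U : Filter ℝ), a ≤ f r ∧ f r ≤ b) :
    ∃ t : ℝ, a ≤ t ∧ t ≤ b ∧ Tendsto f U (𝓝 t) := by
  obtain ⟨t, ht, hl⟩ := (isCompact_Icc (a := a) (b := b)).ultrafilter_le_nhds (U.map f)
    (by rw [le_principal_iff]; exact hf)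
  exact ⟨t, ht.1, ht.2, hl⟩

lemma exists_ultra : ∃ U : Ultrafilter ℝ, (U : Filter ℝ) ≤ 𝓝[>] 0 :=
  ⟨Ultrafilter.of (𝓝[>] (0 : ℝ)), Ultrafilter.of_le _⟩

namespace PMS

variable {M : Set E} {d : E → E → ℝ} (h : PMS M d)
include h

lemma exists_ratio {z1 z2 z : E} (hz1 : z1 ∈ M) (hz2 : z2 ∈ M) (hz : z ∈ segment ℝ z1 z2) :
    ∃ θ : ℝ, 0 ≤ θ ∧ θ ≤ 1 ∧ d z z2 = θ * d z1 z2 ∧ d z1 z = (1 - θ) * d z1 z2 := by
  have hzM : z ∈ M := h.convex.segment_subset hz1 hz2 hz
  have hs := h.seg hz1 hzM hz hz2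
  have n1 := h.nonneg hz1 hzM
  have n2 := h.nonneg hzM hz2
  rcases (h.nonneg hz1 hz2).eq_or_lt with h0 | h0
  · refine ⟨0, le_rfl, zero_le_one, ?_, ?_⟩ <;> rw [← h0] at hs ⊢ <;> linarith
  · refine ⟨d z z2 / d z1 z2, by positivity, ?_, ?_, ?_⟩
    · rw [div_le_one h0]; linarith
    · field_simp
    · field_simp; linarith

lemma exists_mid {z1 z2 : E} (hz1 : z1 ∈ M) (hz2 : z2 ∈ M) :
    ∃ z ∈ M, d z z2 = 1 / 2 * d z1 z2 ∧ d z1 z = (1 - 1 / 2) * d z1 z2 := by
  rcases eq_or_ne z1 z2 with rfl | hne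
  · exact ⟨z1, hz1, by rw [h.self z1 hz1]; norm_num⟩
  have hτ := h.prm_spec hz1 (sub_ne_zero.mpr hne.symm)
  obtain ⟨s, hs⟩ := hτ.surj 1 (by rw [one_smul, add_sub_cancel]; exact hz2)
  have hspos : 0 < s := hτ.pos_iff.mp (by rw [hs]; exact one_pos)
  have e1 : z1 + prm M d z1 (z2 - z1) s • (z2 - z1) = z2 := by rw [hs, one_smul, add_sub_cancel]
  have hd : d z1 z2 = s := by
    have := hτ.dist0 s
    rw [e1, abs_of_pos hspos] at this
    exact this
  refine ⟨z1 + prm M d z1 (z2 - z1) (s / 2) • (z2 - z1), hτ.mem _, ?_, ?_⟩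
  · have := hτ.dist (s / 2) s
    rw [e1] at this
    rw [this, hd, abs_of_neg (by linarith)]; ring
  · rw [hτ.dist0, hd, abs_of_pos (by linarith)]; ring

/-- Small points on rays. -/
lemma exists_on_ray {x : E} (hx : x ∈ M) (w : E) : ∃ t : ℝ, 0 < t ∧ x + t • w ∈ M := by
  obtain ⟨ρ, h1, -, h2⟩ := h.exists_opp hx (x - w) 1 one_pos
  exact ⟨ρ, h1, by simpa using h2⟩

omit h in
lemma ne_of_smul {x w : E} {t : ℝ} (ht : t ≠ 0) (hw : w ≠ 0) : x + t • w ≠ x := by
  intro e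
  have : t • w = 0 := by
    have h2 : x + t • w = x + 0 := by rw [e, add_zero]
    exact add_left_cancel h2
  rcases smul_eq_zero.mp this with h7 | h7
  · exact ht h7
  · exact hw h7

/-- Distances to points of a segment are at most the larger of the distances to its ends. -/
lemma dist_seg_le {x z1 z2 z : E} {R : ℝ} (hx : x ∈ M) (hz1 : z1 ∈ M) (hz2 : z2 ∈ M)
    (hz : z ∈ segment ℝ z1 z2) (h1 : d x z1 ≤ R) (h2 : d x z2 ≤ R) : d x z ≤ R := by
  obtain ⟨θ, t0, t1, e1, e2⟩ := h.exists_ratio hz1 hz2 hz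
  have hzM : z ∈ M := h.convex.segment_subset hz1 hz2 hz
  rcases (h.nonneg hz1 hz2).eq_or_lt with h0 | h0
  · have : z1 = z := h.eq _ hz1 _ hzM (by rw [e2, ← h0, mul_zero])
    rw [← this]; exact h1
  · have c := h.convex_dist hx hz1 hz2 hzM
    rw [e1, e2] at c
    have c' : d x z * d z1 z2 ≤ (θ * d x z1 + (1 - θ) * d x z2) * d z1 z2 := by
      calc _ ≤ _ := c
        _ = _ := by ring
    have c2 := le_of_mul_le_mul_right c' h0
    nlinarith

/-- (L1) the cosine functional of a direction in the wedge of `v1, v2` is a positive combination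
of the cosine functionals of `v1` and `v2`. -/
lemma wedge {x v1 v2 : E} (hx : x ∈ M) (hlin : ∀ s t : ℝ, s • v1 + t • v2 = 0 → s = 0 ∧ t = 0)
    {a b : ℝ} (ha : 0 < a) (hb : 0 < b) :
    ∃ A B : ℝ, 0 < A ∧ 0 < B ∧ ∀ y ∈ M, y ≠ x →
      cs M d x (a • v1 + b • v2) y = A * cs M d x v1 y + B * cs M d x v2 y := by
  obtain ⟨U, hU⟩ := exists_ultra
  have hv1 : v1 ≠ 0 := by
    rintro rfl
    have := (hlin 1 0 (by simp)).1
    norm_num at this
  have hv2 : v2 ≠ 0 := by
    rintro rfl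
    have := (hlin 0 1 (by simp)).2
    norm_num at this
  set v := a • v1 + b • v2 with hv_def
  have hv : v ≠ 0 := fun e => ha.ne' (hlin a b e).1
  have hτ1 := h.prm_spec hx hv1
  have hτ2 := h.prm_spec hx hv2
  have hτ := h.prm_spec hx hv
  set τ1 := prm M d x v1
  set τ2 := prm M d x v2
  set τ := prm M d x v
  have hpos := Tan.pos_of_le hU
  -- the crossing point
  set t : ℝ → ℝ := fun r => 1 / (a / τ1 r + b / τ2 r) with ht_def
  have htpos : ∀ r, 0 < r → 0 < t r := by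
    intro r hr
    have h1 := hτ1.pos_iff.mpr hr
    have h2 := hτ2.pos_iff.mpr hr
    simp only [ht_def]; positivity
  have hseg : ∀ r, 0 < r → x + t r • v ∈ segment ℝ (x + τ1 r • v1) (x + τ2 r • v2) := by
    intro r hr
    have h1 := hτ1.pos_iff.mpr hr
    have h2 := hτ2.pos_iff.mpr hr
    have h3 := htpos r hr
    have hsum : t r * a / τ1 r + t r * b / τ2 r = 1 := by
      simp only [ht_def]; field_simp
    refine ⟨t r * a / τ1 r, t r * b / τ2 r, by positivity, by positivity, hsum, ?_⟩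
    have e : (t r * a / τ1 r) • (x + τ1 r • v1) + (t r * b / τ2 r) • (x + τ2 r • v2) =
        (t r * a / τ1 r + t r * b / τ2 r) • x + ((t r * a / τ1 r) * τ1 r) • v1 +
          ((t r * b / τ2 r) * τ2 r) • v2 := by module
    rw [e, hsum, div_mul_cancel₀ _ h1.ne', div_mul_cancel₀ _ h2.ne', hv_def]
    module
  have hmem : ∀ r, 0 < r → x + t r • v ∈ M := fun r hr =>
    h.convex.segment_subset (hτ1.mem r) (hτ2.mem r) (hseg r hr)
  -- arclength on the ray `v`
  have hex : ∀ r, ∃ s, 0 < r → τ s = t r := by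
    intro r
    by_cases hr : 0 < r
    · obtain ⟨s, hs⟩ := hτ.surj _ (hmem r hr)
      exact ⟨s, fun _ => hs⟩
    · exact ⟨0, fun h => absurd h hr⟩
  choose s hs using hex
  have hspos : ∀ r, 0 < r → 0 < s r := fun r hr => hτ.pos_iff.mp (by rw [hs r hr]; exact htpos r hr)
  have hsle : ∀ r, 0 < r → s r ≤ r := by
    intro r hr
    have h1 := h.dist_seg_le hx (hτ1.mem r) (hτ2.mem r) (hseg r hr) (R := r)
      (by rw [hτ1.dist0, abs_of_pos hr]) (by rw [hτ2.dist0, abs_of_pos hr])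
    rw [← hs r hr, hτ.dist0, abs_of_pos (hspos r hr)] at h1
    exact h1
  obtain ⟨ρ, hρ0, -, hρ⟩ := ultra_lim (U := U) (f := fun r => s r / r) (a := 0) (b := 1) (by
    filter_upwards [hpos] with r hr
    have := hspos r hr
    exact ⟨by positivity, by rw [div_le_one hr]; exact hsle r hr⟩)
  -- metric ratio on the segment
  have hex2 : ∀ r, ∃ θ : ℝ, 0 < r → 0 ≤ θ ∧ θ ≤ 1 ∧
      d (x + t r • v) (x + τ2 r • v2) = θ * d (x + τ1 r • v1) (x + τ2 r • v2) ∧
      d (x + τ1 r • v1) (x + t r • v) = (1 - θ) * d (x + τ1 r • v1) (x + τ2 r • v2) := by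
    intro r
    by_cases hr : 0 < r
    · obtain ⟨θ, h1⟩ := h.exists_ratio (hτ1.mem r) (hτ2.mem r) (hseg r hr)
      exact ⟨θ, fun _ => h1⟩
    · exact ⟨0, fun h => absurd h hr⟩
  choose θ hθ using hex2
  obtain ⟨θ0, hθ0, hθ1, hθl⟩ := ultra_lim (U := U) (f := θ) (a := 0) (b := 1) (by
    filter_upwards [hpos] with r hr
    exact ⟨(hθ r hr).1, (hθ r hr).2.1⟩)
  have hid : Tendsto (fun r : ℝ => r / r) U (𝓝 1) := by
    refine tendsto_const_nhds.congr' ?_
    filter_upwards [hpos] with r hr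
    rw [div_self hr.ne']
  have T1 := Tan.ray h hU hτ1 hid
  have T2 := Tan.ray h hU hτ2 hid
  have T3 := Tan.seg h hx hU T1 T2 (z := fun r => x + t r • v) hθl
    (by filter_upwards [hpos] with r hr using ⟨(hθ r hr).1, (hθ r hr).2.1⟩)
    (by filter_upwards [hpos] with r hr using hmem r hr)
    (by filter_upwards [hpos] with r hr using (hθ r hr).2.2.1)
    (by filter_upwards [hpos] with r hr using (hθ r hr).2.2.2)
    (fun y hy hyx ρ hρ hys => by rw [h.cs_opp hρ hx hv1 hy hyx hys]; ring)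
    (fun y hy hyx ρ hρ hys => by rw [h.cs_opp hρ hx hv2 hy hyx hys]; ring)
  have T4 := (Tan.ray h hU hτ hρ).congr_fam (z' := fun r => x + t r • v) (by
    filter_upwards [hpos] with r hr
    rw [hs r hr])
  have main : ∀ y ∈ M, y ≠ x →
      ρ * cs M d x v y = θ0 * cs M d x v1 y + (1 - θ0) * cs M d x v2 y := by
    intro y hy hyx
    have := T4.unique T3 hy hyx
    simpa using this
  -- evaluate on the three rays
  obtain ⟨t1, ht1, hy1⟩ := h.exists_on_ray hx v1
  obtain ⟨t2, ht2, hy2⟩ := h.exists_on_ray hx v2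
  obtain ⟨t3, ht3, hy3⟩ := h.exists_on_ray hx v
  have m1 := main _ hy1 (ne_of_smul ht1.ne' hv1)
  have m2 := main _ hy2 (ne_of_smul ht2.ne' hv2)
  have m3 := main _ hy3 (ne_of_smul ht3.ne' hv)
  rw [h.cs_self ht1 hx hv1 hy1] at m1
  rw [h.cs_self ht2 hx hv2 hy2] at m2
  rw [h.cs_self ht3 hx hv hy3] at m3
  have off : ∀ (u w : E) (t : ℝ), t ≠ 0 → (∀ s t : ℝ, s • u = t • w → s = 0) →
      ∀ s : ℝ, x + t • u ≠ x + s • w := by
    intro u w t ht hl s e
    exact ht (hl t s (add_left_cancel e))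
  have l12 : ∀ s t : ℝ, s • v1 = t • v2 → s = 0 := fun s t e =>
    (hlin s (-t) (by rw [e]; module)).1
  have l21 : ∀ s t : ℝ, s • v2 = t • v1 → s = 0 := fun s t e =>
    (hlin (-t) s (by rw [e]; module)).2
  have lv1 : ∀ s t : ℝ, s • v = t • v1 → s = 0 := by
    intro s t e
    have := (hlin (s * a - t) (s * b) (by
      have : (s * a - t) • v1 + (s * b) • v2 = s • v - t • v1 := by rw [hv_def]; module
      rw [this, e, sub_self])).2
    rcases mul_eq_zero.mp this with h0 | h0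
    · exact h0
    · exact absurd h0 hb.ne'
  have lv2 : ∀ s t : ℝ, s • v = t • v2 → s = 0 := by
    intro s t e
    have := (hlin (s * a) (s * b - t) (by
      have : (s * a) • v1 + (s * b - t) • v2 = s • v - t • v2 := by rw [hv_def]; module
      rw [this, e, sub_self])).1
    rcases mul_eq_zero.mp this with h0 | h0
    · exact h0
    · exact absurd h0 ha.ne'
  have l1v : ∀ s t : ℝ, s • v1 = t • v → s = 0 := by
    intro s t e
    have ht : t = 0 := lv1 t s e.symm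
    rw [ht, zero_smul] at e
    rcases smul_eq_zero.mp e with h0 | h0
    · exact h0
    · exact absurd h0 hv1
  have l2v : ∀ s t : ℝ, s • v2 = t • v → s = 0 := by
    intro s t e
    have ht : t = 0 := lv2 t s e.symm
    rw [ht, zero_smul] at e
    rcases smul_eq_zero.mp e with h0 | h0
    · exact h0
    · exact absurd h0 hv2
  have b12 := h.cs_lt_one hx hv2 hy1 (off v1 v2 t1 ht1.ne' l12)
  have b12' := h.neg_one_lt_cs hx hv2 hy1 (off v1 v2 t1 ht1.ne' l12)
  have b21 := h.cs_lt_one hx hv1 hy2 (off v2 v1 t2 ht2.ne' l21)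
  have b21' := h.neg_one_lt_cs hx hv1 hy2 (off v2 v1 t2 ht2.ne' l21)
  have b1v := h.cs_lt_one hx hv hy1 (off v1 v t1 ht1.ne' l1v)
  have b2v := h.cs_lt_one hx hv hy2 (off v2 v t2 ht2.ne' l2v)
  have bv1 := h.cs_lt_one hx hv1 hy3 (off v v1 t3 ht3.ne' lv1)
  have bv2 := h.cs_lt_one hx hv2 hy3 (off v v2 t3 ht3.ne' lv2)
  have hρpos : 0 < ρ := by
    rcases hρ0.lt_or_eq with h0 | h0
    · exact h0
    exfalso
    rw [← h0, zero_mul] at m1 m2
    rcases hθ1.lt_or_eq with h2 | h2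
    · rcases hθ0.lt_or_eq with h3 | h3
      · nlinarith
      · rw [← h3] at m2; norm_num at m2
    · rw [h2] at m1; norm_num at m1
  have hθpos : 0 < θ0 := by
    rcases hθ0.lt_or_eq with h0 | h0
    · exact h0
    exfalso
    rw [← h0] at m2 m3
    nlinarith
  have hθlt : θ0 < 1 := by
    rcases hθ1.lt_or_eq with h0 | h0
    · exact h0
    exfalso
    rw [h0] at m1 m3
    nlinarith
  refine ⟨θ0 / ρ, (1 - θ0) / ρ, by positivity, div_pos (by linarith) hρpos, fun y hy hyx => ?_⟩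
  have := main y hy hyx
  field_simp
  linarith

end PMS

end Pool.Agent.Work.MP_594704_gt
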